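import Pool.Agent.TH598.GV.Defs
import Pool.Agent.TH643.J3412
import Pool.Agent.TH914.J3414

/-!
# The double alternating sum `GG (HH L g Γ)` as a Gaussian integral
-/

set_option autoImplicit false

namespace Pool.Agent.TH991.J3417

open Finset MeasureTheory Pool.Agent.TH598.GV
open scoped ComplexConjugate ComplexOrder

/-- a permutation of the slots as a permutation of the indices -/
def hat {B : Type} (π : Equiv.Perm B) : Equiv.Perm (B × Bool) :=
  Equiv.prodCongrLeft (fun _ => π)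

@[simp] lemma hat_apply {B : Type} (π : Equiv.Perm B) (b : B) (c : Bool) :
    hat π (b, c) = (π b, c) := rfl

lemma sign_hat {B : Type} [Fintype B] [DecidableEq B] (π : Equiv.Perm B) :
    Equiv.Perm.sign (hat π) = 1 := by
  rw [hat, Equiv.Perm.sign_prodCongrLeft]
  simp

lemma cs_hat {B : Type} [Fintype B] [DecidableEq B] (σ : Equiv.Perm (B × Bool))
    (π : Equiv.Perm B) : cs (σ * hat π) = cs σ := by
  unfold cs
  rw [Equiv.Perm.sign_mul, sign_hat, mul_one]

lemma PP_comp {B : Type} [Fintype B] [DecidableEq B] (h : B → B × Bool → B × Bool → ℂ)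
    (π : Equiv.Perm B) : PP (fun b => h (π b)) = PP h := by
  unfold PP
  rw [← Equiv.sum_comp (Equiv.mulRight (hat π))]
  refine Finset.sum_congr rfl fun σ _ => ?_
  rw [Equiv.coe_mulRight, cs_hat]
  congr 1
  exact Equiv.prod_comp π (fun b => h b (σ (b, false)) (σ (b, true)))

/-- mixed double alternating sum -/
noncomputable def GM {B : Type} [Fintype B] [DecidableEq B]
    (H : B → B × Bool → B × Bool → B × Bool → B × Bool → ℂ) : ℂ :=
  ∑ σ : Equiv.Perm (B × Bool), ∑ τ : Equiv.Perm (B × Bool), cs σ * cs τ *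
    ∏ b : B, H b (σ (b, false)) (σ (b, true)) (τ (b, false)) (τ (b, true))

lemma GM_comp {B : Type} [Fintype B] [DecidableEq B]
    (H : B → B × Bool → B × Bool → B × Bool → B × Bool → ℂ)
    (π : Equiv.Perm B) : GM (fun b => H (π b)) = GM H := by
  unfold GM
  rw [← Equiv.sum_comp (Equiv.mulRight (hat π))]
  refine Finset.sum_congr rfl fun σ _ => ?_
  rw [← Equiv.sum_comp (Equiv.mulRight (hat π))]
  refine Finset.sum_congr rfl fun τ _ => ?_
  rw [Equiv.coe_mulRight, cs_hat, cs_hat]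
  congr 1
  exact Equiv.prod_comp π
    (fun b => H b (σ (b, false)) (σ (b, true)) (τ (b, false)) (τ (b, true)))

/-- expansion of a product of sums with only one nonzero second term -/
lemma prod_add_unique {B : Type} [Fintype B] [DecidableEq B] (R G : B → ℂ) (b0 : B)
    (h : ∀ b, b ≠ b0 → G b = 0) :
    ∏ b, (R b + G b) = ∏ b, R b + ∑ b, G b * ∏ b' ∈ univ.erase b, R b' := by
  rw [Finset.sum_eq_single b0 (fun b _ hb => by rw [h b hb, zero_mul])
    (fun hb => absurd (Finset.mem_univ _) hb)]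
  rw [← Finset.mul_prod_erase univ (fun b => R b + G b) (Finset.mem_univ b0),
    ← Finset.mul_prod_erase univ R (Finset.mem_univ b0), add_mul]
  have : ∏ b ∈ univ.erase b0, (R b + G b) = ∏ b ∈ univ.erase b0, R b :=
    Finset.prod_congr rfl fun b hb => by rw [h b (Finset.ne_of_mem_erase hb), add_zero]
  rw [this]

lemma W_zero {k : ℕ} {i j p : Ix k} (hi : i ≠ e0) (hj : j ≠ e0) : W p i j = 0 := by
  simp [W, hi, hj]

lemma conj_W {k : ℕ} (p i j : Ix k) : conj (W p i j) = W p i j := by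
  simp only [W, map_sub, map_mul, apply_ite (starRingEnd ℂ), map_one, map_zero]

lemma em_ne {k : ℕ} (j : K k) : Pool.Agent.TH598.GV.em j ≠ e0 := by
  intro h
  have := congrArg (fun x : Ix k => x.1) h
  exact Fin.succ_ne_zero _ this

lemma e1_ne {k : ℕ} : (e1 : Ix k) ≠ e0 := by
  intro h
  have := congrArg (fun x : Ix k => x.2) h
  simp [e1, e0] at this

lemma pr_ne {k : ℕ} (s : Sx k) : (pr s).1 ≠ e0 ∧ (pr s).2 ≠ e0 := by
  rcases s with s | s
  · exact ⟨e1_ne, em_ne _⟩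
  · exact ⟨em_ne _, em_ne _⟩

lemma E_zero_left {k : ℕ} (s : Sx k) (j : Ix k) : E s e0 j = 0 := by
  unfold E
  rw [if_neg, if_neg, sub_zero]
  · intro h
    exact (pr_ne s).2 (congrArg Prod.snd h).symm
  · intro h
    exact (pr_ne s).1 (congrArg Prod.fst h).symm

lemma E_zero_right {k : ℕ} (s : Sx k) (j : Ix k) : E s j e0 = 0 := by
  unfold E
  rw [if_neg, if_neg, sub_zero]
  · intro h
    exact (pr_ne s).1 (congrArg Prod.fst h).symm
  · intro h
    exact (pr_ne s).2 (congrArg Prod.snd h).symm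

lemma bt_zero_left {k : ℕ} (z : Sx k → ℂ) (j : Ix k) : bt z e0 j = 0 := by
  simp [bt, E_zero_left]

lemma bt_zero_right {k : ℕ} (z : Sx k → ℂ) (j : Ix k) : bt z j e0 = 0 := by
  simp [bt, E_zero_right]

/-- the slot of `e0` -/
def sl {k : ℕ} (σ : Equiv.Perm (Ix k)) : Fin (k + 1) := (σ.symm e0).1

lemma sl_ne {k : ℕ} {σ : Equiv.Perm (Ix k)} {b : Fin (k + 1)} (h : b ≠ sl σ) (c : Bool) :
    σ (b, c) ≠ e0 := by
  intro hc
  apply h
  rw [sl, ← hc, Equiv.symm_apply_apply]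

lemma sl_eq {k : ℕ} (σ : Equiv.Perm (Ix k)) :
    σ (sl σ, false) = e0 ∨ σ (sl σ, true) = e0 := by
  have h : σ (sl σ, (σ.symm e0).2) = e0 := by
    rw [sl, Prod.mk.eta, Equiv.apply_symm_apply]
  cases hc : (σ.symm e0).2
  · left; rwa [hc] at h
  · right; rwa [hc] at h

lemma W_sl {k : ℕ} {σ : Equiv.Perm (Ix k)} {b : Fin (k + 1)} (h : b ≠ sl σ) (p : Ix k) :
    W p (σ (b, false)) (σ (b, true)) = 0 := W_zero (sl_ne h _) (sl_ne h _)

lemma bt_sl {k : ℕ} (σ : Equiv.Perm (Ix k)) (z : Sx k → ℂ) :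
    bt z (σ (sl σ, false)) (σ (sl σ, true)) = 0 := by
  rcases sl_eq σ with h | h
  · rw [h, bt_zero_left]
  · rw [h, bt_zero_right]

/-- multilinearity for bilinear sums -/
lemma bil {A X Y : Type} [Fintype A] [Fintype X] [Fintype Y] (c : A → ℂ) (U : A → X → ℂ)
    (V : A → Y → ℂ) (s : X → ℂ) (t : Y → ℂ) :
    ∑ x, ∑ y, s x * t y * ∑ a, c a * (U a x * V a y) =
      ∑ a, c a * ((∑ x, s x * U a x) * (∑ y, t y * V a y)) := by
  calc ∑ x, ∑ y, s x * t y * ∑ a, c a * (U a x * V a y)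
      = ∑ x, ∑ y, ∑ a, c a * ((s x * U a x) * (t y * V a y)) := by
        refine Finset.sum_congr rfl fun x _ => Finset.sum_congr rfl fun y _ => ?_
        rw [Finset.mul_sum]
        exact Finset.sum_congr rfl fun a _ => by ring
    _ = ∑ x, ∑ a, ∑ y, c a * ((s x * U a x) * (t y * V a y)) := by
        refine Finset.sum_congr rfl fun x _ => ?_
        rw [Finset.sum_comm]
    _ = ∑ a, ∑ x, ∑ y, c a * ((s x * U a x) * (t y * V a y)) := Finset.sum_comm
    _ = _ := by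
        refine Finset.sum_congr rfl fun a _ => ?_
        rw [Finset.sum_mul_sum, Finset.mul_sum]
        exact Finset.sum_congr rfl fun x _ => by rw [Finset.mul_sum]

lemma conj_PP {B : Type} [Fintype B] [DecidableEq B] (h : B → B × Bool → B × Bool → ℂ) :
    conj (PP h) = PP (fun b i j => conj (h b i j)) := by
  unfold PP
  rw [map_sum]
  refine Finset.sum_congr rfl fun σ _ => ?_
  rw [map_mul, map_prod]
  congr 1
  unfold cs
  exact map_intCast (starRingEnd ℂ) _

/-- expansion of `PP` of sums, general slots -/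
lemma PP_sum {B S : Type} [Fintype B] [DecidableEq B] [Fintype S] [DecidableEq S] (x : S → ℂ)
    (h : S → B × Bool → B × Bool → ℂ) :
    ∑ a : B → S, PP (fun b => h (a b)) * ∏ b, x (a b) =
      PP (fun _ i j => ∑ s, x s * h s i j) := by
  unfold PP
  simp only [Finset.sum_mul]
  rw [Finset.sum_comm]
  refine Finset.sum_congr rfl fun σ _ => ?_
  rw [Finset.prod_univ_sum, Finset.mul_sum, Fintype.piFinset_univ]
  refine Finset.sum_congr rfl fun a _ => ?_
  rw [Finset.prod_mul_distrib]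
  ring

/-- the part of the matrices next to `e₀` -/
noncomputable def ww {k : ℕ} (γ : Ix k → ℂ) : Ix k → Ix k → ℂ := fun i j => ∑ p, γ p * W p i j

lemma ww_sl {k : ℕ} {σ : Equiv.Perm (Ix k)} {b : Fin (k + 1)} (h : b ≠ sl σ) (γ : Ix k → ℂ) :
    ww γ (σ (b, false)) (σ (b, true)) = 0 := by
  unfold ww
  exact Finset.sum_eq_zero fun p _ => by rw [W_sl h, mul_zero]

/-- `PP` with first slot `W p`; the others may be changed by multiples of `W` -/
lemma PP_cons_W {k : ℕ} (p : Ix k) (β : Fin k → Ix k → Ix k → ℂ) (γ : Fin k → Ix k → ℂ) :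
    PP (B := Fin (k + 1)) (Fin.cons (W p) (fun i s t => β i s t + ww (γ i) s t)) =
      PP (B := Fin (k + 1)) (Fin.cons (W p) β) := by
  unfold PP
  refine Finset.sum_congr rfl fun σ _ => ?_
  congr 1
  rw [Fin.prod_univ_succ, Fin.prod_univ_succ]
  simp only [Fin.cons_zero, Fin.cons_succ]
  by_cases h : (0 : Fin (k + 1)) = sl σ
  · congr 1
    refine Finset.prod_congr rfl fun i _ => ?_
    rw [ww_sl (by rw [← h]; exact Fin.succ_ne_zero i), add_zero]
  · rw [W_sl h, zero_mul, zero_mul]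

/-- the first slot is linear -/
lemma PP_cons_ww {k : ℕ} (γ : Ix k → ℂ) (β : Fin k → Ix k → Ix k → ℂ) :
    PP (B := Fin (k + 1)) (Fin.cons (ww γ) β) =
      ∑ p, γ p * PP (B := Fin (k + 1)) (Fin.cons (W p) β) := by
  unfold PP
  simp only [Finset.mul_sum]
  rw [Finset.sum_comm]
  refine Finset.sum_congr rfl fun σ _ => ?_
  simp only [Fin.prod_univ_succ, Fin.cons_zero, Fin.cons_succ]
  unfold ww
  rw [Finset.sum_mul, Finset.mul_sum]
  exact Finset.sum_congr rfl fun p _ => by ring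

/-- permutations fixing the slot `0` -/
lemma PP_cons_comp {k : ℕ} (w : Ix k → Ix k → ℂ) (β : Fin k → Ix k → Ix k → ℂ)
    (π : Equiv.Perm (Fin k)) :
    PP (B := Fin (k + 1)) (Fin.cons w (fun i => β (π i))) =
      PP (B := Fin (k + 1)) (Fin.cons w β) := by
  rw [← PP_comp (Fin.cons w β) (Equiv.Perm.decomposeFin.symm (0, π))]
  congr 1
  funext b
  refine Fin.cases ?_ (fun i => ?_) b
  · simp
  · simp

/-- the matrix with coordinates `ξ` -/
lemma hh_eq {k : ℕ} (L : Matrix (Sx k) (Sx k) ℂ) (g : Sx k → Ix k → ℂ) (a : Sx k) :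
    hh L g a = fun i j => bt (fun s => L s a) i j + ww (g a) i j := rfl

lemma sum_bt {k : ℕ} (L : Matrix (Sx k) (Sx k) ℂ) (ξ : Sx k → ℂ) (i j : Ix k) :
    ∑ a, ξ a * bt (fun s => L s a) i j = bt (L.mulVec ξ) i j := by
  unfold bt Matrix.mulVec dotProduct
  simp only [Finset.mul_sum, Finset.sum_mul]
  rw [Finset.sum_comm]
  exact Finset.sum_congr rfl fun s _ => Finset.sum_congr rfl fun a _ => by ring

lemma sum_hh {k : ℕ} (L : Matrix (Sx k) (Sx k) ℂ) (g : Sx k → Ix k → ℂ) (ξ : Sx k → ℂ)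
    (i j : Ix k) :
    ∑ a, ξ a * hh L g a i j =
      bt (L.mulVec ξ) i j + ww (fun p => ∑ a, ξ a * g a p) i j := by
  simp only [hh_eq, mul_add, Finset.sum_add_distrib, sum_bt]
  congr 1
  unfold ww
  simp only [Finset.mul_sum, Finset.sum_mul]
  rw [Finset.sum_comm]
  exact Finset.sum_congr rfl fun s _ => Finset.sum_congr rfl fun a _ => by ring

/-- moving the slot `b` to `0` -/
lemma PP_slot {k : ℕ} (w β : Ix k → Ix k → ℂ) (b : Fin (k + 1)) :
    PP (B := Fin (k + 1)) (fun b' => if b' = b then w else β) =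
      PP (B := Fin (k + 1)) (Fin.cons w (fun _ => β)) := by
  rw [← PP_comp (Fin.cons w (fun _ => β)) (Equiv.swap 0 b)]
  congr 1
  funext b'
  by_cases h : b' = b
  · rw [if_pos h, h, Equiv.swap_apply_right, Fin.cons_zero]
  · rw [if_neg h]
    obtain ⟨i, hi⟩ : ∃ i : Fin k, Equiv.swap 0 b b' = i.succ := by
      refine Fin.exists_succ_eq.2 ?_ |>.imp fun i hi => hi.symm
      intro h0
      apply h
      rw [Equiv.swap_apply_eq_iff, Equiv.swap_apply_left] at h0
      exact h0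
    rw [hi, Fin.cons_succ]

/-- the product over the slots with one special slot -/
lemma prod_slot {B : Type} [Fintype B] [DecidableEq B] (x y : B → ℂ) (b : B) :
    ∏ b', (if b' = b then x b' else y b') = x b * ∏ b' ∈ univ.erase b, y b' := by
  rw [← Finset.mul_prod_erase univ _ (Finset.mem_univ b), if_pos rfl]
  congr 1
  exact Finset.prod_congr rfl fun b' hb => by rw [if_neg (Finset.ne_of_mem_erase hb)]

/-- `PP` of `β + ww γ` in all slots -/
lemma PP_const {k : ℕ} (z : Sx k → ℂ) (γ : Ix k → ℂ) :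
    PP (B := Fin (k + 1)) (fun _ i j => bt z i j + ww γ i j) =
      (k + 1) * ∑ p, γ p * om (bt z) p := by
  have h1 : PP (B := Fin (k + 1)) (fun _ i j => bt z i j + ww γ i j) =
      ∑ b : Fin (k + 1), PP (B := Fin (k + 1)) (fun b' => if b' = b then ww γ else bt z) := by
    unfold PP
    rw [Finset.sum_comm]
    refine Finset.sum_congr rfl fun σ _ => ?_
    rw [prod_add_unique _ _ (sl σ) (fun b hb => ww_sl hb γ),
      Finset.prod_eq_zero (Finset.mem_univ (sl σ)) (bt_sl σ z), zero_add, Finset.mul_sum]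
    refine Finset.sum_congr rfl fun b _ => ?_
    congr 1
    rw [← prod_slot (fun b => ww γ (σ (b, false)) (σ (b, true)))
      (fun b => bt z (σ (b, false)) (σ (b, true)))]
    refine Finset.prod_congr rfl fun b' _ => ?_
    dsimp only
    split_ifs <;> rfl
  rw [h1, Finset.sum_congr rfl fun b _ => PP_slot (ww γ) (bt z) b, Finset.sum_const,
    Finset.card_univ, Fintype.card_fin, nsmul_eq_mul, PP_cons_ww]
  push_cast
  rfl

/-- moving the slot `b` to `0` -/
lemma GM_slot {k : ℕ} (w β : Ix k → Ix k → Ix k → Ix k → ℂ) (b : Fin (k + 1)) :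
    GM (B := Fin (k + 1)) (fun b' => if b' = b then w else β) =
      GM (B := Fin (k + 1)) (Fin.cons w (fun _ => β)) := by
  rw [← GM_comp (Fin.cons w (fun _ => β)) (Equiv.swap 0 b)]
  congr 1
  funext b'
  by_cases h : b' = b
  · rw [if_pos h, h, Equiv.swap_apply_right, Fin.cons_zero]
  · rw [if_neg h]
    obtain ⟨i, hi⟩ : ∃ i : Fin k, Equiv.swap 0 b b' = i.succ := by
      refine Fin.exists_succ_eq.2 ?_ |>.imp fun i hi => hi.symm
      intro h0
      apply h
      rw [Equiv.swap_apply_eq_iff, Equiv.swap_apply_left] at h0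
      exact h0
    rw [hi, Fin.cons_succ]

/-- the Gaussian part -/
noncomputable def RR {k : ℕ} (L : Matrix (Sx k) (Sx k) ℂ) (g : Sx k → Ix k → ℂ) :
    Ix k → Ix k → Ix k → Ix k → ℂ := fun i j i' j' =>
  ∑ a, hh L g a i j * conj (hh L g a i' j')

/-- the Schur complement part -/
noncomputable def SC {k : ℕ} (Γ : Matrix (Ix k) (Ix k) ℂ) :
    Ix k → Ix k → Ix k → Ix k → ℂ := fun i j i' j' =>
  ∑ p, ∑ q, Γ p q * W p i j * W q i' j'

lemma SC_sl {k : ℕ} {σ : Equiv.Perm (Ix k)} {b : Fin (k + 1)} (h : b ≠ sl σ)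
    (Γ : Matrix (Ix k) (Ix k) ℂ) (i' j' : Ix k) :
    SC Γ (σ (b, false)) (σ (b, true)) i' j' = 0 := by
  unfold SC
  refine Finset.sum_eq_zero fun p _ => Finset.sum_eq_zero fun q _ => ?_
  rw [W_sl h, mul_zero, zero_mul]

/-- `PP (W p, β_a)` -/
noncomputable def pc {k : ℕ} (L : Matrix (Sx k) (Sx k) ℂ) (p : Ix k) (a : Fin k → Sx k) : ℂ :=
  PP (B := Fin (k + 1)) (Fin.cons (W p) (fun i => bt (fun s => L s (a i))))

/-- `PP (h_a)` -/
noncomputable def ph {k : ℕ} (L : Matrix (Sx k) (Sx k) ℂ) (g : Sx k → Ix k → ℂ)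
    (a : Fin (k + 1) → Sx k) : ℂ :=
  PP (B := Fin (k + 1)) (fun b => hh L g (a b))

/-- the part without Schur complement -/
lemma part0 {k : ℕ} (L : Matrix (Sx k) (Sx k) ℂ) (g : Sx k → Ix k → ℂ) :
    GM (B := Fin (k + 1)) (fun _ => RR L g) = ∑ a, ph L g a * conj (ph L g a) := by
  unfold GM
  have h1 : ∀ σ τ : Equiv.Perm (Ix k),
      ∏ b : Fin (k + 1), RR L g (σ (b, false)) (σ (b, true)) (τ (b, false)) (τ (b, true)) =
      ∑ a : Fin (k + 1) → Sx k, (1 : ℂ) *
        ((∏ b, hh L g (a b) (σ (b, false)) (σ (b, true))) *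
          ∏ b, conj (hh L g (a b) (τ (b, false)) (τ (b, true)))) := by
    intro σ τ
    unfold RR
    rw [Finset.prod_univ_sum, Fintype.piFinset_univ]
    refine Finset.sum_congr rfl fun a _ => ?_
    rw [Finset.prod_mul_distrib, one_mul]
  simp only [h1]
  rw [bil]
  refine Finset.sum_congr rfl fun a _ => ?_
  rw [one_mul]
  unfold ph
  rw [conj_PP]
  rfl

lemma sum_triple {k : ℕ} (F : (Ix k × Ix k) × (Fin k → Sx k) → ℂ) :
    ∑ x, F x = ∑ p, ∑ q, ∑ a, F ((p, q), a) :=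
  (Fintype.sum_prod_type F).trans (Fintype.sum_prod_type _)

/-- the part with one Schur complement -/
lemma part1 {k : ℕ} (L : Matrix (Sx k) (Sx k) ℂ) (g : Sx k → Ix k → ℂ)
    (Γ : Matrix (Ix k) (Ix k) ℂ) :
    GM (B := Fin (k + 1)) (Fin.cons (SC Γ) (fun _ => RR L g)) =
      ∑ p, ∑ q, Γ p q * ∑ a, pc L p a * conj (pc L q a) := by
  have h1 : ∀ σ τ : Equiv.Perm (Ix k),
      ∏ b : Fin (k + 1), (Fin.cons (SC Γ) (fun _ => RR L g) :
          Fin (k + 1) → Ix k → Ix k → Ix k → Ix k → ℂ) b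
        (σ (b, false)) (σ (b, true)) (τ (b, false)) (τ (b, true)) =
      ∑ x : (Ix k × Ix k) × (Fin k → Sx k), Γ x.1.1 x.1.2 *
        ((∏ b : Fin (k + 1), (Fin.cons (W x.1.1) (fun i => hh L g (x.2 i)) :
            Fin (k + 1) → Ix k → Ix k → ℂ) b (σ (b, false)) (σ (b, true))) *
          ∏ b : Fin (k + 1), conj ((Fin.cons (W x.1.2) (fun i => hh L g (x.2 i)) :
            Fin (k + 1) → Ix k → Ix k → ℂ) b (τ (b, false)) (τ (b, true)))) := by
    intro σ τ
    rw [Fin.prod_univ_succ]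
    simp only [Fin.cons_zero, Fin.cons_succ]
    unfold RR SC
    rw [Finset.prod_univ_sum, Fintype.piFinset_univ, sum_triple, Finset.sum_mul]
    refine Finset.sum_congr rfl fun p _ => ?_
    rw [Finset.sum_mul]
    refine Finset.sum_congr rfl fun q _ => ?_
    rw [Finset.mul_sum]
    refine Finset.sum_congr rfl fun a _ => ?_
    rw [Fin.prod_univ_succ, Fin.prod_univ_succ]
    simp only [Fin.cons_zero, Fin.cons_succ, conj_W]
    rw [Finset.prod_mul_distrib]
    ring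
  unfold GM
  simp only [h1]
  rw [bil, sum_triple]
  refine Finset.sum_congr rfl fun p _ => Finset.sum_congr rfl fun q _ => ?_
  rw [Finset.mul_sum]
  refine Finset.sum_congr rfl fun a _ => ?_
  congr 1
  have h2 : ∀ p : Ix k, pc L p a =
      PP (B := Fin (k + 1)) (Fin.cons (W p) (fun i => hh L g (a i))) := by
    intro p
    unfold pc
    rw [← PP_cons_W p _ (fun i => g (a i))]
    rfl
  rw [h2, h2, conj_PP]
  rfl

theorem GG_expand {k : ℕ} (L : Matrix (Sx k) (Sx k) ℂ) (g : Sx k → Ix k → ℂ)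
    (Γ : Matrix (Ix k) (Ix k) ℂ) :
    GG (HH L g Γ) = ∑ a, ph L g a * conj (ph L g a) +
      (k + 1) * ∑ p, ∑ q, Γ p q * ∑ a, pc L p a * conj (pc L q a) := by
  have h1 : GG (HH L g Γ) = GM (B := Fin (k + 1)) (fun _ => RR L g) +
      ∑ b : Fin (k + 1),
        GM (B := Fin (k + 1)) (fun b' => if b' = b then SC Γ else RR L g) := by
    have h3 : ∑ b : Fin (k + 1),
        GM (B := Fin (k + 1)) (fun b' => if b' = b then SC Γ else RR L g) =
        ∑ σ : Equiv.Perm (Ix k), ∑ τ : Equiv.Perm (Ix k), ∑ b : Fin (k + 1), cs σ * cs τ *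
          ∏ b' : Fin (k + 1), (if b' = b then SC Γ else RR L g)
            (σ (b', false)) (σ (b', true)) (τ (b', false)) (τ (b', true)) := by
      unfold GM
      rw [Finset.sum_comm]
      refine Finset.sum_congr rfl fun σ _ => ?_
      rw [Finset.sum_comm]
    rw [h3]
    unfold GG GM
    rw [← Finset.sum_add_distrib]
    refine Finset.sum_congr rfl fun σ _ => ?_
    rw [← Finset.sum_add_distrib]
    refine Finset.sum_congr rfl fun τ _ => ?_
    have h2 : ∀ b : Fin (k + 1),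
        HH L g Γ (σ (b, false)) (σ (b, true)) (τ (b, false)) (τ (b, true)) =
        RR L g (σ (b, false)) (σ (b, true)) (τ (b, false)) (τ (b, true)) +
        SC Γ (σ (b, false)) (σ (b, true)) (τ (b, false)) (τ (b, true)) := fun b => rfl
    rw [Finset.prod_congr rfl fun b _ => h2 b,
      prod_add_unique _ _ (sl σ) (fun b hb => SC_sl hb Γ _ _), mul_add, Finset.mul_sum]
    congr 1
    refine Finset.sum_congr rfl fun b _ => ?_
    congr 1
    rw [← prod_slot (fun b => SC Γ (σ (b, false)) (σ (b, true)) (τ (b, false)) (τ (b, true)))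
      (fun b => RR L g (σ (b, false)) (σ (b, true)) (τ (b, false)) (τ (b, true)))]
    refine Finset.prod_congr rfl fun b' _ => ?_
    split_ifs <;> rfl
  rw [h1, Finset.sum_congr rfl fun b _ => GM_slot (SC Γ) (RR L g) b, Finset.sum_const,
    Finset.card_univ, Fintype.card_fin, nsmul_eq_mul, part1, part0]
  push_cast
  rfl

lemma ph_sym {k : ℕ} (L : Matrix (Sx k) (Sx k) ℂ) (g : Sx k → Ix k → ℂ)
    (π : Equiv.Perm (Fin (k + 1))) (a : Fin (k + 1) → Sx k) : ph L g (a ∘ π) = ph L g a :=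
  PP_comp (fun b => hh L g (a b)) π

lemma pc_sym {k : ℕ} (L : Matrix (Sx k) (Sx k) ℂ) (p : Ix k)
    (π : Equiv.Perm (Fin k)) (a : Fin k → Sx k) : pc L p (a ∘ π) = pc L p a :=
  PP_cons_comp (W p) (fun i => bt (fun s => L s (a i))) π

/-- the complex square root of the first part of the integrand -/
noncomputable def om0 {k : ℕ} (L : Matrix (Sx k) (Sx k) ℂ) (g : Sx k → Ix k → ℂ)
    (ξ : Sx k → ℂ) : ℂ := ∑ p, (∑ a, ξ a * g a p) * om (bt (L.mulVec ξ)) p

lemma ph_sum {k : ℕ} (L : Matrix (Sx k) (Sx k) ℂ) (g : Sx k → Ix k → ℂ) (ξ : Sx k → ℂ) :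
    ∑ a, ph L g a * ∏ i, ξ (a i) = (k + 1) * om0 L g ξ := by
  have h := PP_sum (B := Fin (k + 1)) ξ (hh L g)
  unfold ph
  rw [h]
  have h2 : (fun (_ : Fin (k + 1)) (i j : Ix k) => ∑ s, ξ s * hh L g s i j) =
      fun _ i j => bt (L.mulVec ξ) i j + ww (fun p => ∑ a, ξ a * g a p) i j := by
    funext _ i j
    exact sum_hh L g ξ i j
  rw [h2, PP_const]
  rfl

lemma pc_sum {k : ℕ} (L : Matrix (Sx k) (Sx k) ℂ) (p : Ix k) (ξ : Sx k → ℂ) :
    ∑ a, pc L p a * ∏ i, ξ (a i) = om (bt (L.mulVec ξ)) p := by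
  unfold pc om PP
  simp only [Finset.sum_mul]
  rw [Finset.sum_comm]
  refine Finset.sum_congr rfl fun σ _ => ?_
  simp only [Fin.prod_univ_succ, Fin.cons_zero, Fin.cons_succ, ← sum_bt]
  rw [Finset.prod_univ_sum, Fintype.piFinset_univ, Finset.mul_sum, Finset.mul_sum]
  refine Finset.sum_congr rfl fun a _ => ?_
  rw [Finset.prod_mul_distrib]
  ring

lemma int_poly {S : Type} [Fintype S] (P Q : MvPolynomial S ℂ) :
    Integrable (fun ξ : S → ℂ =>
      MvPolynomial.eval ξ P * conj (MvPolynomial.eval ξ Q) * (gw ξ : ℂ)) := by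
  obtain ⟨C1, n1, h1⟩ := Pool.Agent.TH643.J3412.poly_growth P
  obtain ⟨C2, n2, h2⟩ := Pool.Agent.TH643.J3412.poly_growth Q
  refine Pool.Agent.TH643.J3412.int_growth _ ?_ (C1 * C2) (n1 + n2) fun ξ => ?_
  · exact (MvPolynomial.continuous_eval P).mul
      (Complex.continuous_conj.comp (MvPolynomial.continuous_eval Q))
  · rw [norm_mul, RCLike.norm_conj]
    calc ‖MvPolynomial.eval ξ P‖ * ‖MvPolynomial.eval ξ Q‖
        ≤ (C1 * (1 + ∑ s, ‖ξ s‖ ^ 2) ^ n1) * (C2 * (1 + ∑ s, ‖ξ s‖ ^ 2) ^ n2) :=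
          mul_le_mul (h1 ξ) (h2 ξ) (norm_nonneg _) ((norm_nonneg _).trans (h1 ξ))
      _ = _ := by ring

lemma eval_sum {S : Type} [Fintype S] [DecidableEq S] {n : ℕ} (c : (Fin n → S) → ℂ)
    (ξ : S → ℂ) :
    ∑ a, c a * ∏ i, ξ (a i) = MvPolynomial.eval ξ
      (∑ a : Fin n → S, MvPolynomial.C (c a) * ∏ i, MvPolynomial.X (a i)) := by
  rw [map_sum]
  refine Finset.sum_congr rfl fun a _ => ?_
  rw [map_mul, MvPolynomial.eval_C, map_prod]
  congr 1
  exact Finset.prod_congr rfl fun i _ => by rw [MvPolynomial.eval_X]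

lemma int_sum {S : Type} [Fintype S] [DecidableEq S] {m n : ℕ} (c : (Fin m → S) → ℂ)
    (d : (Fin n → S) → ℂ) :
    Integrable (fun ξ : S → ℂ =>
      (∑ a, c a * ∏ i, ξ (a i)) * conj (∑ a, d a * ∏ i, ξ (a i)) * (gw ξ : ℂ)) := by
  simp only [eval_sum]
  exact int_poly _ _

lemma int_om {k : ℕ} (L : Matrix (Sx k) (Sx k) ℂ) (p q : Ix k) :
    Integrable (fun ξ : Sx k → ℂ =>
      om (bt (L.mulVec ξ)) p * conj (om (bt (L.mulVec ξ)) q) * (gw ξ : ℂ)) := by
  have h := int_sum (pc L p) (pc L q)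
  simp only [pc_sum] at h
  exact h

lemma int_om0 {k : ℕ} (L : Matrix (Sx k) (Sx k) ℂ) (g : Sx k → Ix k → ℂ) :
    Integrable (fun ξ : Sx k → ℂ => om0 L g ξ * conj (om0 L g ξ) * (gw ξ : ℂ)) := by
  have h := int_sum (ph L g) (ph L g)
  simp only [ph_sum] at h
  have h2 := h.const_mul (((k : ℂ) + 1) * (k + 1))⁻¹
  have hk : ((k : ℂ) + 1) ≠ 0 := by exact_mod_cast Nat.succ_ne_zero k
  refine h2.congr (Filter.Eventually.of_forall fun ξ => ?_)
  simp only [map_mul, map_add, Complex.conj_natCast, map_one]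
  field_simp

/-- the integral of the first part -/
lemma wick0 {k : ℕ} (L : Matrix (Sx k) (Sx k) ℂ) (g : Sx k → Ix k → ℂ) :
    (k.factorial : ℂ) * (Real.pi : ℂ) ^ Fintype.card (Sx k) * ∑ a, ph L g a * conj (ph L g a) =
      (k + 1) * ∫ ξ, om0 L g ξ * conj (om0 L g ξ) * (gw ξ : ℂ) := by
  have h := Pool.Agent.TH914.GVC.wick (k + 1) (ph L g) (ph L g) (ph_sym L g) (ph_sym L g)
  simp only [ph_sum] at h
  have hk : ((k : ℂ) + 1) ≠ 0 := by exact_mod_cast Nat.succ_ne_zero k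
  have h3 : ∫ ξ, (((k : ℂ) + 1) * om0 L g ξ) * conj (((k : ℂ) + 1) * om0 L g ξ) * (gw ξ : ℂ) =
      (((k : ℂ) + 1) * (k + 1)) * ∫ ξ, om0 L g ξ * conj (om0 L g ξ) * (gw ξ : ℂ) := by
    rw [← integral_const_mul]
    refine integral_congr_ae (Filter.Eventually.of_forall fun ξ => ?_)
    simp only [map_mul, map_add, Complex.conj_natCast, map_one]
    ring
  rw [h3, Nat.factorial_succ] at h
  push_cast at h
  apply mul_left_cancel₀ hk
  linear_combination -h

/-- the integral of the second part -/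
lemma wick1 {k : ℕ} (L : Matrix (Sx k) (Sx k) ℂ) (p q : Ix k) :
    (k.factorial : ℂ) * (Real.pi : ℂ) ^ Fintype.card (Sx k) * ∑ a, pc L p a * conj (pc L q a) =
      ∫ ξ, om (bt (L.mulVec ξ)) p * conj (om (bt (L.mulVec ξ)) q) * (gw ξ : ℂ) := by
  have h := Pool.Agent.TH914.GVC.wick k (pc L p) (pc L q) (pc_sym L p) (pc_sym L q)
  simp only [pc_sum] at h
  rw [h]
  ring

/-- the complex integrand -/
noncomputable def FC {k : ℕ} (L : Matrix (Sx k) (Sx k) ℂ) (g : Sx k → Ix k → ℂ)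
    (Γ : Matrix (Ix k) (Ix k) ℂ) (ξ : Sx k → ℂ) : ℂ :=
  om0 L g ξ * conj (om0 L g ξ) +
    ∑ p, ∑ q, Γ p q * om (bt (L.mulVec ξ)) p * conj (om (bt (L.mulVec ξ)) q)

lemma re_FC {k : ℕ} (L : Matrix (Sx k) (Sx k) ℂ) (g : Sx k → Ix k → ℂ)
    (Γ : Matrix (Ix k) (Ix k) ℂ) (ξ : Sx k → ℂ) : (FC L g Γ ξ).re = FF L g Γ ξ := by
  unfold FC FF
  rw [Complex.add_re, Complex.mul_conj, Complex.ofReal_re, Complex.normSq_eq_norm_sq]
  rfl

lemma FC_gw {k : ℕ} (L : Matrix (Sx k) (Sx k) ℂ) (g : Sx k → Ix k → ℂ)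
    (Γ : Matrix (Ix k) (Ix k) ℂ) (ξ : Sx k → ℂ) : FC L g Γ ξ * (gw ξ : ℂ) =
      om0 L g ξ * conj (om0 L g ξ) * (gw ξ : ℂ) + ∑ p, ∑ q, Γ p q *
        (om (bt (L.mulVec ξ)) p * conj (om (bt (L.mulVec ξ)) q) * (gw ξ : ℂ)) := by
  unfold FC
  rw [add_mul, Finset.sum_mul]
  congr 1
  refine Finset.sum_congr rfl fun p _ => ?_
  rw [Finset.sum_mul]
  exact Finset.sum_congr rfl fun q _ => by ring

lemma int_FC {k : ℕ} (L : Matrix (Sx k) (Sx k) ℂ) (g : Sx k → Ix k → ℂ)
    (Γ : Matrix (Ix k) (Ix k) ℂ) : Integrable (fun ξ => FC L g Γ ξ * (gw ξ : ℂ)) := by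
  simp only [FC_gw]
  exact (int_om0 L g).add (integrable_finsetSum _ fun p _ =>
    integrable_finsetSum _ fun q _ => (int_om L p q).const_mul _)

lemma integral_FC {k : ℕ} (L : Matrix (Sx k) (Sx k) ℂ) (g : Sx k → Ix k → ℂ)
    (Γ : Matrix (Ix k) (Ix k) ℂ) :
    (k.factorial : ℂ) * (Real.pi : ℂ) ^ Fintype.card (Sx k) * GG (HH L g Γ) =
      (k + 1) * ∫ ξ, FC L g Γ ξ * (gw ξ : ℂ) := by
  simp only [FC_gw]
  rw [integral_add (int_om0 L g) (integrable_finsetSum _ fun p _ =>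
    integrable_finsetSum _ fun q _ => (int_om L p q).const_mul _),
    integral_finsetSum _ (fun p _ => integrable_finsetSum _
      fun q _ => (int_om L p q).const_mul _), mul_add, ← wick0, GG_expand, mul_add]
  congr 1
  rw [mul_left_comm]
  congr 1
  rw [Finset.mul_sum]
  refine Finset.sum_congr rfl fun p _ => ?_
  rw [Finset.mul_sum, integral_finsetSum _ (fun q _ => (int_om L p q).const_mul _)]
  refine Finset.sum_congr rfl fun q _ => ?_
  rw [integral_const_mul, ← wick1]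
  ring

/-- J7: the double alternating sum as a Gaussian integral -/
theorem alg {k : ℕ} (L : Matrix (Sx k) (Sx k) ℂ) (g : Sx k → Ix k → ℂ)
    (Γ : Matrix (Ix k) (Ix k) ℂ) :
    Integrable (fun ξ => FF L g Γ ξ * gw ξ) ∧
    (k.factorial : ℝ) * Real.pi ^ Fintype.card (Sx k) * (GG (HH L g Γ)).re =
      (k + 1) * ∫ ξ, FF L g Γ ξ * gw ξ := by
  have hre : ∀ ξ, FF L g Γ ξ * gw ξ = RCLike.re (FC L g Γ ξ * (gw ξ : ℂ)) := fun ξ => by
    rw [← re_FC]
    exact (Complex.re_mul_ofReal _ _).symm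
  constructor
  · simp only [hre]
    exact (int_FC L g Γ).re
  · simp only [hre]
    rw [integral_re (int_FC L g Γ)]
    have h := congrArg Complex.re (integral_FC L g Γ)
    have e1 : (k.factorial : ℂ) * (Real.pi : ℂ) ^ Fintype.card (Sx k) =
        (((k.factorial : ℝ) * Real.pi ^ Fintype.card (Sx k) : ℝ) : ℂ) := by push_cast; rfl
    have e2 : ((k : ℂ) + 1) = (((k : ℝ) + 1 : ℝ) : ℂ) := by push_cast; rfl
    rw [e1, e2, Complex.re_ofReal_mul, Complex.re_ofReal_mul] at h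
    exact h

end Pool.Agent.TH991.J3417
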