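import Pool.Agent.TH83.DC.GDefs

/-!
Common refinement of two factorisations of a positive integer (job 2346).
-/

set_option autoImplicit false

namespace Pool.Agent.TH991.DC2346

open Finset
open scoped Classical

/-- a divisor of a product is a product of divisors of the factors -/
theorem dvd_prod_split {κ : Type} (s : Finset κ) (y : κ → ℕ) (a : ℕ) (h : a ∣ ∏ j ∈ s, y j) :
    ∃ m : κ → ℕ, (∀ j ∈ s, m j ∣ y j) ∧ ∏ j ∈ s, m j = a := by
  induction s using Finset.induction_on generalizing a with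
  | empty =>
    refine ⟨fun _ => 1, by simp, ?_⟩
    simp only [Finset.prod_empty] at h ⊢
    exact (Nat.dvd_one.mp h).symm
  | insert j₀ s hj ih =>
    rw [Finset.prod_insert hj] at h
    obtain ⟨a₁, a₂, h1, h2, rfl⟩ := exists_dvd_and_dvd_of_dvd_mul h
    obtain ⟨m, hm1, hm2⟩ := ih a₂ h2
    refine ⟨fun j => if j = j₀ then a₁ else m j, ?_, ?_⟩
    · intro j hjs
      rcases Finset.mem_insert.mp hjs with hjj | hjt
      · subst hjj; simpa using h1
      · have : j ≠ j₀ := fun e => hj (e ▸ hjt)
        simpa [this] using hm1 j hjt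
    · rw [Finset.prod_insert hj]
      simp only [if_true]
      congr 1
      rw [← hm2]
      apply Finset.prod_congr rfl
      intro j hjs
      have : j ≠ j₀ := by rintro rfl; exact hj hjs
      simp [this]

theorem refine_aux {ι κ : Type} [Fintype κ] (s : Finset ι) (x : ι → ℕ) :
    ∀ (y : κ → ℕ), (∀ i ∈ s, x i ≠ 0) → (∀ j, y j ≠ 0) → (∏ i ∈ s, x i = ∏ j, y j) →
    ∃ R : ι → κ → ℕ, (∀ i ∈ s, ∏ j, R i j = x i) ∧ ∀ j, ∏ i ∈ s, R i j = y j := by
  induction s using Finset.induction_on with
  | empty =>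
    intro y _ hy h
    refine ⟨fun _ _ => 1, by simp, ?_⟩
    intro j
    simp only [Finset.prod_empty] at h ⊢
    have : y j ∣ ∏ j, y j := Finset.dvd_prod_of_mem y (Finset.mem_univ j)
    rw [← h] at this
    exact (Nat.dvd_one.mp this).symm
  | insert i₀ s hi ih =>
    intro y hx hy h
    rw [Finset.prod_insert hi] at h
    obtain ⟨m, hm1, hm2⟩ := dvd_prod_split Finset.univ y (x i₀) (h ▸ Dvd.intro _ rfl)
    have hm0 : ∀ j, m j ≠ 0 := fun j h0 => by
      have := hm1 j (Finset.mem_univ j)
      rw [h0, zero_dvd_iff] at this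
      exact hy j this
    have hy' : ∀ j, y j / m j ≠ 0 := fun j => by
      have := Nat.div_pos (Nat.le_of_dvd (Nat.pos_of_ne_zero (hy j)) (hm1 j (Finset.mem_univ j)))
        (Nat.pos_of_ne_zero (hm0 j))
      omega
    have hprod : ∏ i ∈ s, x i = ∏ j, y j / m j := by
      have hx0 : x i₀ ≠ 0 := hx i₀ (Finset.mem_insert_self _ _)
      have e : x i₀ * ∏ i ∈ s, x i = x i₀ * ∏ j, y j / m j := by
        rw [h]
        nth_rewrite 1 [← hm2]
        rw [← Finset.prod_mul_distrib]
        apply Finset.prod_congr rfl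
        intro j _
        exact (Nat.mul_div_cancel' (hm1 j (Finset.mem_univ j))).symm
      exact Nat.eq_of_mul_eq_mul_left (Nat.pos_of_ne_zero hx0) e
    obtain ⟨R, hR1, hR2⟩ := ih (fun j => y j / m j)
      (fun i his => hx i (Finset.mem_insert_of_mem his)) hy' hprod
    refine ⟨fun i j => if i = i₀ then m j else R i j, ?_, ?_⟩
    · intro i his
      rcases Finset.mem_insert.mp his with hii | hit
      · subst hii; simpa using hm2
      · have : i ≠ i₀ := fun e => hi (e ▸ hit)
        simpa [this] using hR1 i hit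
    · intro j
      rw [Finset.prod_insert hi]
      simp only [if_true]
      have : ∏ i ∈ s, (if i = i₀ then m j else R i j) = ∏ i ∈ s, R i j := by
        apply Finset.prod_congr rfl
        intro i his
        have : i ≠ i₀ := by rintro rfl; exact hi his
        simp [this]
      rw [this, hR2 j]
      exact Nat.mul_div_cancel' (hm1 j (Finset.mem_univ j))

theorem refine_exists {ι κ : Type} [Fintype ι] [Fintype κ] (x : ι → ℕ) (y : κ → ℕ)
    (hx : ∀ i, x i ≠ 0) (hy : ∀ j, y j ≠ 0) (h : ∏ i, x i = ∏ j, y j) :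
    ∃ R : ι → κ → ℕ, (∀ i, ∏ j, R i j = x i) ∧ ∀ j, ∏ i, R i j = y j := by
  obtain ⟨R, h1, h2⟩ := refine_aux Finset.univ x y (fun i _ => hx i) hy h
  exact ⟨R, fun i => h1 i (Finset.mem_univ i), h2⟩

end Pool.Agent.TH991.DC2346
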