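import Pool.Agent.TH83.DC.SDefs

/-!
Entropies of residues, chain rule, dilates (job 2353).
-/

set_option autoImplicit false

namespace Pool.Agent.TH991.DC2353

open Finset
open Pool.Agent.TH83.DC
open Pool.Agent.TH83.SQ (cls dil)
open scoped Pointwise Classical

theorem mem_cls {Q : ℤ} {X : Finset ℤ} {t x : ℤ} : x ∈ cls Q X t ↔ x ∈ X ∧ Q ∣ x - t := by
  simp [cls]

theorem self_mem {Q : ℤ} {X : Finset ℤ} {x : ℤ} (hx : x ∈ X) : x ∈ cls Q X x := by
  simp [mem_cls, hx]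

theorem card_pos {Q : ℤ} {X : Finset ℤ} {x : ℤ} (hx : x ∈ X) : 0 < (cls Q X x).card :=
  Finset.card_pos.mpr ⟨x, self_mem hx⟩

theorem cls_eq {Q : ℤ} {X : Finset ℤ} {x x' : ℤ} (h : Q ∣ x' - x) : cls Q X x' = cls Q X x := by
  ext z
  simp only [mem_cls, and_congr_right_iff]
  intro _
  constructor
  · intro h2
    have := dvd_add h2 h
    simpa using this
  · intro h2
    have := dvd_sub h2 h
    simpa using this

theorem cls_sub {Q : ℤ} {X : Finset ℤ} {x : ℤ} : cls Q X x ⊆ X := Finset.filter_subset _ _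

theorem ent_nonneg (Q : ℤ) (X : Finset ℤ) : 0 ≤ ent Q X := by
  unfold ent
  apply div_nonneg _ (Nat.cast_nonneg _)
  apply Finset.sum_nonneg
  intro x hx
  apply Real.log_nonneg
  have h1 : (0 : ℝ) < (cls Q X x).card := by exact_mod_cast card_pos hx
  rw [le_div_iff₀ h1, one_mul]
  exact_mod_cast Finset.card_le_card cls_sub

theorem cls_one (X : Finset ℤ) (x : ℤ) : cls 1 X x = X := by
  ext z; simp [mem_cls]

theorem ent_one (X : Finset ℤ) : ent 1 X = 0 := by
  unfold ent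
  rw [Finset.sum_eq_zero, zero_div]
  intro x hx
  rw [cls_one]
  have : (X.card : ℝ) ≠ 0 := by
    have := Finset.card_pos.mpr ⟨x, hx⟩
    positivity
  rw [div_self this, Real.log_one]

theorem ent_le (Q : ℤ) (X : Finset ℤ) : ent Q X ≤ Real.log X.card := by
  rcases X.eq_empty_or_nonempty with rfl | hX
  · simp [ent]
  have hc : (0 : ℝ) < X.card := by exact_mod_cast Finset.card_pos.mpr hX
  unfold ent
  rw [div_le_iff₀ hc]
  have : ∑ x ∈ X, Real.log ((X.card : ℝ) / (cls Q X x).card) ≤ ∑ x ∈ X, Real.log (X.card : ℝ) := by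
    apply Finset.sum_le_sum
    intro x hx
    have h1 : (1 : ℝ) ≤ (cls Q X x).card := by exact_mod_cast card_pos hx
    apply Real.log_le_log (by positivity)
    exact div_le_self hc.le h1
  rw [Finset.sum_const, nsmul_eq_mul] at this
  linarith

theorem mem_comm {Q : ℤ} {X : Finset ℤ} {x x' : ℤ} (hx : x ∈ X) (hx' : x' ∈ X) :
    x' ∈ cls Q X x ↔ x ∈ cls Q X x' := by
  simp only [mem_cls, hx, hx', true_and]
  exact dvd_sub_comm

theorem sum_cls (Q : ℤ) (X : Finset ℤ) (f : ℤ → ℝ) :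
    ∑ x ∈ X, (∑ x' ∈ cls Q X x, f x') / (cls Q X x).card = ∑ x ∈ X, f x := by
  have h1 : ∀ x ∈ X, (∑ x' ∈ cls Q X x, f x') / (cls Q X x).card =
      ∑ x' ∈ X, if x' ∈ cls Q X x then f x' / (cls Q X x').card else 0 := by
    intro x hx
    rw [← Finset.sum_filter]
    have : X.filter (fun x' => x' ∈ cls Q X x) = cls Q X x := by
      ext z
      simp only [Finset.mem_filter]
      exact ⟨fun h => h.2, fun h => ⟨cls_sub h, h⟩⟩
    rw [this, Finset.sum_div]
    apply Finset.sum_congr rfl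
    intro x' hx'
    rw [cls_eq (mem_cls.mp hx').2]
  rw [Finset.sum_congr rfl h1, Finset.sum_comm]
  apply Finset.sum_congr rfl
  intro x' hx'
  have h2 : ∀ x ∈ X, (if x' ∈ cls Q X x then f x' / (cls Q X x').card else 0) =
      if x ∈ cls Q X x' then f x' / (cls Q X x').card else 0 := by
    intro x hx
    simp only [mem_comm hx hx']
  rw [Finset.sum_congr rfl h2, ← Finset.sum_filter]
  have : X.filter (fun x => x ∈ cls Q X x') = cls Q X x' := by
    ext z
    simp only [Finset.mem_filter]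
    exact ⟨fun h => h.2, fun h => ⟨cls_sub h, h⟩⟩
  rw [this, Finset.sum_const, nsmul_eq_mul]
  have hc : ((cls Q X x').card : ℝ) ≠ 0 := by
    have := card_pos (Q := Q) hx'
    positivity
  field_simp

theorem ent_eq (Q : ℤ) {X : Finset ℤ} :
    ent Q X = (∑ x ∈ X, (Real.log X.card - Real.log ((cls Q X x).card : ℝ))) / X.card := by
  unfold ent
  congr 1
  apply Finset.sum_congr rfl
  intro x hx
  have hc : (X.card : ℝ) ≠ 0 := by
    have := Finset.card_pos.mpr ⟨x, hx⟩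
    positivity
  have h1 : ((cls Q X x).card : ℝ) ≠ 0 := by
    have := card_pos (Q := Q) hx
    positivity
  rw [Real.log_div hc h1]

theorem mean_log_cls (Q : ℤ) {X : Finset ℤ} (hX : X.Nonempty) :
    (∑ x ∈ X, Real.log ((cls Q X x).card : ℝ)) / X.card = Real.log X.card - ent Q X := by
  have hc : (X.card : ℝ) ≠ 0 := by
    have := Finset.card_pos.mpr hX
    positivity
  rw [ent_eq, Finset.sum_sub_distrib, Finset.sum_const, nsmul_eq_mul]
  field_simp
  ring

theorem cls_cls {Q Q' : ℤ} (h : Q ∣ Q') {X : Finset ℤ} {x x' : ℤ} (hx' : x' ∈ cls Q X x) :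
    cls Q' (cls Q X x) x' = cls Q' X x' := by
  ext z
  simp only [mem_cls] at hx' ⊢
  constructor
  · rintro ⟨⟨h1, _⟩, h3⟩
    exact ⟨h1, h3⟩
  · rintro ⟨h1, h3⟩
    refine ⟨⟨h1, ?_⟩, h3⟩
    have := dvd_add (h.trans h3) hx'.2
    simpa using this

theorem ent_chain {Q Q' : ℤ} (h : Q ∣ Q') {X : Finset ℤ} (hX : X.Nonempty) :
    (∑ x ∈ X, ent Q' (cls Q X x)) / X.card = ent Q' X - ent Q X := by
  have hc : (X.card : ℝ) ≠ 0 := by
    have := Finset.card_pos.mpr hX
    positivity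
  have h1 : ∀ x ∈ X, ent Q' (cls Q X x) =
      (∑ x' ∈ cls Q X x, (Real.log ((cls Q X x').card : ℝ) - Real.log ((cls Q' X x').card : ℝ))) /
        (cls Q X x).card := by
    intro x hx
    rw [ent_eq]
    congr 1
    apply Finset.sum_congr rfl
    intro x' hx'
    rw [cls_cls h hx', cls_eq (mem_cls.mp hx').2]
  rw [Finset.sum_congr rfl h1, sum_cls, ent_eq, ent_eq, ← sub_div, ← Finset.sum_sub_distrib]
  congr 1
  apply Finset.sum_congr rfl
  intro x _
  ring

theorem ent_mono {Q Q' : ℤ} (h : Q ∣ Q') (X : Finset ℤ) : ent Q X ≤ ent Q' X := by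
  rcases X.eq_empty_or_nonempty with rfl | hX
  · simp [ent]
  have h1 := ent_chain h hX
  have h2 : 0 ≤ (∑ x ∈ X, ent Q' (cls Q X x)) / X.card :=
    div_nonneg (Finset.sum_nonneg fun x _ => ent_nonneg _ _) (Nat.cast_nonneg _)
  linarith

theorem cls_large {p : ℕ} (hp : 2 ≤ p) (X : Finset ℤ) :
    ∃ J₀ : ℕ, ∀ J, J₀ ≤ J → ∀ x ∈ X, cls ((p : ℤ) ^ J) X x = {x} := by
  -- a bound for all differences
  obtain ⟨M, hM⟩ : ∃ M : ℕ, ∀ x ∈ X, x.natAbs ≤ M :=
    ⟨X.sup Int.natAbs, fun x hx => Finset.le_sup (f := Int.natAbs) hx⟩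
  refine ⟨2 * M + 1, fun J hJ x hx => ?_⟩
  ext z
  simp only [mem_cls, Finset.mem_singleton]
  constructor
  · rintro ⟨hz, hd⟩
    by_contra hne
    have h0 : z - x ≠ 0 := sub_ne_zero.mpr hne
    have h1 := Int.natAbs_dvd_natAbs.mpr hd
    have h2 : ((p : ℤ) ^ J).natAbs = p ^ J := by
      rw [Int.natAbs_pow, Int.natAbs_natCast]
    rw [h2] at h1
    have h3 := Nat.le_of_dvd (Int.natAbs_pos.mpr h0) h1
    have h4 : (z - x).natAbs ≤ 2 * M := by
      have a1 := hM z hz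
      have a2 := hM x hx
      have := Int.natAbs_sub_le z x
      omega
    have h5 : J < p ^ J := lt_of_lt_of_le J.lt_two_pow_self (Nat.pow_le_pow_left hp J)
    omega
  · rintro rfl
    exact ⟨hx, by simp⟩

theorem dvd_key {p : ℕ} (hp : p.Prime) {d : ℤ} (hd : IsCoprime d (p : ℤ)) (i l : ℕ) (t : ℤ) :
    (p : ℤ) ^ l ∣ d * (p : ℤ) ^ i * t ↔ (p : ℤ) ^ (l - i) ∣ t := by
  have hp0 : (p : ℤ) ≠ 0 := by exact_mod_cast hp.ne_zero
  rcases le_or_gt l i with hl | hl
  · have e : l - i = 0 := by omega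
    rw [e, pow_zero]
    constructor
    · intro _; exact one_dvd _
    · intro _
      have : (p : ℤ) ^ l ∣ (p : ℤ) ^ i := pow_dvd_pow _ hl
      exact Dvd.dvd.mul_right (Dvd.dvd.mul_left this d) t
  · obtain ⟨k, rfl⟩ : ∃ k, l = i + k := ⟨l - i, by omega⟩
    have e0 : i + k - i = k := by omega
    rw [e0]
    have hc : IsCoprime ((p : ℤ) ^ k) d := (hd.symm).pow_left
    have e2 : d * (p : ℤ) ^ i * t = (p : ℤ) ^ i * (d * t) := by ring
    rw [pow_add, e2, mul_dvd_mul_iff_left (pow_ne_zero i hp0)]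
    constructor
    · intro h2
      exact hc.dvd_of_dvd_mul_left h2
    · intro h
      exact Dvd.dvd.mul_left h d

theorem coeff_ne {p : ℕ} (hp : p.Prime) {d : ℤ} (hd : IsCoprime d (p : ℤ)) (i : ℕ) :
    d * (p : ℤ) ^ i ≠ 0 := by
  have hp0 : (p : ℤ) ≠ 0 := by exact_mod_cast hp.ne_zero
  apply mul_ne_zero _ (pow_ne_zero i hp0)
  rintro rfl
  rw [isCoprime_zero_left] at hd
  have := Int.isUnit_iff.mp hd
  have h2 := hp.two_le
  omega

theorem cls_dil {p : ℕ} (hp : p.Prime) {d : ℤ} (hd : IsCoprime d (p : ℤ)) (i l : ℕ)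
    (X : Finset ℤ) (x : ℤ) :
    cls ((p : ℤ) ^ l) (dil (d * (p : ℤ) ^ i) X) (d * (p : ℤ) ^ i * x) =
      dil (d * (p : ℤ) ^ i) (cls ((p : ℤ) ^ (l - i)) X x) := by
  ext z
  simp only [mem_cls, dil, Finset.mem_image]
  constructor
  · rintro ⟨⟨y, hy, rfl⟩, h2⟩
    refine ⟨y, ⟨hy, ?_⟩, rfl⟩
    rw [← mul_sub] at h2
    exact (dvd_key hp hd i l _).mp h2
  · rintro ⟨y, ⟨hy, h2⟩, rfl⟩
    refine ⟨⟨y, hy, rfl⟩, ?_⟩
    rw [← mul_sub]
    exact (dvd_key hp hd i l _).mpr h2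

theorem ent_dil {p : ℕ} (hp : p.Prime) {d : ℤ} (hd : IsCoprime d (p : ℤ)) (hd0 : d ≠ 0)
    (i l : ℕ) (X : Finset ℤ) :
    ent ((p : ℤ) ^ l) (dil (d * (p : ℤ) ^ i) X) = ent ((p : ℤ) ^ (l - i)) X := by
  have hinj : Function.Injective (fun x : ℤ => d * (p : ℤ) ^ i * x) :=
    mul_right_injective₀ (coeff_ne hp hd i)
  have hcard : ∀ Y : Finset ℤ, (dil (d * (p : ℤ) ^ i) Y).card = Y.card := fun Y =>
    Finset.card_image_of_injective _ hinj
  unfold ent
  rw [hcard]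
  congr 1
  conv_lhs => unfold dil
  rw [Finset.sum_image (fun x _ y _ h => hinj h)]
  apply Finset.sum_congr rfl
  intro x _
  have := cls_dil hp hd i l X x
  unfold dil at this
  rw [this]
  have := hcard (cls ((p : ℤ) ^ (l - i)) X x)
  unfold dil at this
  rw [this]

end Pool.Agent.TH991.DC2353
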