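import Pool.Agent.TH991.Near

/-!
# MP_b4265e_pr: local connectivity of the infinite cluster
-/

set_option autoImplicit false

open Finset
open scoped Classical

namespace Pool.Agent.TH991

open Pool.Agent.W844.VG

variable {d : ℕ}

theorem join : S_JOIN := by
  intro d hd O c R m hch u v hu hv huR hvR
  by_contra hnot
  set K : Set (V d) := {x | JoinIn O c R u x} with hK
  have huK : u ∈ K := Relation.ReflTransGen.refl
  have hKball : ∀ x ∈ K, nm (x - c) ≤ R := by
    intro x hx
    rcases Relation.ReflTransGen.cases_tail hx with h | ⟨y, -, hy⟩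
    · subst h; omega
    · exact hy.2.2
  have hKfin : K.Finite := (finite_ball c R).subset hKball
  have hne : ind K u ≠ ind K v := by
    have hvK : v ∉ K := hnot
    simp [ind, huK, hvK]
  obtain ⟨g, h1, h2, h3⟩ := cut d (ind K) u v (bd_ind_finite hKfin) hne
  have hclosed : ∀ e ∈ bd g, nm (e.1 - c) ≤ R → nm (e.1 + stp e.2 - c) ≤ R → e ∉ O := by
    intro e he ha hb heO
    have h4 := mem_bd_ind.mp (h1 he)
    apply h4
    constructor
    · intro h
      exact Relation.ReflTransGen.tail h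
        ⟨(gr_adj_step (i := e.2) (x := e.1) heO).symm, hb, ha⟩
    · intro h
      exact Relation.ReflTransGen.tail h ⟨gr_adj_step (i := e.2) (x := e.1) heO, ha, hb⟩
  have hclosed' : ∀ e ∈ bd g, nm (e.1 - c) + 1 ≤ R → e ∉ O := by
    intro e he ha
    refine hclosed e he (by omega) ?_
    have : e.1 + stp e.2 - c = (e.1 - c) + stp e.2 := by abel
    rw [this]
    exact (nm_add_stp_le _ _).trans ha
  -- an edge of the cut in the inner ball
  obtain ⟨e, heg, heR⟩ : ∃ e ∈ bd g, nm (e.1 - c) ≤ R - m - 2 := by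
    by_contra hno
    push Not at hno
    refine h2 (box_conn d (ZMod 2) g c (R - m - 2) (fun x i ha _ => ?_) u v (by omega) (by omega))
    by_contra hx
    have := hno (x, i) (mem_bd.mpr hx)
    simp only at this
    omega
  -- an edge of the cut far away
  obtain ⟨f, hfg, hfR⟩ : ∃ f ∈ bd g, R ≤ nm (f.1 - c) := by
    by_contra hno
    push Not at hno
    have hcl : ∀ e ∈ bd g, e ∉ O := fun e he => hclosed' e he (hno e he)
    obtain ⟨r, hr⟩ := finite_bound ((bd_ind_finite hKfin).subset h1)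
    have hfar : ∀ w ∈ InfV O, ∃ y, r < nm y ∧ g y = g w := by
      intro w hw
      by_contra hno2
      push Not at hno2
      apply hw
      refine (finite_ball (0 : V d) r).subset fun y hy => ?_
      have hgy : g y = g w := const_reach hcl hy
      show nm (y - 0) ≤ r
      rw [sub_zero]
      by_contra hlt
      exact hno2 y (by omega) hgy
    obtain ⟨y, hy, hgy⟩ := hfar u hu
    obtain ⟨z, hz, hgz⟩ := hfar v hv
    apply h2
    rw [← hgy, ← hgz]
    exact far_const hd hr hy hz
  have hm : m ≤ nm (f.1 - e.1) := by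
    have := nm_tri f.1 e.1 c
    omega
  obtain ⟨p, hp0, hp1, hp2, hp3⟩ := simple_path h3 heg hfg hm
  refine hch e (by omega) ⟨p, hp0, fun k hk => ?_, hp2, hp3⟩
  refine hclosed' _ (hp1 k hk) ?_
  have hd' : ∀ k, k ≤ m → nm ((p k).1 - c) ≤ nm (e.1 - c) + k := by
    intro k
    induction k with
    | zero => intro _; rw [hp0]; omega
    | succ k ih =>
      intro hk
      have h4 := ih (by omega)
      have h5 := hp2 k (by omega)
      have h6 := nm_tri (p (k + 1)).1 (p k).1 c
      omega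
  have := hd' k hk
  omega

lemma two_pow_ge (c : ℕ) : ∃ T : ℕ, ∀ t, T ≤ t → c * (t + 1) + 2 ≤ 2 ^ t := by
  refine ⟨3 * (c + 2), fun t ht => ?_⟩
  induction t, ht using Nat.le_induction with
  | base =>
    have h1 : c + 3 ≤ 2 ^ (c + 2) := Nat.lt_two_pow_self
    have h2 : 2 ^ (3 * (c + 2)) = (2 ^ (c + 2)) ^ 3 := by rw [← pow_mul]; ring_nf
    rw [h2]
    have h3 : (c + 3) ^ 3 ≤ (2 ^ (c + 2)) ^ 3 := Nat.pow_le_pow_left h1 3
    refine le_trans ?_ h3
    nlinarith [Nat.zero_le c, Nat.zero_le (c ^ 2), Nat.zero_le (c ^ 3)]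
  | succ t ht ih =>
    rw [pow_succ]
    nlinarith [Nat.zero_le (c * t)]

lemma log_bound (c : ℕ) : ∃ K : ℕ, 1 ≤ K ∧ ∀ k, K ≤ k → c * (Nat.log 2 (k + 2) + 1) ≤ k := by
  obtain ⟨T, hT⟩ := two_pow_ge c
  refine ⟨c * (T + 1) + 1, by omega, fun k hk => ?_⟩
  by_cases h : T ≤ Nat.log 2 (k + 2)
  · have h1 := hT _ h
    have h2 : 2 ^ Nat.log 2 (k + 2) ≤ k + 2 := Nat.pow_log_le_self 2 (by omega)
    omega
  · push Not at h
    have : c * (Nat.log 2 (k + 2) + 1) ≤ c * (T + 1) := Nat.mul_le_mul_left c (by omega)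
    omega

lemma log_mul_le (a b : ℕ) (ha : 1 ≤ a) (hb : 1 ≤ b) :
    Nat.log 2 (a * b) ≤ Nat.log 2 a + Nat.log 2 b + 1 := by
  have h1 : a < 2 ^ (Nat.log 2 a + 1) := Nat.lt_pow_succ_log_self (by norm_num) a
  have h2 : b < 2 ^ (Nat.log 2 b + 1) := Nat.lt_pow_succ_log_self (by norm_num) b
  have h3 : a * b < 2 ^ (Nat.log 2 a + Nat.log 2 b + 2) := by
    have : 2 ^ (Nat.log 2 a + Nat.log 2 b + 2) =
        2 ^ (Nat.log 2 a + 1) * 2 ^ (Nat.log 2 b + 1) := by rw [← pow_add]; ring_nf
    rw [this]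
    exact Nat.mul_lt_mul'' h1 h2
  have := Nat.log_lt_of_lt_pow (by positivity) h3
  omega

theorem loc : S_LOC := by
  intro d hd O hgood
  obtain ⟨N0, hN0⟩ := hgood
  obtain ⟨K1, hK1, hK1'⟩ := log_bound (4 * (d + 2))
  -- choose a
  set a := N0 + K1 + 4 * (d + 2) with ha
  obtain ⟨K2, hK2, hK2'⟩ := log_bound (16 * (d + 2))
  set b := N0 + K2 + 2 * (3 * a + 8) with hb
  refine ⟨a, b, by omega, fun v => ?_, fun v x y hx hy hxv hyv => ?_⟩
  · by_contra hno
    push Not at hno
    have hL : ∀ x, nm (x - v) ≤ a * ell v → x ∉ InfV O := by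
      intro x hx hxI
      have := hno x hxI
      omega
    obtain ⟨k, hk, hchain⟩ := near d hd O v (a * ell v) ⟨0, by omega⟩ hL
    have hell := one_le_ell v
    have hak : a ≤ k := (Nat.le_mul_of_pos_right a hell).trans hk
    refine hN0 (nm v + k) (by omega) (v + (k : ℤ) • stp ⟨0, by omega⟩, ⟨0, by omega⟩) ?_ ?_
    · have h1 := nm_add_le v ((k : ℤ) • stp (⟨0, by omega⟩ : Fin d))
      rw [nm_zsmul_stp] at h1
      simpa using h1
    · refine hchain.mono ?_ le_rfl
      -- lg d (nm v + k) ≤ k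
      unfold lg
      have h1 : Nat.log 2 (nm v + k + 2) ≤ ell v + Nat.log 2 (k + 2) + 1 := by
        calc Nat.log 2 (nm v + k + 2) ≤ Nat.log 2 ((nm v + 2) * (k + 2)) :=
              Nat.log_mono_right (by nlinarith)
          _ ≤ _ := log_mul_le _ _ (by omega) (by omega)
      have h2 := hK1' k (by omega)
      have h3 : 4 * (d + 2) * ell v ≤ k :=
        (Nat.mul_le_mul_right _ (by omega : 4 * (d + 2) ≤ a)).trans hk
      have h4 : (d + 2) * Nat.log 2 (nm v + k + 2) ≤
          (d + 2) * (ell v + Nat.log 2 (k + 2) + 1) := Nat.mul_le_mul_left _ h1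
      nlinarith
  · have hell := one_le_ell v
    set R := b * ell v with hR
    have hbR : b ≤ R := Nat.le_mul_of_pos_right b hell
    set n := nm v + R with hn
    have hlg : 2 * lg d n ≤ (K2 + N0 + b) * ell v ∧ 2 * (2 * lg d n) ≤ b * ell v := by
      have h1 : Nat.log 2 (n + 2) ≤ ell v + Nat.log 2 (R + 2) + 1 := by
        calc Nat.log 2 (n + 2) ≤ Nat.log 2 ((nm v + 2) * (R + 2)) :=
              Nat.log_mono_right (by rw [hn]; nlinarith)
          _ ≤ _ := log_mul_le _ _ (by omega) (by omega)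
      have h2 : Nat.log 2 (R + 2) ≤ Nat.log 2 (b + 2) + Nat.log 2 (ell v) + 1 := by
        calc Nat.log 2 (R + 2) ≤ Nat.log 2 ((b + 2) * ell v) :=
              Nat.log_mono_right (by rw [hR]; nlinarith)
          _ ≤ _ := log_mul_le _ _ (by omega) (by omega)
      have h3 : Nat.log 2 (ell v) ≤ ell v := Nat.log_le_self 2 _
      have h4 := hK2' b (by omega)
      have h5 : lg d n ≤ (d + 2) * (4 * ell v * (Nat.log 2 (b + 2) + 1)) := by
        unfold lg
        refine Nat.mul_le_mul_left _ ?_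
        have h6 : Nat.log 2 (n + 2) ≤ 2 * ell v + Nat.log 2 (b + 2) + 2 := by omega
        nlinarith [Nat.zero_le (Nat.log 2 (b + 2)), Nat.zero_le (ell v * Nat.log 2 (b + 2))]
      have h6 : 4 * lg d n ≤ b * ell v := by
        calc 4 * lg d n ≤ 4 * ((d + 2) * (4 * ell v * (Nat.log 2 (b + 2) + 1))) := by omega
          _ = (16 * (d + 2) * (Nat.log 2 (b + 2) + 1)) * ell v := by ring
          _ ≤ b * ell v := Nat.mul_le_mul_right _ h4
      constructor
      · nlinarith [Nat.zero_le ((K2 + N0) * ell v)]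
      · omega
    have h8 : 2 * (3 * a * ell v + 8) ≤ b * ell v := by
      have : 2 * (3 * a + 8) * ell v ≤ b * ell v := Nat.mul_le_mul_right _ (by omega)
      nlinarith
    refine join d hd O v R (lg d n) (fun e he => ?_) x y hx hy ?_ ?_
    · refine hN0 n (by omega) e ?_
      have := nm_le_add e.1 v
      omega
    · omega
    · omega

end Pool.Agent.TH991
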