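import Pool.Agent.TH991.Iso
import Pool.Agent.TH991.Loc

/-!
# MP_b4265e_pr: anchored isoperimetric inequality in the cluster
-/

set_option autoImplicit false

open Finset
open scoped Classical

namespace Pool.Agent.TH991

open Pool.Agent.W844.VG

variable {d : ℕ}

/-- the neighbour of `x` in direction `t` -/
def nb (x : V d) (t : Fin d × Bool) : V d := if t.2 then x + stp t.1 else x - stp t.1

/-- the edge from `x` to `nb x t` -/
def ed (x : V d) (t : Fin d × Bool) : E d := if t.2 then (x, t.1) else (x - stp t.1, t.1)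

/-- opposite direction -/
def opp (t : Fin d × Bool) : Fin d × Bool := (t.1, !t.2)

lemma nb_nb (x : V d) (t : Fin d × Bool) : nb (nb x t) (opp t) = x := by
  obtain ⟨i, b⟩ := t; cases b <;> simp [nb, opp]

lemma ed_opp (x : V d) (t : Fin d × Bool) : ed (nb x t) (opp t) = ed x t := by
  obtain ⟨i, b⟩ := t; cases b <;> simp [nb, ed, opp]

lemma opp_opp (t : Fin d × Bool) : opp (opp t) = t := by
  obtain ⟨i, b⟩ := t; simp [opp]

lemma adj_iff {O : Set (E d)} {x y : V d} : (gr O).Adj x y ↔ ∃ t, y = nb x t ∧ ed x t ∈ O := by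
  constructor
  · rintro ⟨i, ⟨h1, h2⟩ | ⟨h1, h2⟩⟩
    · exact ⟨(i, true), by simp [nb, h1], by simpa [ed] using h2⟩
    · refine ⟨(i, false), by simp [nb, h1], ?_⟩
      have : x - stp i = y := by rw [h1]; simp
      simpa [ed, this] using h2
  · rintro ⟨⟨i, b⟩, h1, h2⟩
    cases b
    · refine ⟨i, Or.inr ⟨by simp [h1, nb], ?_⟩⟩
      simpa [h1, nb, ed] using h2
    · exact ⟨i, Or.inl ⟨by simpa [nb] using h1, by simpa [ed] using h2⟩⟩

/-- open boundary of a finite set -/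
noncomputable def BB (O : Set (E d)) (W : Finset (V d)) : Finset (V d × (Fin d × Bool)) :=
  (W ×ˢ univ).filter fun q => ed q.1 q.2 ∈ O ∧ nb q.1 q.2 ∉ W

lemma mem_BB {O : Set (E d)} {W : Finset (V d)} {x : V d} {t : Fin d × Bool} :
    (x, t) ∈ BB O W ↔ x ∈ W ∧ ed x t ∈ O ∧ nb x t ∉ W := by
  simp [BB]

/-- steps inside `W` -/
def stepW (O : Set (E d)) (W : Finset (V d)) (a b : V d) : Prop :=
  (gr O).Adj a b ∧ a ∈ W ∧ b ∈ W

/-- `W` is connected -/
def ConnW (O : Set (E d)) (W : Finset (V d)) (o : V d) : Prop :=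
  ∀ x ∈ W, Relation.ReflTransGen (stepW O W) o x

lemma JoinIn.symm' {O : Set (E d)} {c : V d} {r : ℕ} {x y : V d} (h : JoinIn O c r x y) :
    JoinIn O c r y x := by
  induction h with
  | refl => exact Relation.ReflTransGen.refl
  | tail _ h2 ih =>
    exact Relation.ReflTransGen.head ⟨h2.1.symm, h2.2.2, h2.2.1⟩ ih

lemma crossing {O : Set (E d)} {c : V d} {r : ℕ} {x y : V d} {W : Finset (V d)}
    (h : JoinIn O c r x y) (hx : x ∈ W) (hy : y ∉ W) : ∃ q ∈ BB O W, nm (q.1 - c) ≤ r := by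
  induction h with
  | refl => exact absurd hx hy
  | @tail a b _ h2 ih =>
    by_cases ha : a ∈ W
    · obtain ⟨t, ht1, ht2⟩ := adj_iff.mp h2.1
      exact ⟨(a, t), mem_BB.mpr ⟨ha, ht2, ht1 ▸ hy⟩, h2.2.1⟩
    · exact ih ha

lemma crossing' {O : Set (E d)} {c : V d} {r : ℕ} {x y : V d} {W : Finset (V d)}
    (h : JoinIn O c r x y) (hxy : ¬ (x ∈ W ↔ y ∈ W)) : ∃ q ∈ BB O W, nm (q.1 - c) ≤ r := by
  by_cases hx : x ∈ W
  · exact crossing h hx fun hy => hxy ⟨fun _ => hy, fun _ => hx⟩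
  · have hy : y ∈ W := by by_contra hy; exact hxy ⟨fun a => absurd a hx, fun a => absurd a hy⟩
    exact crossing (JoinIn.symm' h) hy hx

lemma radius_lt {O : Set (E d)} {W : Finset (V d)} {o : V d} (ho : o ∈ W) (hW : ConnW O W o)
    {x : V d} (hx : x ∈ W) : nm (x - o) + 1 ≤ W.card := by
  have key : ∀ y, Relation.ReflTransGen (stepW O W) o y → ∀ k, k ≤ nm (y - o) →
      ∃ z ∈ W, nm (z - o) = k := by
    intro y hy
    induction hy with
    | refl => intro k hk; refine ⟨o, ho, ?_⟩; simp at hk ⊢; omega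
    | @tail a b _ h2 ih =>
      intro k hk
      by_cases h : k ≤ nm (a - o)
      · exact ih k h
      · refine ⟨b, h2.2.2, ?_⟩
        have h3 := nm_tri b a o
        have h4 := nm_adj h2.1
        omega
  have h := key x (hW x hx)
  choose! f hf1 hf2 using h
  have : (range (nm (x - o) + 1)).card ≤ W.card := by
    refine card_le_card_of_injOn f (fun k hk => ?_) (fun k hk l hl hkl => ?_)
    · have : k < nm (x - o) + 1 := mem_range.mp (mem_coe.mp hk)
      exact hf1 k (by omega)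
    · have h1 : k < nm (x - o) + 1 := mem_range.mp (mem_coe.mp hk)
      have h2 : l < nm (x - o) + 1 := mem_range.mp (mem_coe.mp hl)
      rw [← hf2 k (by omega), ← hf2 l (by omega), hkl]
  simpa using this

lemma log_lin (a : ℕ) : ∃ K : ℕ, ∀ N : ℕ, 2 * (a * Nat.log 2 (N + 2)) ≤ N + K := by
  obtain ⟨K, _, hK⟩ := log_bound (2 * a)
  refine ⟨2 * a * Nat.log 2 (K + 2), fun N => ?_⟩
  by_cases h : K ≤ N
  · have := hK N h
    nlinarith
  · have : Nat.log 2 (N + 2) ≤ Nat.log 2 (K + 2) := Nat.log_mono_right (by omega)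
    nlinarith

lemma pow_le_two_pow (m : ℕ) : ∃ C : ℕ, 1 ≤ C ∧ ∀ J : ℕ, (J + 1) ^ m ≤ C * 2 ^ J := by
  have h := tendsto_pow_const_div_const_pow_of_one_lt m (one_lt_two : (1 : ℝ) < 2)
  obtain ⟨C, hC⟩ := h.bddAbove_range
  obtain ⟨n, hn⟩ := exists_nat_ge (2 * C)
  refine ⟨n + 1, by omega, fun J => ?_⟩
  have h1 : ((J + 1 : ℕ) : ℝ) ^ m / 2 ^ (J + 1) ≤ C := hC ⟨J + 1, rfl⟩
  rw [div_le_iff₀ (by positivity)] at h1
  have h2 : (((J + 1) ^ m : ℕ) : ℝ) ≤ (((n + 1) * 2 ^ J : ℕ) : ℝ) := by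
    push_cast at h1 ⊢
    have h3 : (0 : ℝ) < 2 ^ J := by positivity
    calc ((J : ℝ) + 1) ^ m ≤ C * 2 ^ (J + 1) := h1
      _ = 2 * C * 2 ^ J := by ring
      _ ≤ (n + 1) * 2 ^ J := by nlinarith
  exact_mod_cast h2

/-- anchored isoperimetric inequality -/
theorem anch (hd : 3 ≤ d) {O : Set (E d)} (hloc : Loc O) (o : V d) :
    ∃ c : ℝ, 0 < c ∧ c ≤ 1 ∧ ∀ (j : ℕ) (W : Finset (V d)), (∀ x ∈ W, x ∈ InfV O) → o ∈ W →
      ConnW O W o → 32 ^ j ≤ W.card → c * 8 ^ j ≤ ((BB O W).card : ℝ) := by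
  obtain ⟨a, b, ha, hdense, hJ⟩ := hloc
  choose ψ hψ1 hψ2 using hdense
  set φ : V d → V d := fun v => if v ∈ InfV O then v else ψ v with hφ
  have hφI : ∀ v, φ v ∈ InfV O := by
    intro v; simp only [hφ]; split_ifs with h
    · exact h
    · exact hψ1 v
  have hφd : ∀ v, nm (φ v - v) ≤ a * ell v := by
    intro v; simp only [hφ]; split_ifs with h
    · simp
    · exact hψ2 v
  have hφid : ∀ v, v ∈ InfV O → φ v = v := fun v hv => by simp [hφ, hv]
  obtain ⟨K3, hK3⟩ := log_lin a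
  -- constants
  obtain ⟨C1, hC1, hC1'⟩ := pow_le_two_pow (3 * d)
  set Q := Nat.log 2 (2 * nm o + K3 + 5) + 8 with hQ
  set K5 := (2 * b * Q + 1) ^ d * d with hK5
  set cc : ℝ := 1 / ((K5 : ℝ) ^ 3 * C1 + 1) with hcc
  have hccpos : 0 < cc := by positivity
  have hcc1 : cc ≤ 1 := by
    rw [hcc, div_le_one (by positivity)]
    have : (0 : ℝ) ≤ (K5 : ℝ) ^ 3 * C1 := by positivity
    linarith
  refine ⟨cc, hccpos, hcc1, fun j W hWI hoW hconn hj => ?_⟩
  set n := W.card with hn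
  have hn1 : 1 ≤ n := card_pos.mpr ⟨o, hoW⟩
  set J := Nat.log 32 n with hJdef
  have hJ1 : 32 ^ J ≤ n := Nat.pow_log_le_self 32 (by omega)
  have hJ2 : n < 32 ^ (J + 1) := Nat.lt_pow_succ_log_self (by norm_num) n
  have hjJ : j ≤ J := Nat.le_log_of_pow_le (by norm_num) hj
  set M := nm o + n with hM
  -- the thickened set
  set S : Set (V d) := {v | φ v ∈ W} with hS
  have hSnm : ∀ v ∈ S, nm v ≤ 2 * M + K3 := by
    intro v hv
    have h1 := radius_lt hoW hconn (x := φ v) hv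
    have h2 := hφd v
    have h3 := nm_le_add (φ v) o
    have h4 := nm_le_add v (φ v)
    rw [nm_sub_comm v (φ v)] at h4
    have h5 := hK3 (nm v)
    have h6 : ell v = Nat.log 2 (nm v + 2) := rfl
    rw [h6] at h2
    omega
  have hSfin : S.Finite := by
    refine (finite_ball (0 : V d) (2 * M + K3)).subset fun v hv => ?_
    have := hSnm v hv
    simpa using this
  set L := Nat.log 2 (2 * M + K3 + 3) with hL
  -- bound for L
  have hLQ : L ≤ Q * (J + 1) := by
    have h1 : 2 * M + K3 + 3 ≤ (2 * nm o + K3 + 5) * 2 ^ (5 * (J + 1)) := by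
      have h2 : (2 : ℕ) ^ (5 * (J + 1)) = 32 ^ (J + 1) := by rw [pow_mul]; norm_num
      rw [h2]
      have h3 : 1 ≤ 32 ^ (J + 1) := Nat.one_le_pow _ _ (by norm_num)
      nlinarith [Nat.zero_le (nm o), Nat.zero_le K3]
    have h2 : L ≤ Nat.log 2 (2 * nm o + K3 + 5) + 5 * (J + 1) + 1 := by
      calc L ≤ Nat.log 2 ((2 * nm o + K3 + 5) * 2 ^ (5 * (J + 1))) := Nat.log_mono_right h1
        _ ≤ _ := by
          refine (log_mul_le _ _ (by omega) (Nat.one_le_pow _ _ (by norm_num))).trans ?_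
          rw [Nat.log_pow (by norm_num)]
    nlinarith [Nat.zero_le (Nat.log 2 (2 * nm o + K3 + 5) * J)]
  -- counting
  have hbfin := bd_ind_finite hSfin
  set D := hbfin.toFinset with hD
  have hmap : ∀ e ∈ D, ∃ q ∈ BB O W, nm (q.1 - e.1) ≤ b * L := by
    intro e he
    rw [hD, Set.Finite.mem_toFinset] at he
    have h1 := mem_bd_ind.mp he
    have hell : ell e.1 ≤ L := by
      have h2 : nm e.1 ≤ 2 * M + K3 + 1 := by
        by_cases h : e.1 ∈ S
        · have := hSnm _ h; omega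
        · have h' : e.1 + stp e.2 ∈ S := by
            by_contra h'; exact h1 ⟨fun x => absurd x h', fun x => absurd x h⟩
          have h3 := hSnm _ h'
          have h4 := le_nm_add_stp e.1 e.2
          omega
      exact Nat.log_mono_right (by omega)
    have h3 : JoinIn O e.1 (b * ell e.1) (φ e.1) (φ (e.1 + stp e.2)) := by
      refine hJ e.1 _ _ (hφI _) (hφI _) ?_ ?_
      · have := hφd e.1
        nlinarith [Nat.zero_le (a * ell e.1)]
      · have h4 := hφd (e.1 + stp e.2)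
        have h5 := ell_add_stp_le e.1 e.2
        have h6 : a * ell (e.1 + stp e.2) ≤ a * (ell e.1 + 1) := Nat.mul_le_mul_left _ h5
        have h7 := one_le_ell e.1
        have h8 : nm (φ (e.1 + stp e.2) - e.1) ≤ nm (φ (e.1 + stp e.2) - (e.1 + stp e.2)) + 1 := by
          have := nm_tri (φ (e.1 + stp e.2)) (e.1 + stp e.2) e.1
          simpa using this
        nlinarith [Nat.zero_le (a * ell e.1)]
    have h4 : ¬ (φ e.1 ∈ W ↔ φ (e.1 + stp e.2) ∈ W) := fun h => h1 h.symm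
    obtain ⟨q, hq, hq'⟩ := crossing' h3 h4
    exact ⟨q, hq, hq'.trans (Nat.mul_le_mul_left _ hell)⟩
  have hne : Nonempty (V d × (Fin d × Bool)) := ⟨(0, (⟨0, by omega⟩, true))⟩
  choose! f hf1 hf2 using hmap
  have hcount : D.card ≤ ((2 * (b * L) + 1) ^ d * d) * (BB O W).card := by
    refine card_le_mul_card_image_of_maps_to (f := f) hf1 _ fun q hq => ?_
    have h1 : (D.filter fun e => f e = q) ⊆
        ((box d (b * L)).image fun y => q.1 - y) ×ˢ (univ : Finset (Fin d)) := by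
      intro e he
      rw [mem_filter] at he
      rw [mem_product]
      refine ⟨mem_image.mpr ⟨q.1 - e.1, ?_, by simp⟩, mem_univ _⟩
      rw [mem_box]
      have := hf2 e he.1
      rwa [he.2] at this
    refine (card_le_card h1).trans ?_
    rw [card_product, card_univ, Fintype.card_fin]
    refine Nat.mul_le_mul_right _ ?_
    refine card_image_le.trans ?_
    rw [card_box]
  have hP : (2 * (b * L) + 1) ^ d * d ≤ K5 * (J + 1) ^ d := by
    have h1 : 2 * (b * L) + 1 ≤ (2 * b * Q + 1) * (J + 1) := by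
      have : b * L ≤ b * (Q * (J + 1)) := Nat.mul_le_mul_left _ hLQ
      nlinarith [Nat.zero_le J]
    calc (2 * (b * L) + 1) ^ d * d ≤ ((2 * b * Q + 1) * (J + 1)) ^ d * d :=
          Nat.mul_le_mul_right _ (Nat.pow_le_pow_left h1 d)
      _ = K5 * (J + 1) ^ d := by rw [mul_pow]; ring
  have hWS : n ≤ hSfin.toFinset.card := by
    refine card_le_card fun x hx => ?_
    rw [Set.Finite.mem_toFinset]
    show φ x ∈ W
    rw [hφid x (hWI x hx)]; exact hx
  have hiso := iso hd hSfin.toFinset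
  have hcoe : ((hSfin.toFinset : Finset (V d)) : Set (V d)) = S := hSfin.coe_toFinset
  rw [hcoe, Set.ncard_eq_toFinset_card _ hbfin] at hiso
  have hmain : n ^ 2 ≤ (K5 * (J + 1) ^ d * (BB O W).card) ^ 3 := by
    refine (Nat.pow_le_pow_left hWS 2).trans (hiso.trans (Nat.pow_le_pow_left ?_ 3))
    exact hcount.trans (Nat.mul_le_mul_right _ hP)
  -- conclusion
  have hstep : cc * 8 ^ J ≤ ((BB O W).card : ℝ) := by
    by_contra hlt
    push Not at hlt
    have h1 : ((32 : ℝ) ^ J) ^ 2 ≤ ((K5 : ℝ) * (J + 1) ^ d * (BB O W).card) ^ 3 := by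
      have : ((32 ^ J) ^ 2 : ℕ) ≤ (K5 * (J + 1) ^ d * (BB O W).card) ^ 3 :=
        (Nat.pow_le_pow_left hJ1 2).trans hmain
      exact_mod_cast this
    have h2 : ((K5 : ℝ) * (J + 1) ^ d * (BB O W).card) ^ 3 ≤
        ((K5 : ℝ) * (J + 1) ^ d * (cc * 8 ^ J)) ^ 3 := by
      refine pow_le_pow_left₀ (by positivity) ?_ 3
      exact mul_le_mul_of_nonneg_left hlt.le (by positivity)
    have h3 : ((K5 : ℝ) * (J + 1) ^ d * (cc * 8 ^ J)) ^ 3 =
        (K5 : ℝ) ^ 3 * ((J : ℝ) + 1) ^ (3 * d) * cc ^ 3 * 512 ^ J := by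
      have : (512 : ℝ) ^ J = (8 ^ J) ^ 3 := by
        rw [← pow_mul, mul_comm J 3, pow_mul]; norm_num
      rw [this, mul_comm 3 d, pow_mul]; ring
    have h4 : ((J : ℝ) + 1) ^ (3 * d) ≤ C1 * 2 ^ J := by
      have := hC1' J
      exact_mod_cast this
    have h5 : cc ^ 3 ≤ cc := by
      calc cc ^ 3 = cc * (cc * cc) := by ring
        _ ≤ cc * 1 := by
          refine mul_le_mul_of_nonneg_left ?_ hccpos.le
          nlinarith
        _ = cc := mul_one _
    have h6 : (K5 : ℝ) ^ 3 * C1 * cc < 1 := by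
      rw [hcc, mul_one_div, div_lt_one (by positivity)]
      linarith
    have h7 : (K5 : ℝ) ^ 3 * ((J : ℝ) + 1) ^ (3 * d) * cc ^ 3 * 512 ^ J <
        2 ^ J * 512 ^ J := by
      refine mul_lt_mul_of_pos_right ?_ (by positivity)
      calc (K5 : ℝ) ^ 3 * ((J : ℝ) + 1) ^ (3 * d) * cc ^ 3
          ≤ (K5 : ℝ) ^ 3 * (C1 * 2 ^ J) * cc := by
            refine mul_le_mul ?_ h5 (by positivity) (by positivity)
            exact mul_le_mul_of_nonneg_left h4 (by positivity)
        _ = ((K5 : ℝ) ^ 3 * C1 * cc) * 2 ^ J := by ring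
        _ < 1 * 2 ^ J := mul_lt_mul_of_pos_right h6 (by positivity)
        _ = 2 ^ J := one_mul _
    have h8 : (2 : ℝ) ^ J * 512 ^ J = (32 ^ J) ^ 2 := by
      rw [← mul_pow, ← pow_mul, mul_comm J 2, pow_mul]; norm_num
    rw [h3] at h2
    rw [h8] at h7
    linarith
  refine le_trans ?_ hstep
  exact mul_le_mul_of_nonneg_left (pow_le_pow_right₀ (by norm_num) hjJ) hccpos.le

end Pool.Agent.TH991
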