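import Pool.Agent.W844.VG.Cut

/-!
# MP_b4265e_pr: boxes and annuli are connected, simple chains
-/

set_option autoImplicit false

open Finset
open scoped Classical

namespace Pool.Agent.TH991

open Pool.Agent.W844.VG

variable {d : ℕ}

lemma update_eq (x : V d) (i : Fin d) (t : ℤ) :
    Function.update x i t = x + (t - x i) • stp i := by
  funext j
  by_cases h : j = i
  · subst h; simp [stp_same]
  · simp [Function.update_of_ne h, stp_ne h]

lemma move_up {α : Type} {P : V d → Prop} {g : V d → α}
    (hg : ∀ x i, P x → P (x + stp i) → g (x + stp i) = g x) (x : V d) (i : Fin d) (n : ℕ)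
    (h : ∀ k : ℕ, k ≤ n → P (x + (k : ℤ) • stp i)) : g (x + (n : ℤ) • stp i) = g x := by
  induction n with
  | zero => simp
  | succ n ih =>
    have h1 := ih fun k hk => h k (by omega)
    have h2 : x + ((n + 1 : ℕ) : ℤ) • stp i = x + (n : ℤ) • stp i + stp i := by
      push_cast; rw [add_smul, one_smul]; abel
    rw [h2, hg _ i (h n (by omega)) (h2 ▸ h (n + 1) le_rfl), h1]

lemma move {α : Type} {P : V d → Prop} {g : V d → α}
    (hg : ∀ x i, P x → P (x + stp i) → g (x + stp i) = g x) (x : V d) (i : Fin d) (t : ℤ)
    (h : ∀ s : ℤ, min (x i) t ≤ s → s ≤ max (x i) t → P (Function.update x i s)) :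
    g (Function.update x i t) = g x := by
  rcases le_total (x i) t with hle | hle
  · obtain ⟨n, hn⟩ := Int.eq_ofNat_of_zero_le (sub_nonneg.mpr hle)
    have := move_up hg x i n (fun k hk => by
      have h1 := h (x i + k) (by rw [min_eq_left hle]; omega) (by rw [max_eq_right hle]; omega)
      rw [update_eq] at h1
      simpa using h1)
    rw [update_eq, hn]; exact this
  · obtain ⟨n, hn⟩ := Int.eq_ofNat_of_zero_le (sub_nonneg.mpr hle)
    set y := Function.update x i t with hy
    have hyi : y i = t := by simp [hy]
    have hup : ∀ s, Function.update y i s = Function.update x i s := by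
      intro s; simp [hy]
    have hxy : x = y + (n : ℤ) • stp i := by
      have h1 : x = Function.update y i (x i) := by rw [hup]; simp
      rw [update_eq, hyi, hn] at h1
      exact h1
    have := move_up hg y i n (fun k hk => by
      have h1 := h (t + k) (by rw [min_eq_right hle]; omega) (by rw [max_eq_left hle]; omega)
      rw [← hup, update_eq, hyi] at h1
      simpa using h1)
    rw [← hxy] at this
    exact this.symm

theorem box_conn : S_BOX := by
  intro d α g c s hg x y hx hy
  have hg' : ∀ x i, nm (x - c) ≤ s → nm (x + stp i - c) ≤ s → g (x + stp i) = g x := hg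
  have key : ∀ S : Finset (Fin d), g (fun j => if j ∈ S then y j else x j) = g x := by
    intro S
    induction S using Finset.induction_on with
    | empty => simp
    | insert i S hi ih =>
      have h1 : (fun j => if j ∈ insert i S then y j else x j) =
          Function.update (fun j => if j ∈ S then y j else x j) i (y i) := by
        funext j
        by_cases h : j = i
        · subst h; simp
        · simp [h]
      rw [h1, move (P := fun z => nm (z - c) ≤ s) hg' _ i (y i), ih]
      intro t ht1 ht2
      simp only [hi, if_false] at ht1 ht2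
      show nm _ ≤ s
      rw [nm_le_iff] at *
      intro j
      have hxj := hx j
      have hyj := hy j
      simp only [Pi.sub_apply] at *
      by_cases h : j = i
      · subst h
        simp only [Function.update_self]
        rcases le_total (x j) (y j) with h3 | h3
        · rw [min_eq_left h3] at ht1; rw [max_eq_right h3] at ht2; omega
        · rw [min_eq_right h3] at ht1; rw [max_eq_left h3] at ht2; omega
      · rw [Function.update_of_ne h]
        split_ifs <;> assumption
  have := key univ
  simpa using this.symm

theorem ann_conn : S_ANN := by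
  intro d hd α g c r s hg
  set P : V d → Prop := fun z => r < nm (z - c) ∧ nm (z - c) ≤ s with hP
  have hg' : ∀ x i, P x → P (x + stp i) → g (x + stp i) = g x :=
    fun x i h1 h2 => hg x i h1.1 h1.2 h2.1 h2.2
  have key : ∀ x, P x → g x = g (fun j => c j + s) := by
    intro x hx
    obtain ⟨i, hi⟩ := lt_nm_iff.mp hx.1
    have hxs := nm_le_iff.mp hx.2
    have hrs : r < s := lt_of_lt_of_le hx.1 hx.2
    simp only [Pi.sub_apply] at hi hxs
    -- step 1
    obtain ⟨σ, hσ, hσi⟩ : ∃ σ : ℤ, (σ = s ∨ σ = -s) ∧ ∀ t : ℤ, min (x i) (c i + σ) ≤ t →
        t ≤ max (x i) (c i + σ) → r < (t - c i).natAbs ∧ (t - c i).natAbs ≤ s := by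
      have := hxs i
      rcases le_total (c i) (x i) with h | h
      · refine ⟨s, Or.inl rfl, fun t h1 h2 => ?_⟩
        rw [min_eq_left (by omega)] at h1
        rw [max_eq_right (by omega)] at h2
        omega
      · refine ⟨-s, Or.inr rfl, fun t h1 h2 => ?_⟩
        rw [min_eq_right (by omega)] at h1
        rw [max_eq_left (by omega)] at h2
        omega
    set x1 := Function.update x i (c i + σ) with hx1
    have e1 : g x1 = g x := by
      refine move hg' x i _ fun t h1 h2 => ?_
      have h3 := hσi t h1 h2
      refine ⟨lt_nm_iff.mpr ⟨i, ?_⟩, nm_le_iff.mpr fun j => ?_⟩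
      · simpa using h3.1
      · by_cases h : j = i
        · subst h; simpa using h3.2
        · simpa [Function.update_of_ne h] using hxs j
    have hx1i : x1 i = c i + σ := by simp [hx1]
    have hx1s : ∀ j, (x1 j - c j).natAbs ≤ s := by
      intro j
      by_cases h : j = i
      · subst h; rw [hx1i]; rcases hσ with h | h <;> subst h <;> simp
      · rw [hx1, Function.update_of_ne h]; exact hxs j
    -- step 2
    have key2 : ∀ S : Finset (Fin d), i ∉ S →
        g (fun j => if j ∈ S then c j + s else x1 j) = g x1 := by
      intro S
      induction S using Finset.induction_on with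
      | empty => simp
      | insert k S hk ih =>
        intro hiS
        rw [Finset.mem_insert, not_or] at hiS
        have h1 : (fun j => if j ∈ insert k S then c j + s else x1 j) =
            Function.update (fun j => if j ∈ S then c j + s else x1 j) k (c k + s) := by
          funext j
          by_cases h : j = k
          · subst h; simp
          · simp [h]
        rw [h1, move hg' _ k (c k + s), ih hiS.2]
        intro t ht1 ht2
        simp only [hk, if_false] at ht1 ht2
        refine ⟨lt_nm_iff.mpr ⟨i, ?_⟩, nm_le_iff.mpr fun j => ?_⟩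
        · rw [Pi.sub_apply, Function.update_of_ne hiS.1]
          simp only [hiS.2, if_false, hx1i]
          rcases hσ with h | h <;> subst h <;> simp <;> omega
        · rw [Pi.sub_apply]
          by_cases h : j = k
          · subst h
            simp only [Function.update_self]
            have := hx1s j
            rw [min_eq_left (by omega)] at ht1
            rw [max_eq_right (by omega)] at ht2
            omega
          · rw [Function.update_of_ne h]
            have := hx1s j
            split_ifs
            · simp
            · exact this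
    have e2 := key2 (univ.erase i) (by simp)
    set x2 : V d := fun j => if j ∈ univ.erase i then c j + s else x1 j with hx2
    have hx2i : x2 i = c i + σ := by simp [hx2, hx1i]
    have hx2j : ∀ j, j ≠ i → x2 j = c j + s := fun j hj => by simp [hx2, hj]
    -- step 3
    obtain ⟨k, hk⟩ : ∃ k : Fin d, k ≠ i := by
      have : Nontrivial (Fin d) := Fin.nontrivial_iff_two_le.mpr hd
      exact exists_ne i
    have e3 : g (Function.update x2 i (c i + s)) = g x2 := by
      refine move hg' x2 i _ fun t h1 h2 => ?_
      rw [hx2i] at h1 h2
      refine ⟨lt_nm_iff.mpr ⟨k, ?_⟩, nm_le_iff.mpr fun j => ?_⟩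
      · rw [Pi.sub_apply, Function.update_of_ne hk, hx2j k hk]
        simp; exact hrs
      · rw [Pi.sub_apply]
        by_cases h : j = i
        · subst h
          simp only [Function.update_self]
          rcases hσ with h3 | h3 <;> subst h3
          · rw [min_self] at h1; rw [max_self] at h2; omega
          · rw [min_eq_left (by omega)] at h1; rw [max_eq_right (by omega)] at h2; omega
        · rw [Function.update_of_ne h, hx2j j h]; simp
    have e4 : Function.update x2 i (c i + s) = fun j => c j + s := by
      funext j
      by_cases h : j = i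
      · subst h; simp
      · rw [Function.update_of_ne h, hx2j j h]
    rw [← e4, e3, e2, e1]
  intro x y h1 h2 h3 h4
  rw [key x ⟨h1, h2⟩, key y ⟨h3, h4⟩]

/-- simple chains in star-connected sets -/
theorem simple_path {S : Set (E d)} (hstar : StarConn S) {e f : E d} (he : e ∈ S) (hf : f ∈ S)
    {m : ℕ} (hm : m ≤ nm (f.1 - e.1)) :
    ∃ c : ℕ → E d, c 0 = e ∧ (∀ k, k ≤ m → c k ∈ S) ∧
      (∀ k, k < m → nm ((c (k + 1)).1 - (c k).1) ≤ 1) ∧
      (∀ j k, j ≤ m → k ≤ m → c j = c k → j = k) := by
  let G : SimpleGraph (E d) :=
    { Adj := fun a b => a ≠ b ∧ a ∈ S ∧ b ∈ S ∧ nm (b.1 - a.1) ≤ 1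
      symm := ⟨fun a b h => ⟨h.1.symm, h.2.2.1, h.2.1, by rw [nm_sub_comm]; exact h.2.2.2⟩⟩
      loopless := ⟨fun a h => h.1 rfl⟩ }
  have hr : ∀ b, Relation.ReflTransGen
      (fun a b : E d => a ∈ S ∧ b ∈ S ∧ nm (b.1 - a.1) ≤ 1) e b → G.Reachable e b := by
    intro b hb
    induction hb with
    | refl => exact SimpleGraph.Reachable.refl _
    | @tail b c _ hbc ih =>
      by_cases h : b = c
      · subst h; exact ih
      · exact ih.trans (SimpleGraph.Adj.reachable (show G.Adj b c from ⟨h, hbc⟩))
  obtain ⟨w, hw⟩ := (hr f (hstar e he f hf)).exists_isPath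
  have hlen : ∀ (a b : E d) (q : G.Walk a b), nm (b.1 - a.1) ≤ q.length := by
    intro a b q
    induction q with
    | nil => simp
    | @cons a b c h q ih =>
      have h1 := h.2.2.2
      have h2 := nm_tri c.1 b.1 a.1
      rw [SimpleGraph.Walk.length_cons]; omega
  have hml : m ≤ w.length := hm.trans (hlen e f w)
  have hmemS : ∀ (a b : E d) (q : G.Walk a b), a ∈ S → ∀ x ∈ q.support, x ∈ S := by
    intro a b q
    induction q with
    | nil => intro ha x hx; simp at hx; subst hx; exact ha
    | @cons a b c h q ih =>
      intro ha x hx
      rw [SimpleGraph.Walk.support_cons, List.mem_cons] at hx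
      rcases hx with rfl | hx
      · exact ha
      · exact ih h.2.2.1 x hx
  refine ⟨fun k => w.getVert k, by simp, fun k _ => hmemS _ _ w he _ (w.getVert_mem_support k),
    fun k hk => ?_, fun j k hj hk hjk => ?_⟩
  · exact (w.adj_getVert_succ (by omega : k < w.length)).2.2.2
  · exact hw.getVert_injOn (by simp; omega) (by simp; omega) hjk

theorem simple_chain : S_SIMPLE := by
  intro d O S hS hstar e he f hf m hm
  obtain ⟨c, h0, h1, h2, h3⟩ := simple_path hstar he hf hm
  exact ⟨c, h0, fun k hk => hS _ (h1 k hk), h2, h3⟩

end Pool.Agent.TH991
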