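import Pool.Agent.TH991.Anch

/-!
# MP_b4265e_pr: a positive decaying function harmonic except at one point
-/

set_option autoImplicit false

open Finset Filter
open scoped Classical Topology

namespace Pool.Agent.TH991

open Pool.Agent.W844.VG

variable {d : ℕ}

/-- graph Laplacian -/
noncomputable def lap (O : Set (E d)) (u : V d → ℝ) (x : V d) : ℝ :=
  ∑ t : Fin d × Bool, if ed x t ∈ O then u (nb x t) - u x else 0

lemma harmAt_iff {O : Set (E d)} {u : V d → ℝ} {x : V d} : HarmAt O u x ↔ lap O u x = 0 := by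
  unfold HarmAt lap
  rw [Fintype.sum_prod_type]
  simp only [Fintype.sum_bool, ed, nb, if_true]
  simp

/-- sum over the open neighbours -/
noncomputable def ss (O : Set (E d)) (u : V d → ℝ) (x : V d) : ℝ :=
  ∑ t : Fin d × Bool, if ed x t ∈ O then u (nb x t) else 0

/-- degree -/
noncomputable def dg (O : Set (E d)) (x : V d) : ℝ :=
  ∑ t : Fin d × Bool, if ed x t ∈ O then (1 : ℝ) else 0

lemma lap_eq (O : Set (E d)) (u : V d → ℝ) (x : V d) : lap O u x = ss O u x - dg O x * u x := by
  unfold lap ss dg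
  rw [sum_mul, ← sum_sub_distrib]
  refine sum_congr rfl fun t _ => ?_
  split_ifs <;> ring

lemma dg_nonneg (O : Set (E d)) (x : V d) : 0 ≤ dg O x :=
  sum_nonneg fun t _ => by split_ifs <;> norm_num

lemma ss_mono {O : Set (E d)} {u v : V d → ℝ} (h : ∀ x, u x ≤ v x) (x : V d) :
    ss O u x ≤ ss O v x :=
  sum_le_sum fun t _ => by split_ifs; exacts [h _, le_rfl]

lemma ss_le {O : Set (E d)} {u : V d → ℝ} (h : ∀ x, u x ≤ 1) (x : V d) :
    ss O u x ≤ dg O x :=
  sum_le_sum fun t _ => by split_ifs; exacts [h _, le_rfl]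

lemma ss_nonneg {O : Set (E d)} {u : V d → ℝ} (h : ∀ x, 0 ≤ u x) (x : V d) :
    0 ≤ ss O u x :=
  sum_nonneg fun t _ => by split_ifs; exacts [h _, le_rfl]

/-- the iteration -/
noncomputable def it (O : Set (E d)) (o : V d) : ℕ → V d → ℝ
  | 0 => fun x => if x = o then 1 else 0
  | k + 1 => fun x => if x = o then 1 else ss O (it O o k) x / dg O x

lemma it_o (O : Set (E d)) (o : V d) (k : ℕ) : it O o k o = 1 := by
  cases k <;> simp [it]

lemma it_nonneg (O : Set (E d)) (o : V d) (k : ℕ) : ∀ x, 0 ≤ it O o k x := by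
  induction k with
  | zero => intro x; simp only [it]; split_ifs <;> norm_num
  | succ k ih =>
    intro x; simp only [it]; split_ifs
    · norm_num
    · exact div_nonneg (ss_nonneg ih x) (dg_nonneg O x)

lemma it_le_one (O : Set (E d)) (o : V d) (k : ℕ) : ∀ x, it O o k x ≤ 1 := by
  induction k with
  | zero => intro x; simp only [it]; split_ifs <;> norm_num
  | succ k ih =>
    intro x; simp only [it]; split_ifs
    · norm_num
    · exact div_le_one_of_le₀ (ss_le ih x) (dg_nonneg O x)

lemma it_mono (O : Set (E d)) (o : V d) (k : ℕ) : ∀ x, it O o k x ≤ it O o (k + 1) x := by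
  induction k with
  | zero =>
    intro x
    by_cases h : x = o
    · rw [h, it_o, it_o]
    · have : it O o 0 x = 0 := by simp [it, h]
      rw [this]; exact it_nonneg O o _ x
  | succ k ih =>
    intro x
    by_cases h : x = o
    · rw [h, it_o, it_o]
    · show (if x = o then 1 else ss O (it O o k) x / dg O x) ≤
        (if x = o then 1 else ss O (it O o (k + 1)) x / dg O x)
      rw [if_neg h, if_neg h]
      exact div_le_div_of_nonneg_right (ss_mono ih x) (dg_nonneg O x)

lemma dg_mul_it (O : Set (E d)) (o : V d) (k : ℕ) {x : V d} (hx : x ≠ o) :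
    dg O x * it O o (k + 1) x = ss O (it O o k) x := by
  show dg O x * (if x = o then 1 else ss O (it O o k) x / dg O x) = _
  rw [if_neg hx]
  by_cases h : dg O x = 0
  · have h1 := ss_le (it_le_one O o k) (O := O) x
    have h2 := ss_nonneg (it_nonneg O o k) (O := O) x
    rw [h] at h1 ⊢
    rw [zero_mul]; linarith
  · field_simp

lemma lap_it_nonneg (O : Set (E d)) (o : V d) (k : ℕ) {x : V d} (hx : x ≠ o) :
    0 ≤ lap O (it O o k) x := by
  rw [lap_eq]
  cases k with
  | zero =>
    have : it O o 0 x = 0 := by simp [it, hx]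
    rw [this, mul_zero, sub_zero]
    exact ss_nonneg (it_nonneg O o 0) x
  | succ k =>
    rw [dg_mul_it O o k hx]
    have := ss_mono (O := O) (it_mono O o k) x
    linarith

lemma lap_it_o (O : Set (E d)) (o : V d) (k : ℕ) : -(2 * d : ℝ) ≤ lap O (it O o k) o := by
  unfold lap
  have h : ∑ t : Fin d × Bool, (-1 : ℝ) ≤
      ∑ t : Fin d × Bool, (if ed o t ∈ O then it O o k (nb o t) - it O o k o else 0) := by
    refine sum_le_sum fun t _ => ?_
    split_ifs
    · have := it_nonneg O o k (nb o t); rw [it_o]; linarith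
    · norm_num
  refine le_trans (le_of_eq ?_) h
  rw [sum_const, card_univ, Fintype.card_prod, Fintype.card_fin, Fintype.card_bool]
  simp; ring

lemma nm_nb (x : V d) (t : Fin d × Bool) (o : V d) : nm (x - o) ≤ nm (nb x t - o) + 1 := by
  have h := nm_tri x (nb x t) o
  have h1 : nm (x - nb x t) = 1 := by
    obtain ⟨i, b⟩ := t
    cases b <;> simp [nb, nm_neg]
  omega

lemma it_supp (O : Set (E d)) (o : V d) (k : ℕ) : ∀ x, it O o k x ≠ 0 →
    nm (x - o) ≤ k ∧ (gr O).Reachable o x := by
  induction k with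
  | zero =>
    intro x h
    have : x = o := by
      by_contra hx; simp [it, hx] at h
    subst this; simp
  | succ k ih =>
    intro x h
    by_cases hx : x = o
    · subst hx; simp
    · have h1 : ss O (it O o k) x ≠ 0 := by
        intro h1; apply h
        show (if x = o then 1 else ss O (it O o k) x / dg O x) = 0
        rw [if_neg hx, h1, zero_div]
      obtain ⟨t, _, ht⟩ := exists_ne_zero_of_sum_ne_zero h1
      have ht1 : ed x t ∈ O := by by_contra h2; simp [h2] at ht
      rw [if_pos ht1] at ht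
      obtain ⟨h2, h3⟩ := ih _ ht
      refine ⟨(nm_nb x t o).trans (by omega), h3.trans ?_⟩
      exact (SimpleGraph.Adj.reachable (adj_iff.mpr ⟨t, rfl, ht1⟩)).symm

/-- what is needed from the iterates -/
structure Sub (O : Set (E d)) (o : V d) (w : V d → ℝ) : Prop where
  at_o : w o = 1
  nonneg : ∀ x, 0 ≤ w x
  le_one : ∀ x, w x ≤ 1
  fin : {x | w x ≠ 0}.Finite
  reach : ∀ x, w x ≠ 0 → (gr O).Reachable o x
  lap_nonneg : ∀ x, x ≠ o → 0 ≤ lap O w x
  lap_o : -(2 * d : ℝ) ≤ lap O w o

lemma sub_it (O : Set (E d)) (o : V d) (k : ℕ) : Sub O o (it O o k) where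
  at_o := it_o O o k
  nonneg := it_nonneg O o k
  le_one := it_le_one O o k
  fin := (finite_ball o k).subset fun x hx => (it_supp O o k x hx).1
  reach := fun x hx => (it_supp O o k x hx).2
  lap_nonneg := fun x hx => lap_it_nonneg O o k hx
  lap_o := lap_it_o O o k

/-- level set -/
noncomputable def lv {O : Set (E d)} {o : V d} {w : V d → ℝ} (hw : Sub O o w) (s : ℝ) :
    Finset (V d) := hw.fin.toFinset.filter fun x => s ≤ w x

lemma mem_lv {O : Set (E d)} {o : V d} {w : V d → ℝ} (hw : Sub O o w) {s : ℝ} (hs : 0 < s)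
    {x : V d} : x ∈ lv hw s ↔ s ≤ w x := by
  unfold lv
  rw [mem_filter, Set.Finite.mem_toFinset]
  constructor
  · exact fun h => h.2
  · exact fun h => ⟨by show w x ≠ 0; intro h0; rw [h0] at h; linarith, h⟩

lemma rtg_symm {α : Type} {r : α → α → Prop} (hr : ∀ a b, r a b → r b a) {x y : α}
    (h : Relation.ReflTransGen r x y) : Relation.ReflTransGen r y x := by
  induction h with
  | refl => exact Relation.ReflTransGen.refl
  | tail _ h ih => exact Relation.ReflTransGen.head (hr _ _ h) ih

lemma lv_conn {O : Set (E d)} {o : V d} {w : V d → ℝ} (hw : Sub O o w) {s : ℝ} (hs : 0 < s) :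
    ConnW O (lv hw s) o := by
  intro x hx
  set W := lv hw s with hW
  set K := W.filter fun y => Relation.ReflTransGen (stepW O W) x y with hK
  have hxK : x ∈ K := by rw [hK, mem_filter]; exact ⟨hx, Relation.ReflTransGen.refl⟩
  obtain ⟨y, hyK, hymax⟩ := exists_max_image K w ⟨x, hxK⟩
  have hyW : y ∈ W := (mem_filter.mp hyK).1
  have hsy : s ≤ w y := (mem_lv hw hs).mp hyW
  have key : ∀ z, Relation.ReflTransGen (gr O).Adj y z → o ∉ K → z ∈ K ∧ w z = w y := by
    intro z hz hoK
    induction hz with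
    | refl => exact ⟨hyK, rfl⟩
    | @tail a b _ hab ih =>
      obtain ⟨haK, hay⟩ := ih
      have hao : a ≠ o := fun h => hoK (h ▸ haK)
      have haW : a ∈ W := (mem_filter.mp haK).1
      have hstep : ∀ t, ed a t ∈ O → nb a t ∈ W → nb a t ∈ K := fun t ht hn => by
        rw [hK, mem_filter]
        exact ⟨hn, (mem_filter.mp haK).2.tail ⟨adj_iff.mpr ⟨t, rfl, ht⟩, haW, hn⟩⟩
      have hle : ∀ t, (if ed a t ∈ O then w (nb a t) - w a else 0) ≤ 0 := by
        intro t
        split_ifs with ht
        · by_cases hn : nb a t ∈ W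
          · have := hymax _ (hstep t ht hn); linarith
          · have h1 : ¬ s ≤ w (nb a t) := fun h => hn ((mem_lv hw hs).mpr h)
            push Not at h1; linarith
        · exact le_rfl
      have hsum : lap O w a = 0 := by
        refine le_antisymm (sum_nonpos fun t _ => hle t) (hw.lap_nonneg a hao)
      unfold lap at hsum
      rw [sum_eq_zero_iff_of_nonpos fun t _ => hle t] at hsum
      obtain ⟨t, ht1, ht2⟩ := adj_iff.mp hab
      have h2 := hsum t (mem_univ _)
      rw [if_pos ht2, ← ht1] at h2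
      have h3 : w b = w y := by linarith
      have h4 : nb a t ∈ W := (mem_lv hw hs).mpr (by rw [← ht1, h3]; exact hsy)
      exact ⟨by rw [ht1]; exact hstep t ht2 h4, h3⟩
  have hoK : o ∈ K := by
    by_contra hoK
    have h1 : (gr O).Reachable o y := hw.reach y (by intro h; rw [h] at hsy; linarith)
    have h2 : Relation.ReflTransGen (gr O).Adj y o :=
      (SimpleGraph.reachable_iff_reflTransGen _ _).mp h1.symm
    exact hoK (key o h2 hoK).1
  exact rtg_symm (fun a b h => ⟨h.1.symm, h.2.2, h.2.1⟩) (mem_filter.mp hoK).2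

/-- Green's formula -/
lemma green (O : Set (E d)) (w : V d → ℝ) (W : Finset (V d)) :
    ∑ x ∈ W, lap O w x = ∑ q ∈ BB O W, (w (nb q.1 q.2) - w q.1) := by
  unfold lap
  rw [← sum_product' W univ fun x t => if ed x t ∈ O then w (nb x t) - w x else 0]
  rw [← sum_filter]
  set A := (W ×ˢ (univ : Finset (Fin d × Bool))).filter fun q => ed q.1 q.2 ∈ O with hA
  have hBB : BB O W = A.filter fun q => nb q.1 q.2 ∉ W := by
    unfold BB; rw [hA, filter_filter]
  rw [hBB, ← sum_filter_add_sum_filter_not A fun q => nb q.1 q.2 ∈ W]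
  rw [add_eq_right]
  refine sum_involution (fun q _ => (nb q.1 q.2, opp q.2)) ?_ ?_ ?_ ?_
  · intro q _
    simp only [nb_nb]; ring
  · intro q _ _ h
    have h1 := congrArg (fun r : V d × (Fin d × Bool) => r.2.2) h
    simp [opp] at h1
  · intro q hq
    simp only [hA, mem_filter, mem_product, mem_univ, and_true] at hq ⊢
    rw [ed_opp, nb_nb]
    exact ⟨⟨hq.2, hq.1.2⟩, hq.1.1⟩
  · intro q _
    simp only [nb_nb, opp_opp]

lemma sum_BB_le {O : Set (E d)} {o : V d} {w : V d → ℝ} (hw : Sub O o w) (W : Finset (V d)) :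
    ∑ q ∈ BB O W, (w q.1 - w (nb q.1 q.2)) ≤ 2 * d := by
  have h1 := green O w W
  have h2 : -(2 * d : ℝ) ≤ ∑ x ∈ W, lap O w x := by
    by_cases ho : o ∈ W
    · rw [← add_sum_erase W _ ho]
      have : 0 ≤ ∑ x ∈ W.erase o, lap O w x :=
        sum_nonneg fun x hx => hw.lap_nonneg x (ne_of_mem_erase hx)
      have := hw.lap_o
      linarith
    · have : 0 ≤ ∑ x ∈ W, lap O w x :=
        sum_nonneg fun x hx => hw.lap_nonneg x fun h => ho (h ▸ hx)
      have h3 : (0 : ℝ) ≤ 2 * d := by positivity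
      linarith
  have h3 : ∑ q ∈ BB O W, (w q.1 - w (nb q.1 q.2)) =
      - ∑ q ∈ BB O W, (w (nb q.1 q.2) - w q.1) := by
    rw [← sum_neg_distrib]; exact sum_congr rfl fun q _ => by ring
  rw [h3, ← h1]; linarith

/-- comparison of level sets -/
lemma level_step {O : Set (E d)} {o : V d} {w : V d → ℝ} (hw : Sub O o w) {s t : ℝ}
    (ht : 0 < t) (hts : t < s) :
    ((BB O (lv hw s)).card : ℝ) ≤ 2 * d / (s - t) +
      2 * d * (((lv hw t).card : ℝ) - (lv hw s).card) := by
  have hs : 0 < s := ht.trans hts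
  set W := lv hw s with hW
  set U := lv hw t with hU
  have hWU : W ⊆ U := fun x hx => (mem_lv hw ht).mpr (hts.le.trans ((mem_lv hw hs).mp hx))
  set B := BB O W with hB
  have hnn : ∀ q ∈ B, 0 ≤ w q.1 - w (nb q.1 q.2) := by
    intro q hq
    obtain ⟨h1, _, h3⟩ := mem_BB.mp hq
    have h4 := (mem_lv hw hs).mp h1
    have h5 : ¬ s ≤ w (nb q.1 q.2) := fun h => h3 ((mem_lv hw hs).mpr h)
    push Not at h5; linarith
  have hsplit := card_filter_add_card_filter_not (s := B) (fun q => nb q.1 q.2 ∈ U)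
  -- the first part
  have h1 : (B.filter fun q => nb q.1 q.2 ∈ U).card ≤ 2 * d * (U.card - W.card) := by
    have hinj : (B.filter fun q => nb q.1 q.2 ∈ U).card ≤
        ((U \ W) ×ˢ (univ : Finset (Fin d × Bool))).card := by
      refine card_le_card_of_injOn (fun q => (nb q.1 q.2, opp q.2)) ?_ ?_
      · intro q hq
        have hq' := mem_filter.mp (mem_coe.mp hq)
        have h3 := (mem_BB.mp hq'.1).2.2
        exact mem_coe.mpr (mem_product.mpr ⟨mem_sdiff.mpr ⟨hq'.2, h3⟩, mem_univ _⟩)
      · intro q _ q' _ h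
        simp only [Prod.mk.injEq] at h
        have h4 : q.2 = q'.2 := by rw [← opp_opp q.2, h.2, opp_opp]
        have h5 : q.1 = q'.1 := by
          rw [← nb_nb q.1 q.2, h.1, h4, nb_nb]
        exact Prod.ext h5 h4
    rw [card_product, card_univ, Fintype.card_prod, Fintype.card_fin, Fintype.card_bool,
      card_sdiff_of_subset hWU] at hinj
    calc _ ≤ _ := hinj
      _ = _ := by ring
  -- the second part
  have h2 : ((B.filter fun q => ¬ nb q.1 q.2 ∈ U).card : ℝ) * (s - t) ≤ 2 * d := by
    have h3 : ∑ q ∈ B.filter (fun q => ¬ nb q.1 q.2 ∈ U), (s - t) ≤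
        ∑ q ∈ B, (w q.1 - w (nb q.1 q.2)) := by
      refine (sum_le_sum fun q hq => ?_).trans
        (sum_le_sum_of_subset_of_nonneg (filter_subset _ _) fun q hq _ => hnn q hq)
      obtain ⟨hq1, hq2⟩ := mem_filter.mp hq
      have h4 := (mem_lv hw hs).mp (mem_BB.mp hq1).1
      have h5 : ¬ t ≤ w (nb q.1 q.2) := fun h => hq2 ((mem_lv hw ht).mpr h)
      push Not at h5; linarith
    rw [sum_const, nsmul_eq_mul] at h3
    exact h3.trans (sum_BB_le hw W)
  have h3 : ((B.filter fun q => ¬ nb q.1 q.2 ∈ U).card : ℝ) ≤ 2 * d / (s - t) := by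
    rw [le_div_iff₀ (by linarith)]; exact h2
  have h4 : ((B.filter fun q => nb q.1 q.2 ∈ U).card : ℝ) ≤
      2 * d * ((U.card : ℝ) - W.card) := by
    have h5 : W.card ≤ U.card := card_le_card hWU
    have h6 : (((B.filter fun q => nb q.1 q.2 ∈ U).card : ℕ) : ℝ) ≤
        ((2 * d * (U.card - W.card) : ℕ) : ℝ) := by exact_mod_cast h1
    rw [Nat.cast_mul, Nat.cast_mul, Nat.cast_sub h5] at h6
    exact_mod_cast h6
  have h5 : (B.card : ℝ) = ((B.filter fun q => nb q.1 q.2 ∈ U).card : ℝ) +
      ((B.filter fun q => ¬ nb q.1 q.2 ∈ U).card : ℝ) := by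
    rw [← hsplit]; push_cast; ring
  rw [h5]; linarith

/-- uniform bound for the sizes of the level sets -/
theorem level_bound (hd : 3 ≤ d) {O : Set (E d)} (hloc : Loc O) {o : V d} (ho : o ∈ InfV O)
    {s : ℝ} (hs : 0 < s) (hs1 : s ≤ 1) :
    ∃ N : ℕ, ∀ (w : V d → ℝ) (hw : Sub O o w), (lv hw s).card < N := by
  obtain ⟨c, hc0, hc1, hc⟩ := anch hd hloc o
  have hd0 : (0 : ℝ) < d := by
    have : 0 < d := by omega
    exact_mod_cast this
  have hd1 : (1 : ℝ) ≤ d := by
    have : 1 ≤ d := by omega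
    exact_mod_cast this
  set D : ℝ := 500 * d ^ 2 / c ^ 2 with hD
  have hDpos : 0 < D := by positivity
  -- one small step
  have hA : ∀ (w : V d → ℝ) (hw : Sub O o w) (j : ℕ) (r : ℝ), r ≤ 1 →
      0 < r - 4 * d / (c * 8 ^ j) → 32 ^ j ≤ (lv hw r).card →
      ((lv hw r).card : ℝ) + c * 8 ^ j / (4 * d) ≤ (lv hw (r - 4 * d / (c * 8 ^ j))).card := by
    intro w hw j r hr1 hr hcard
    have hδ : 0 < 4 * (d : ℝ) / (c * 8 ^ j) := by positivity
    have hr0 : 0 < r := by linarith
    have hWo : o ∈ lv hw r := (mem_lv hw hr0).mpr (by rw [hw.at_o]; exact hr1)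
    have hWI : ∀ x ∈ lv hw r, x ∈ InfV O := fun x hx => by
      have h1 := (mem_lv hw hr0).mp hx
      exact infV_of_reachable (hw.reach x (by intro h; rw [h] at h1; linarith)) ho
    have h1 := hc j (lv hw r) hWI hWo (lv_conn hw hr0) hcard
    have h2 := level_step hw hr (by linarith : r - 4 * d / (c * 8 ^ j) < r)
    have h3 : 2 * (d : ℝ) / (r - (r - 4 * d / (c * 8 ^ j))) = c * 8 ^ j / 2 := by
      rw [sub_sub_cancel]; field_simp; norm_num
    rw [h3] at h2
    have h4 : c * 8 ^ j / 2 ≤ 2 * d * (((lv hw (r - 4 * d / (c * 8 ^ j))).card : ℝ) -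
        (lv hw r).card) := by linarith
    have h5 : c * 8 ^ j / (4 * d) ≤ ((lv hw (r - 4 * d / (c * 8 ^ j))).card : ℝ) -
        (lv hw r).card := by
      rw [div_le_iff₀ (by positivity)]
      calc c * 8 ^ j = 2 * (c * 8 ^ j / 2) := by ring
        _ ≤ 2 * (2 * d * (((lv hw (r - 4 * d / (c * 8 ^ j))).card : ℝ) -
          (lv hw r).card)) := by linarith
        _ = _ := by ring
    linarith
  -- many small steps
  have hB : ∀ (w : V d → ℝ) (hw : Sub O o w) (j : ℕ) (m : ℕ) (r : ℝ), r ≤ 1 →
      0 < r - m * (4 * d / (c * 8 ^ j)) → 32 ^ j ≤ (lv hw r).card →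
      ((lv hw r).card : ℝ) + m * (c * 8 ^ j / (4 * d)) ≤
        (lv hw (r - m * (4 * d / (c * 8 ^ j)))).card := by
    intro w hw j m
    induction m with
    | zero => intro r _ _ _; simp
    | succ m ih =>
      intro r hr1 hr hcard
      have hδ : 0 < 4 * (d : ℝ) / (c * 8 ^ j) := by positivity
      have hδ' : 0 < c * 8 ^ j / (4 * (d : ℝ)) := by positivity
      push_cast at hr ⊢
      have h0 : 0 < r - m * (4 * d / (c * 8 ^ j)) := by nlinarith
      have h1 := ih r hr1 h0 hcard
      have h2 : (32 : ℕ) ^ j ≤ (lv hw (r - m * (4 * d / (c * 8 ^ j)))).card := by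
        have h3 : ((lv hw r).card : ℝ) ≤ (lv hw (r - m * (4 * d / (c * 8 ^ j)))).card := by
          have : 0 ≤ (m : ℝ) * (c * 8 ^ j / (4 * d)) := by positivity
          linarith
        exact hcard.trans (by exact_mod_cast h3)
      have h3 : r - m * (4 * d / (c * 8 ^ j)) ≤ 1 := by
        have : 0 ≤ (m : ℝ) * (4 * d / (c * 8 ^ j)) := by positivity
        linarith
      have h4 := hA w hw j _ h3 (by nlinarith) h2
      have h5 : r - (m + 1) * (4 * d / (c * 8 ^ j)) =
          r - m * (4 * d / (c * 8 ^ j)) - 4 * d / (c * 8 ^ j) := by ring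
      rw [h5]
      nlinarith
  -- from `32^j` to `32^(j+1)`
  have hC : ∀ (w : V d → ℝ) (hw : Sub O o w) (j : ℕ) (r : ℝ), r ≤ 1 →
      0 < r - D / 2 ^ j → 32 ^ j ≤ (lv hw r).card →
      32 ^ (j + 1) ≤ (lv hw (r - D / 2 ^ j)).card := by
    intro w hw j r hr1 hr hcard
    set m := ⌈124 * d * 4 ^ j / c⌉₊ with hm
    have hm1 : 124 * d * 4 ^ j / c ≤ (m : ℝ) := Nat.le_ceil _
    have hm2 : (m : ℝ) ≤ 125 * d * 4 ^ j / c := by
      have h1 : (m : ℝ) < 124 * d * 4 ^ j / c + 1 := Nat.ceil_lt_add_one (by positivity)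
      have h2 : 1 ≤ (d : ℝ) * 4 ^ j / c := by
        rw [le_div_iff₀ hc0, one_mul]
        have : (1 : ℝ) ≤ 4 ^ j := one_le_pow₀ (by norm_num)
        nlinarith
      have h3 : 125 * (d : ℝ) * 4 ^ j / c = 124 * d * 4 ^ j / c + d * 4 ^ j / c := by ring
      rw [h3]; linarith
    have hmδ : (m : ℝ) * (4 * d / (c * 8 ^ j)) ≤ D / 2 ^ j := by
      calc (m : ℝ) * (4 * d / (c * 8 ^ j)) ≤ 125 * d * 4 ^ j / c * (4 * d / (c * 8 ^ j)) :=
            mul_le_mul_of_nonneg_right hm2 (by positivity)
        _ = D / 2 ^ j := by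
          have h8 : (8 : ℝ) ^ j = 4 ^ j * 2 ^ j := by rw [← mul_pow]; norm_num
          rw [hD, h8]; field_simp; ring
    have h1 := hB w hw j m r hr1 (by linarith) hcard
    have h2 : ((lv hw (r - m * (4 * d / (c * 8 ^ j)))).card : ℝ) ≤
        (lv hw (r - D / 2 ^ j)).card := by
      have : lv hw (r - m * (4 * d / (c * 8 ^ j))) ⊆ lv hw (r - D / 2 ^ j) := fun x hx => by
        rw [mem_lv hw (by linarith)] at hx
        rw [mem_lv hw hr]; linarith
      exact_mod_cast card_le_card this
    have h3 : (31 : ℝ) * 32 ^ j ≤ m * (c * 8 ^ j / (4 * d)) := by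
      calc (31 : ℝ) * 32 ^ j = 124 * d * 4 ^ j / c * (c * 8 ^ j / (4 * d)) := by
            have h8 : (32 : ℝ) ^ j = 4 ^ j * 8 ^ j := by rw [← mul_pow]; norm_num
            rw [h8]; field_simp; ring
        _ ≤ _ := mul_le_mul_of_nonneg_right hm1 (by positivity)
    have h4 : ((32 : ℝ)) ^ j ≤ (lv hw r).card := by exact_mod_cast hcard
    have h5 : ((32 : ℝ)) ^ (j + 1) ≤ (lv hw (r - D / 2 ^ j)).card := by
      rw [pow_succ]; linarith
    exact_mod_cast h5
  -- choose `j`
  obtain ⟨j, hj⟩ : ∃ j : ℕ, 2 * D / 2 ^ j < s := by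
    have h1 : Tendsto (fun j : ℕ => 2 * D / 2 ^ j) atTop (𝓝 0) := by
      have := (tendsto_pow_atTop_nhds_zero_of_lt_one (r := (1 / 2 : ℝ)) (by norm_num)
        (by norm_num)).const_mul (2 * D)
      rw [mul_zero] at this
      refine this.congr fun j => ?_
      rw [one_div, inv_pow]; rfl
    exact (h1.eventually (gt_mem_nhds hs)).exists
  refine ⟨32 ^ j, fun w hw => ?_⟩
  by_contra hcard
  push Not at hcard
  have hE : ∀ m : ℕ, 32 ^ (j + m) ≤ (lv hw (s - 2 * D / 2 ^ j * (1 - 1 / 2 ^ m))).card := by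
    intro m
    induction m with
    | zero => simpa using hcard
    | succ m ih =>
      have hp : (0 : ℝ) < 1 / 2 ^ m := by positivity
      have hp1 : (1 : ℝ) / 2 ^ m ≤ 1 := by
        rw [div_le_one (by positivity)]; exact one_le_pow₀ (by norm_num)
      have hq : 0 < 2 * D / 2 ^ j := by positivity
      have e1 : s - 2 * D / 2 ^ j * (1 - 1 / 2 ^ m) - D / 2 ^ (j + m) =
          s - 2 * D / 2 ^ j * (1 - 1 / 2 ^ (m + 1)) := by
        rw [pow_add, pow_succ]; field_simp; ring
      have h1 := hC w hw (j + m) (s - 2 * D / 2 ^ j * (1 - 1 / 2 ^ m)) (by nlinarith)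
        (by
          rw [e1]
          have hp' : (0 : ℝ) < 1 / 2 ^ (m + 1) := by positivity
          nlinarith) ih
      rw [e1] at h1
      exact h1
  -- contradiction
  set s' := s - 2 * D / 2 ^ j with hs'
  have hs'0 : 0 < s' := by linarith
  have hF : ∀ m : ℕ, 32 ^ (j + m) ≤ (lv hw s').card := by
    intro m
    refine (hE m).trans (card_le_card fun x hx => ?_)
    have hp : (0 : ℝ) < 1 / 2 ^ m := by positivity
    have hq : 0 < 2 * D / 2 ^ j := by positivity
    rw [mem_lv hw (by nlinarith)] at hx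
    rw [mem_lv hw hs'0]
    nlinarith
  have h1 := hF (lv hw s').card
  have h2 : (lv hw s').card < 2 ^ (lv hw s').card := Nat.lt_two_pow_self
  have h3 : 2 ^ (lv hw s').card ≤ 32 ^ (j + (lv hw s').card) := by
    calc 2 ^ (lv hw s').card ≤ 32 ^ (lv hw s').card := Nat.pow_le_pow_left (by norm_num) _
      _ ≤ 32 ^ (j + (lv hw s').card) := Nat.pow_le_pow_right (by norm_num) (by omega)
  omega

/-- the infinite cluster is unique -/
lemma loc_unique {O : Set (E d)} (hloc : Loc O) {x y : V d} (hx : x ∈ InfV O)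
    (hy : y ∈ InfV O) : (gr O).Reachable x y := by
  obtain ⟨a, b, ha, hdense, hJ⟩ := hloc
  choose φ hφ1 hφ2 using hdense
  have h1 : ∀ v (i : Fin d), (gr O).Reachable (φ v) (φ (v + stp i)) := by
    intro v i
    refine (hJ v _ _ (hφ1 _) (hφ1 _) ?_ ?_).reachable
    · have := hφ2 v
      nlinarith [Nat.zero_le (a * ell v)]
    · have h4 := hφ2 (v + stp i)
      have h5 := ell_add_stp_le v i
      have h6 : a * ell (v + stp i) ≤ a * (ell v + 1) := Nat.mul_le_mul_left _ h5
      have h7 := one_le_ell v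
      have h8 : nm (φ (v + stp i) - v) ≤ nm (φ (v + stp i) - (v + stp i)) + 1 := by
        have := nm_tri (φ (v + stp i)) (v + stp i) v
        simpa using this
      nlinarith [Nat.zero_le (a * ell v)]
  have h2 : ∀ v, v ∈ InfV O → (gr O).Reachable v (φ v) := by
    intro v hv
    refine (hJ v _ _ hv (hφ1 _) (by simp) ?_).reachable
    have := hφ2 v
    nlinarith [Nat.zero_le (a * ell v)]
  have h3 : (gr O).Reachable (φ x) (φ y) := by
    have := box_conn d (gr O).ConnectedComponent (fun v => (gr O).connectedComponentMk (φ v)) 0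
      (max (nm x) (nm y)) (fun v i _ _ => by
        rw [SimpleGraph.ConnectedComponent.eq]; exact (h1 v i).symm) x y (by simp) (by simp)
    rwa [SimpleGraph.ConnectedComponent.eq] at this
  exact ((h2 x hx).trans h3).trans (h2 y hy).symm

theorem harm : S_HARM := by
  intro d hd O hloc o ho
  have hmono : ∀ x, Monotone fun k => it O o k x := fun x =>
    monotone_nat_of_le_succ fun k => it_mono O o k x
  have hbdd : ∀ x, BddAbove (Set.range fun k => it O o k x) := fun x =>
    ⟨1, by rintro _ ⟨k, rfl⟩; exact it_le_one O o k x⟩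
  set u : V d → ℝ := fun x => ⨆ k, it O o k x with hu
  have hlim : ∀ x, Tendsto (fun k => it O o k x) atTop (𝓝 (u x)) := fun x =>
    tendsto_atTop_ciSup (hmono x) (hbdd x)
  have hle : ∀ k x, it O o k x ≤ u x := fun k x => le_ciSup (hbdd x) k
  have huo : u o = 1 := by
    simp only [hu, it_o]; exact ciSup_const
  have hunn : ∀ x, 0 ≤ u x := fun x => (it_nonneg O o 0 x).trans (hle 0 x)
  have hharm : ∀ x, x ≠ o → dg O x * u x = ss O u x := by
    intro x hx
    have h1 : Tendsto (fun k => dg O x * it O o (k + 1) x) atTop (𝓝 (dg O x * u x)) :=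
      ((hlim x).comp (tendsto_add_atTop_nat 1)).const_mul _
    have h2 : Tendsto (fun k => ss O (it O o k) x) atTop (𝓝 (ss O u x)) := by
      unfold ss
      refine tendsto_finsetSum _ fun t _ => ?_
      by_cases h : ed x t ∈ O
      · simp only [h, if_true]; exact hlim _
      · simp only [h, if_false]; exact tendsto_const_nhds
    refine tendsto_nhds_unique h1 (h2.congr fun k => ?_)
    rw [dg_mul_it O o k hx]
  refine ⟨u, huo, ?_, fun x hx => ?_, fun ε hε => ?_⟩
  · intro x hx
    have h1 : Relation.ReflTransGen (gr O).Adj o x :=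
      (SimpleGraph.reachable_iff_reflTransGen _ _).mp (loc_unique hloc ho hx)
    clear hx
    induction h1 with
    | refl => rw [huo]; norm_num
    | @tail a b _ hab ih =>
      by_cases hb : b = o
      · rw [hb, huo]; norm_num
      · obtain ⟨t, ht1, ht2⟩ := adj_iff.mp hab.symm
        have h2 := hharm b hb
        have h3 : u a ≤ ss O u b := by
          have : (if ed b t ∈ O then u (nb b t) else 0) ≤ ss O u b :=
            single_le_sum (f := fun t => if ed b t ∈ O then u (nb b t) else 0)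
              (fun t _ => by split_ifs; exacts [hunn _, le_rfl]) (mem_univ t)
          rwa [if_pos ht2, ← ht1] at this
        by_contra hcon
        have h4 : u b = 0 := le_antisymm (not_lt.mp hcon) (hunn b)
        rw [h4, mul_zero] at h2
        linarith
  · rw [harmAt_iff, lap_eq, hharm x hx, sub_self]
  · have hfin : {x | ε < u x}.Finite := by
      by_contra hinf
      have hε1 : ε < 1 := by
        by_contra h
        push Not at h
        apply hinf
        have : {x | ε < u x} = ∅ := by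
          ext x
          simp only [Set.mem_ofPred_eq, Set.mem_empty_iff_false, iff_false, not_lt]
          refine le_trans ?_ h
          exact ciSup_le fun k => it_le_one O o k x
        rw [this]; exact Set.finite_empty
      obtain ⟨N, hN⟩ := level_bound hd hloc ho hε hε1.le
      obtain ⟨F, hF1, hF2⟩ := Set.Infinite.exists_subset_card_eq (s := {x | ε < u x}) hinf N
      have h1 : ∀ x ∈ F, ∀ᶠ k in atTop, ε < it O o k x := fun x hx =>
        (hlim x).eventually (lt_mem_nhds (hF1 hx))
      have h2 : ∀ᶠ k in atTop, ∀ x ∈ F, ε < it O o k x := by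
        rw [eventually_all_finset]; exact h1
      obtain ⟨k, hk⟩ := h2.exists
      have h3 := hN _ (sub_it O o k)
      have h4 : F ⊆ lv (sub_it O o k) ε := fun x hx =>
        (mem_lv _ hε).mpr (hk x hx).le
      have := card_le_card h4
      omega
    obtain ⟨R, hR⟩ := finite_boundV hfin
    refine ⟨R + 1, fun x hx => ?_⟩
    by_contra h
    push Not at h
    have := hR x h
    omega

end Pool.Agent.TH991
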