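import Pool.Agent.TH991.Near

/-!
# MP_b4265e_pr: an isoperimetric inequality on the lattice
-/

set_option autoImplicit false

open Finset
open scoped Classical

namespace Pool.Agent.TH991

open Pool.Agent.W844.VG

variable {d : ℕ}

/-- projection of a set along the direction `i` -/
noncomputable def prj (i : Fin d) (W : Finset (V d)) : Finset (V d) :=
  W.image fun w => Function.update w i 0

lemma lw3 (i j k : Fin d) (hij : i ≠ j) (hik : i ≠ k) (hjk : j ≠ k) (W : Finset (V d)) :
    W.card ^ 2 ≤ (prj i W).card * ((prj j W).card * (prj k W).card) := by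
  set pairs := (W ×ˢ W).filter fun q => Function.update q.1 i 0 = Function.update q.2 i 0
    with hpairs
  have h1 : W.card = ∑ b ∈ prj i W, (W.filter fun w => Function.update w i 0 = b).card :=
    card_eq_sum_card_fiberwise fun w hw => mem_image_of_mem _ hw
  have h2 : pairs.card =
      ∑ b ∈ prj i W, (W.filter fun w => Function.update w i 0 = b).card ^ 2 := by
    rw [card_eq_sum_card_fiberwise (f := fun q : V d × V d => Function.update q.1 i 0)
      (t := prj i W)]
    · refine sum_congr rfl fun b hb => ?_
      rw [sq, ← card_product]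
      congr 1
      ext ⟨x, y⟩
      simp only [hpairs, mem_filter, mem_product]
      constructor
      · rintro ⟨⟨⟨hx, hy⟩, h⟩, h'⟩
        exact ⟨⟨hx, h'⟩, hy, h ▸ h'⟩
      · rintro ⟨⟨hx, h⟩, hy, h'⟩
        exact ⟨⟨⟨hx, hy⟩, h.trans h'.symm⟩, h⟩
    · intro q hq
      have hq' := mem_filter.mp hq
      exact mem_image_of_mem _ (mem_product.mp hq'.1).1
  have h3 : W.card ^ 2 ≤ (prj i W).card * pairs.card := by
    have h4 := sq_sum_le_card_mul_sum_sq (s := prj i W)
      (f := fun b => ((W.filter fun w => Function.update w i 0 = b).card : ℝ))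
    have h5 : ((W.card ^ 2 : ℕ) : ℝ) ≤ (((prj i W).card * pairs.card : ℕ) : ℝ) := by
      rw [h2, h1]
      push_cast
      exact h4
    exact_mod_cast h5
  refine h3.trans (Nat.mul_le_mul_left _ ?_)
  rw [← card_product]
  refine card_le_card_of_injOn
    (fun q => (Function.update q.1 j 0, Function.update q.2 k 0)) (fun q hq => ?_) ?_
  · have hq' := mem_product.mp (mem_filter.mp (mem_coe.mp hq)).1
    exact mem_coe.mpr (mem_product.mpr ⟨mem_image_of_mem _ hq'.1, mem_image_of_mem _ hq'.2⟩)
  · rintro ⟨x, y⟩ hq ⟨x', y'⟩ hq' h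
    have e1 := (mem_filter.mp (mem_coe.mp hq)).2
    have e2 := (mem_filter.mp (mem_coe.mp hq')).2
    simp only [Prod.mk.injEq] at h
    obtain ⟨h6, h7⟩ := h
    have a1 : ∀ l, l ≠ i → x l = y l := fun l hl => by
      have := congrFun e1 l; simpa [Function.update_of_ne hl] using this
    have a2 : ∀ l, l ≠ i → x' l = y' l := fun l hl => by
      have := congrFun e2 l; simpa [Function.update_of_ne hl] using this
    have a3 : ∀ l, l ≠ j → x l = x' l := fun l hl => by
      have := congrFun h6 l; simpa [Function.update_of_ne hl] using this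
    have a4 : ∀ l, l ≠ k → y l = y' l := fun l hl => by
      have := congrFun h7 l; simpa [Function.update_of_ne hl] using this
    have hx : x = x' := by
      funext l
      by_cases hl : l = j
      · subst hl
        rw [a1 l hij.symm, a4 l hjk, a2 l hij.symm]
      · exact a3 l hl
    have hy : y = y' := by
      funext l
      by_cases hl : l = k
      · subst hl
        rw [← a1 l hik.symm, a3 l (Ne.symm hjk), a2 l hik.symm]
      · exact a4 l hl
    rw [hx, hy]

lemma prj_le (i : Fin d) (W : Finset (V d)) :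
    (prj i W).card ≤ (bd (ind (W : Set (V d)))).ncard := by
  have hfin := bd_ind_finite (K := (W : Set (V d))) W.finite_toSet
  rw [Set.ncard_eq_toFinset_card _ hfin]
  -- every line has a last point
  have key : ∀ b ∈ prj i W, ∃ w ∈ W, Function.update w i 0 = b ∧ w + stp i ∉ W := by
    intro b hb
    obtain ⟨w0, hw0, hwb⟩ := mem_image.mp hb
    set F := W.filter fun w => Function.update w i 0 = b with hF
    have hne : F.Nonempty := ⟨w0, mem_filter.mpr ⟨hw0, hwb⟩⟩
    obtain ⟨w, hw, hmax⟩ := exists_max_image F (fun w => w i) hne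
    have hw' := mem_filter.mp hw
    refine ⟨w, hw'.1, hw'.2, fun h => ?_⟩
    have h1 : w + stp i ∈ F := by
      refine mem_filter.mpr ⟨h, ?_⟩
      rw [← hw'.2]
      funext j
      by_cases hj : j = i
      · subst hj; simp
      · simp [Function.update_of_ne hj, stp_ne hj]
    have h2 := hmax _ h1
    simp [stp_same] at h2
  choose! f hf1 hf2 hf3 using key
  refine card_le_card_of_injOn (fun b => (f b, i)) (fun b hb => ?_) (fun b hb b' hb' h => ?_)
  · rw [mem_coe, Set.Finite.mem_toFinset, mem_bd_ind]
    intro h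
    exact hf3 b hb (mem_coe.mp (h.mpr (mem_coe.mpr (hf1 b hb))))
  · have h1 : f b = f b' := congrArg Prod.fst h
    rw [← hf2 b hb, ← hf2 b' hb', h1]

/-- isoperimetric inequality -/
theorem iso (hd : 3 ≤ d) (W : Finset (V d)) :
    W.card ^ 2 ≤ (bd (ind (W : Set (V d)))).ncard ^ 3 := by
  have h := lw3 (⟨0, by omega⟩ : Fin d) ⟨1, by omega⟩ ⟨2, by omega⟩ (by simp) (by simp) (by simp) W
  refine h.trans ?_
  have e : (bd (ind (W : Set (V d)))).ncard ^ 3 = (bd (ind (W : Set (V d)))).ncard *
    ((bd (ind (W : Set (V d)))).ncard * (bd (ind (W : Set (V d)))).ncard) := by ring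
  rw [e]
  exact Nat.mul_le_mul (prj_le _ W) (Nat.mul_le_mul (prj_le _ W) (prj_le _ W))

end Pool.Agent.TH991
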