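import Pool.Agent.TH991.Geo

/-!
# MP_b4265e_pr: closed chains around finite clusters
-/

set_option autoImplicit false

open Finset
open scoped Classical

namespace Pool.Agent.TH991

open Pool.Agent.W844.VG

variable {d : ℕ}

/-- indicator function of a set -/
noncomputable def ind (K : Set (V d)) : V d → ZMod 2 := fun x => if x ∈ K then 1 else 0

lemma mem_bd_ind {K : Set (V d)} {e : E d} :
    e ∈ bd (ind K) ↔ ¬ (e.1 + stp e.2 ∈ K ↔ e.1 ∈ K) := by
  rw [mem_bd]
  unfold ind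
  by_cases h1 : e.1 + stp e.2 ∈ K <;> by_cases h2 : e.1 ∈ K <;> simp [h1, h2]

lemma bd_ind_finite {K : Set (V d)} (hK : K.Finite) : (bd (ind K)).Finite := by
  have h1 : (K ×ˢ (Set.univ : Set (Fin d))).Finite := hK.prod Set.finite_univ
  have h2 : ((fun e : E d => (e.1 - stp e.2, e.2)) '' (K ×ˢ (Set.univ : Set (Fin d)))).Finite :=
    h1.image _
  refine (h1.union h2).subset fun e he => ?_
  rw [mem_bd_ind] at he
  by_cases h : e.1 ∈ K
  · exact Or.inl ⟨h, Set.mem_univ _⟩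
  · have h' : e.1 + stp e.2 ∈ K := by
      by_contra h'; exact he ⟨fun a => absurd a h', fun a => absurd a h⟩
    exact Or.inr ⟨(e.1 + stp e.2, e.2), ⟨h', Set.mem_univ _⟩, by simp⟩

lemma finite_bound {S : Set (E d)} (hS : S.Finite) : ∃ r : ℕ, ∀ e ∈ S, nm e.1 ≤ r := by
  obtain ⟨r, hr⟩ := (hS.image fun e => nm e.1).bddAbove
  exact ⟨r, fun e he => hr ⟨e, he, rfl⟩⟩

lemma finite_boundV {S : Set (V d)} (hS : S.Finite) : ∃ r : ℕ, ∀ e ∈ S, nm e ≤ r := by
  obtain ⟨r, hr⟩ := (hS.image fun e => nm e).bddAbove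
  exact ⟨r, fun e he => hr ⟨e, he, rfl⟩⟩

/-- a function with bounded boundary is constant far away -/
lemma far_const (hd : 2 ≤ d) {g : V d → ZMod 2} {r : ℕ} (hr : ∀ e ∈ bd g, nm e.1 ≤ r)
    {x y : V d} (hx : r < nm x) (hy : r < nm y) : g x = g y := by
  refine ann_conn d hd (ZMod 2) g 0 r (max (nm x) (nm y)) (fun z i h1 _ _ _ => ?_) x y
    (by simpa using hx) (by simp) (by simpa using hy) (by simp)
  by_contra h
  have := hr (z, i) (mem_bd.mpr h)
  simp only [sub_zero] at h1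
  simp only at this
  omega

lemma ray_pos {g : V d → ZMod 2} (v : V d) (i : Fin d) (n : ℕ)
    (h : g (v + (n : ℤ) • stp i) ≠ g v) : ∃ k : ℕ, k < n ∧ (v + (k : ℤ) • stp i, i) ∈ bd g := by
  induction n with
  | zero => simp at h
  | succ n ih =>
    by_cases h1 : g (v + (n : ℤ) • stp i) ≠ g v
    · obtain ⟨k, hk, hk'⟩ := ih h1
      exact ⟨k, by omega, hk'⟩
    · push Not at h1
      refine ⟨n, by omega, ?_⟩
      rw [mem_bd]
      have h2 : v + ((n + 1 : ℕ) : ℤ) • stp i = v + (n : ℤ) • stp i + stp i := by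
        push_cast; rw [add_smul, one_smul]; abel
      rw [h2] at h
      simp only
      rw [h1]; exact h

lemma ray_neg {g : V d → ZMod 2} (v : V d) (i : Fin d) (n : ℕ)
    (h : g (v - (n : ℤ) • stp i) ≠ g v) :
    ∃ k : ℕ, k < n ∧ (v - ((k : ℤ) + 1) • stp i, i) ∈ bd g := by
  induction n with
  | zero => simp at h
  | succ n ih =>
    by_cases h1 : g (v - (n : ℤ) • stp i) ≠ g v
    · obtain ⟨k, hk, hk'⟩ := ih h1
      exact ⟨k, by omega, hk'⟩
    · push Not at h1
      refine ⟨n, by omega, ?_⟩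
      rw [mem_bd]
      have h2 : v - (n : ℤ) • stp i = v - ((n : ℤ) + 1) • stp i + stp i := by
        rw [add_smul, one_smul]; abel
      have h3 : v - ((n + 1 : ℕ) : ℤ) • stp i = v - ((n : ℤ) + 1) • stp i := by push_cast; rfl
      rw [h3] at h
      simp only
      rw [← h2, h1]; exact h.symm

lemma far_pos (v : V d) (i : Fin d) (r : ℕ) : ∃ n : ℕ, r < nm (v + (n : ℤ) • stp i) := by
  refine ⟨r + nm v + 1, ?_⟩
  have h1 := nm_zsmul_stp (d := d) i ((r + nm v + 1 : ℕ) : ℤ)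
  have h2 := nm_sub_le (v + ((r + nm v + 1 : ℕ) : ℤ) • stp i) v
  rw [add_sub_cancel_left, h1] at h2
  simp only [Int.natAbs_natCast] at h2
  omega

lemma far_neg (v : V d) (i : Fin d) (r : ℕ) : ∃ n : ℕ, r < nm (v - (n : ℤ) • stp i) := by
  refine ⟨r + nm v + 1, ?_⟩
  have h1 := nm_zsmul_stp (d := d) i ((r + nm v + 1 : ℕ) : ℤ)
  have h2 := nm_sub_le v (v - ((r + nm v + 1 : ℕ) : ℤ) • stp i)
  rw [sub_sub_cancel, h1] at h2
  simp only [Int.natAbs_natCast] at h2
  omega

/-- enclosing cut -/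
lemma enclose (hd : 2 ≤ d) {K : Set (V d)} (hK : K.Finite) {v : V d} (hv : v ∈ K) :
    ∃ (g : V d → ZMod 2) (r : ℕ), bd g ⊆ bd (ind K) ∧ StarConn (bd g) ∧
      ∀ x, r < nm x → g x ≠ g v := by
  obtain ⟨r1, hr1⟩ := finite_bound (bd_ind_finite hK)
  obtain ⟨r2, hr2⟩ := finite_boundV hK
  obtain ⟨n, hn⟩ := far_pos v ⟨0, by omega⟩ (r1 + r2)
  set w := v + (n : ℤ) • stp (⟨0, by omega⟩ : Fin d) with hw
  have hwK : w ∉ K := fun h => by have := hr2 w h; omega
  have hne : ind K v ≠ ind K w := by simp [ind, hv, hwK]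
  obtain ⟨g, h1, h2, h3⟩ := cut d (ind K) v w (bd_ind_finite hK) hne
  refine ⟨g, r1 + r2, h1, h3, fun x hx => ?_⟩
  have : g x = g w := far_const hd (fun e he => (hr1 e (h1 he)).trans (Nat.le_add_right _ _)) hx hn
  rw [this]; exact h2.symm

lemma const_reach {O : Set (E d)} {g : V d → ZMod 2} (hg : ∀ e ∈ bd g, e ∉ O) {x y : V d}
    (h : (gr O).Reachable x y) : g y = g x := by
  obtain ⟨w⟩ := h
  induction w with
  | nil => rfl
  | @cons a b c hab w ih =>
    rw [ih]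
    obtain ⟨i, ⟨rfl, h⟩ | ⟨rfl, h⟩⟩ := hab
    · by_contra hne; exact hg (a, i) (mem_bd.mpr hne) h
    · by_contra hne; exact hg (b, i) (mem_bd.mpr (Ne.symm hne)) h

theorem near : S_NEAR := by
  intro d hd O v L i hL
  set K : Set (V d) := {y | ∃ x, nm (x - v) ≤ L ∧ (gr O).Reachable x y} with hKdef
  have hKfin : K.Finite := by
    have : K = ⋃ x ∈ {x : V d | nm (x - v) ≤ L}, {y | (gr O).Reachable x y} := by
      ext y; simp [hKdef]
    rw [this]
    refine (finite_ball v L).biUnion fun x hx => ?_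
    by_contra h
    exact hL x hx h
  have hball : ∀ x, nm (x - v) ≤ L → x ∈ K := fun x hx => ⟨x, hx, SimpleGraph.Reachable.refl _⟩
  have hv : v ∈ K := hball v (by simp)
  obtain ⟨g, r, h1, h2, h3⟩ := enclose hd hKfin hv
  have hclosed : ∀ e ∈ bd g, e ∉ O := by
    intro e he heO
    have h4 := mem_bd_ind.mp (h1 he)
    apply h4
    constructor
    · rintro ⟨x, hx, hr⟩
      exact ⟨x, hx, hr.trans (gr_adj_step (i := e.2) (x := e.1) heO).symm.reachable⟩
    · rintro ⟨x, hx, hr⟩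
      exact ⟨x, hx, hr.trans (gr_adj_step (i := e.2) (x := e.1) heO).reachable⟩
  obtain ⟨n, hn⟩ := far_pos v i r
  obtain ⟨k, -, hk⟩ := ray_pos v i n (h3 _ hn)
  obtain ⟨n', hn'⟩ := far_neg v i r
  obtain ⟨k', -, hk'⟩ := ray_neg v i n' (h3 _ hn')
  have hkL : L ≤ k := by
    by_contra hlt
    push Not at hlt
    have h4 := mem_bd_ind.mp (h1 hk)
    apply h4
    have ha : v + (k : ℤ) • stp i ∈ K := hball _ (by
      rw [add_sub_cancel_left, nm_zsmul_stp]; simp; omega)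
    have hb : v + (k : ℤ) • stp i + stp i ∈ K := hball _ (by
      have : v + (k : ℤ) • stp i + stp i - v = ((k : ℤ) + 1) • stp i := by
        rw [add_smul, one_smul]; abel
      rw [this, nm_zsmul_stp]; omega)
    exact ⟨fun _ => ha, fun _ => hb⟩
  refine ⟨k, hkL, simple_chain d O (bd g) hclosed h2 _ hk _ hk' k ?_⟩
  have : (v - ((k' : ℤ) + 1) • stp i) - (v + (k : ℤ) • stp i) = (-((k' : ℤ) + 1 + k)) • stp i := by
    module
  simp only
  rw [this, nm_zsmul_stp]
  omega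

/-- a finite cluster of large diameter is enclosed by a long closed chain -/
theorem reach_chain (hd : 2 ≤ d) {O : Set (E d)} {v x : V d} {r : ℕ} (hv : v ∉ InfV O)
    (hvx : (gr O).Reachable v x) (hr : r ≤ nm (x - v)) :
    ∃ (e : E d) (l : ℕ), nm (e.1 - v) ≤ l + 1 ∧ Chain O e (r + l) := by
  set K : Set (V d) := {y | (gr O).Reachable v y} with hKdef
  have hKfin : K.Finite := by by_contra h; exact hv h
  have hvK : v ∈ K := SimpleGraph.Reachable.refl _
  obtain ⟨g, R, h1, h2, h3⟩ := enclose hd hKfin hvK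
  have hclosed : ∀ e ∈ bd g, e ∉ O := by
    intro e he heO
    have h4 := mem_bd_ind.mp (h1 he)
    apply h4
    constructor
    · intro hr
      exact SimpleGraph.Reachable.trans hr (gr_adj_step (i := e.2) (x := e.1) heO).symm.reachable
    · intro hr
      exact SimpleGraph.Reachable.trans hr (gr_adj_step (i := e.2) (x := e.1) heO).reachable
  have hgx : g x = g v := const_reach hclosed hvx
  obtain ⟨j, hj⟩ : ∃ j : Fin d, ((x - v) j).natAbs = nm (x - v) := by
    have hne : (univ : Finset (Fin d)).Nonempty := ⟨⟨0, by omega⟩, mem_univ _⟩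
    obtain ⟨j, -, hj⟩ := Finset.exists_mem_eq_sup _ hne (fun i => ((x - v) i).natAbs)
    exact ⟨j, hj.symm⟩
  simp only [Pi.sub_apply] at hj
  obtain ⟨n1, hn1⟩ := far_pos v j R
  obtain ⟨k1, -, hk1⟩ := ray_pos v j n1 (h3 _ hn1)
  obtain ⟨n2, hn2⟩ := far_neg v j R
  obtain ⟨k2, -, hk2⟩ := ray_neg v j n2 (h3 _ hn2)
  obtain ⟨n3, hn3⟩ := far_pos x j R
  obtain ⟨k3, -, hk3⟩ := ray_pos (g := g) x j n3 (by rw [hgx]; exact h3 _ hn3)
  obtain ⟨n4, hn4⟩ := far_neg x j R
  obtain ⟨k4, -, hk4⟩ := ray_neg (g := g) x j n4 (by rw [hgx]; exact h3 _ hn4)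
  rcases le_total (v j) (x j) with h | h
  · refine ⟨(v - ((k2 : ℤ) + 1) • stp j, j), k2, ?_, ?_⟩
    · have : v - ((k2 : ℤ) + 1) • stp j - v = (-((k2 : ℤ) + 1)) • stp j := by rw [neg_smul]; abel
      simp only
      rw [this, nm_zsmul_stp]; omega
    · refine simple_chain d O (bd g) hclosed h2 _ hk2 _ hk3 _ ?_
      refine le_trans ?_ (natAbs_le_nm _ j)
      simp only [Pi.sub_apply, Pi.add_apply, Pi.smul_apply, stp_same, smul_eq_mul, mul_one]
      omega
  · refine ⟨(v + (k1 : ℤ) • stp j, j), k1, ?_, ?_⟩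
    · simp only
      rw [add_sub_cancel_left, nm_zsmul_stp]; omega
    · refine simple_chain d O (bd g) hclosed h2 _ hk1 _ hk4 _ ?_
      refine le_trans ?_ (natAbs_le_nm _ j)
      simp only [Pi.sub_apply, Pi.add_apply, Pi.smul_apply, stp_same, smul_eq_mul, mul_one]
      omega

end Pool.Agent.TH991
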