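import Pool.Agent.TH991.Geo

/-!
# MP_b4265e_pr: the pattern
-/

set_option autoImplicit false

open Finset
open scoped Classical

namespace Pool.Agent.TH991

open Pool.Agent.W844.VG

variable {d : ℕ}

lemma mem_AL {i k : Fin d} {v y : V d} : (v + y, k) ∈ AL i v ↔
    (k = i ∧ (y = 0 ∨ ∃ j, j ≠ i ∧ (y = stp j ∨ y = -stp j))) ∨
    (k ≠ i ∧ (y = 0 ∨ y = -stp k ∨ y = stp i ∨ y = stp i - stp k)) := by
  unfold AL
  simp only [Set.mem_ofPred_eq, Prod.mk.injEq]
  constructor
  · rintro (⟨h1, h2⟩ | ⟨j, hj, ⟨h1, h2⟩ | ⟨h1, h2⟩ | ⟨h1, h2⟩ | ⟨h1, h2⟩ | ⟨h1, h2⟩ | ⟨h1, h2⟩⟩)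
    · exact Or.inl ⟨h2, Or.inl (add_eq_left.mp h1)⟩
    · subst h2; exact Or.inr ⟨hj, Or.inl (add_eq_left.mp h1)⟩
    · subst h2; refine Or.inr ⟨hj, Or.inr (Or.inl ?_)⟩
      rw [sub_eq_add_neg] at h1; exact add_left_cancel h1
    · subst h2; exact Or.inr ⟨hj, Or.inr (Or.inr (Or.inl (add_left_cancel h1)))⟩
    · subst h2; refine Or.inr ⟨hj, Or.inr (Or.inr (Or.inr ?_))⟩
      rw [add_sub_assoc] at h1; exact add_left_cancel h1
    · exact Or.inl ⟨h2, Or.inr ⟨j, hj, Or.inl (add_left_cancel h1)⟩⟩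
    · refine Or.inl ⟨h2, Or.inr ⟨j, hj, Or.inr ?_⟩⟩
      rw [sub_eq_add_neg] at h1; exact add_left_cancel h1
  · rintro (⟨h1, h2 | ⟨j, hj, h2 | h2⟩⟩ | ⟨h1, h2 | h2 | h2 | h2⟩)
    · exact Or.inl ⟨by rw [h2, add_zero], h1⟩
    · exact Or.inr ⟨j, hj, by simp [h1, h2]⟩
    · exact Or.inr ⟨j, hj, by simp [h1, h2, sub_eq_add_neg]⟩
    · exact Or.inr ⟨k, h1, by simp [h2]⟩
    · exact Or.inr ⟨k, h1, by simp [h2, sub_eq_add_neg]⟩
    · exact Or.inr ⟨k, h1, by simp [h2]⟩
    · exact Or.inr ⟨k, h1, by simp [h2, add_sub_assoc]⟩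

lemma mem_TT {i : Fin d} {v y : V d} : v + y ∈ TT i v ↔
    y = 0 ∨ y = stp i ∨ ∃ j, j ≠ i ∧ (y = stp i + stp j ∨ y = stp i - stp j) := by
  unfold TT
  simp only [Set.mem_ofPred_eq, add_eq_left, add_assoc, add_sub_assoc, add_right_inj]

lemma nm_TT {i : Fin d} {v x : V d} (h : x ∈ TT i v) : nm (x - v) ≤ 1 := by
  obtain ⟨y, rfl⟩ : ∃ y, x = v + y := ⟨x - v, by abel⟩
  rw [mem_TT] at h
  rw [add_sub_cancel_left]
  rcases h with h | h | ⟨j, hj, h | h⟩
  · simp [h]
  · simp [h]
  · rw [nm_le_iff]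
    intro k
    rw [h]
    simp only [Pi.add_apply, stp_apply]
    by_cases h1 : k = i
    · have h2 : k ≠ j := fun h2 => hj (h2 ▸ h1)
      rw [if_pos h1, if_neg h2]; simp
    · rw [if_neg h1]; split_ifs <;> simp
  · rw [nm_le_iff]
    intro k
    rw [h]
    simp only [Pi.sub_apply, stp_apply]
    by_cases h1 : k = i
    · have h2 : k ≠ j := fun h2 => hj (h2 ▸ h1)
      rw [if_pos h1, if_neg h2]; simp
    · rw [if_neg h1]; split_ifs <;> simp

/-- edges at a pattern vertex -/
lemma pat_edge {O : Set (E d)} {i : Fin d} {v : V d} (h : Pat O i v) {x : V d}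
    (hx : x ∈ TT i v) (k : Fin d) : ((x, k) ∈ O ↔ (x, k) ∈ AL i v) ∧
      ((x - stp k, k) ∈ O ↔ (x - stp k, k) ∈ AL i v) := by
  have h1 := nm_TT hx
  constructor
  · rw [h (x, k) (by simpa using h1.trans (by norm_num))]
    simp [hx]
  · have h2 : nm (x - stp k - v) ≤ 4 := by
      have := nm_sub_stp_le (x - v) k
      rw [sub_right_comm] at this
      omega
    rw [h (x - stp k, k) h2]
    simp [hx]

section coords

variable (i j k : Fin d)

lemma stp_inj {i j : Fin d} : (stp i : V d) = stp j ↔ i = j := by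
  constructor
  · intro h
    by_contra hij
    have := congrFun h i
    rw [stp_same, stp_ne hij] at this
    norm_num at this
  · rintro rfl; rfl

lemma stp_ne_zero (i : Fin d) : (stp i : V d) ≠ 0 := by
  intro h
  have := congrFun h i
  rw [stp_same] at this
  simp at this

lemma neg_stp_ne {i j : Fin d} : (-stp i : V d) ≠ stp j := by
  intro h
  have := congrFun h i
  rw [Pi.neg_apply, stp_same, stp_apply] at this
  split_ifs at this <;> omega

end coords

/-- a vector with `i`-coordinate `1` -/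
lemma al_of_one {i k : Fin d} {v y : V d} (hy : y i = 1) : (v + y, k) ∈ AL i v ↔
    (k ≠ i ∧ (y = stp i ∨ y = stp i - stp k)) := by
  rw [mem_AL]
  constructor
  · rintro (⟨h1, h2 | ⟨j, hj, h2 | h2⟩⟩ | ⟨h1, h2 | h2 | h2 | h2⟩)
    · rw [h2] at hy; simp at hy
    · rw [h2, stp_ne hj.symm] at hy; norm_num at hy
    · rw [h2, Pi.neg_apply, stp_ne hj.symm] at hy; norm_num at hy
    · rw [h2] at hy; simp at hy
    · rw [h2, Pi.neg_apply, stp_ne h1.symm] at hy; norm_num at hy
    · exact ⟨h1, Or.inl h2⟩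
    · exact ⟨h1, Or.inr h2⟩
  · rintro ⟨h1, h2 | h2⟩
    · exact Or.inr ⟨h1, Or.inr (Or.inr (Or.inl h2))⟩
    · exact Or.inr ⟨h1, Or.inr (Or.inr (Or.inr h2))⟩

lemma harm_v {O : Set (E d)} {i : Fin d} {v : V d} {u : V d → ℝ} (h : Pat O i v)
    (hu : HarmAt O u v) :
    (u (v + stp i) - u v) + ∑ k ∈ univ.erase i, ((u (v + stp k) - u v) + (u (v - stp k) - u v))
      = 0 := by
  unfold HarmAt at hu
  rw [← add_sum_erase univ _ (mem_univ i)] at hu
  have hv : v ∈ TT i v := Or.inl rfl
  have h1 : (v, i) ∈ O := (pat_edge h hv i).1.mpr (Or.inl rfl)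
  have h2 : (v - stp i, i) ∉ O := by
    rw [(pat_edge h hv i).2, sub_eq_add_neg, mem_AL]
    rintro (⟨_, h2 | ⟨j, hj, h2 | h2⟩⟩ | ⟨h1, _⟩)
    · exact stp_ne_zero i (neg_eq_zero.mp h2)
    · exact neg_stp_ne h2
    · exact hj (stp_inj.mp (neg_inj.mp h2)).symm
    · exact h1 rfl
  rw [if_pos h1, if_neg h2, add_zero] at hu
  rw [← hu]
  congr 1
  refine sum_congr rfl fun k hk => ?_
  have hki := ne_of_mem_erase hk
  have h3 : (v, k) ∈ O := (pat_edge h hv k).1.mpr (Or.inr ⟨k, hki, Or.inl rfl⟩)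
  have h4 : (v - stp k, k) ∈ O := (pat_edge h hv k).2.mpr (Or.inr ⟨k, hki, Or.inr (Or.inl rfl)⟩)
  rw [if_pos h3, if_pos h4]

lemma harm_w {O : Set (E d)} {i : Fin d} {v : V d} {u : V d → ℝ} (h : Pat O i v)
    (hu : HarmAt O u (v + stp i)) :
    (u v - u (v + stp i)) + ∑ k ∈ univ.erase i, ((u (v + stp i + stp k) - u (v + stp i)) +
      (u (v + stp i - stp k) - u (v + stp i))) = 0 := by
  unfold HarmAt at hu
  rw [← add_sum_erase univ _ (mem_univ i)] at hu
  have hw : v + stp i ∈ TT i v := Or.inr (Or.inl rfl)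
  have h1 : (v + stp i, i) ∉ O := by
    rw [(pat_edge h hw i).1, al_of_one (stp_same i)]
    exact fun h => h.1 rfl
  have h2 : (v + stp i - stp i, i) ∈ O := by
    rw [(pat_edge h hw i).2, add_sub_cancel_right]
    exact Or.inl rfl
  rw [if_neg h1, if_pos h2, zero_add, add_sub_cancel_right] at hu
  rw [← hu]
  congr 1
  refine sum_congr rfl fun k hk => ?_
  have hki := ne_of_mem_erase hk
  have h3 : (v + stp i, k) ∈ O := (pat_edge h hw k).1.mpr
    (Or.inr ⟨k, hki, Or.inr (Or.inr (Or.inl rfl))⟩)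
  have h4 : (v + stp i - stp k, k) ∈ O := (pat_edge h hw k).2.mpr
    (Or.inr ⟨k, hki, Or.inr (Or.inr (Or.inr (Or.inl rfl)))⟩)
  rw [if_pos h3, if_pos h4]

lemma harm_p {O : Set (E d)} {i j : Fin d} {v : V d} {u : V d → ℝ} (h : Pat O i v) (hj : j ≠ i)
    (hu : HarmAt O u (v + stp i + stp j)) :
    (u (v + stp j) - u (v + stp i + stp j)) + (u (v + stp i) - u (v + stp i + stp j)) = 0 := by
  have hx : v + stp i + stp j ∈ TT i v := Or.inr (Or.inr ⟨j, hj, Or.inl rfl⟩)
  unfold HarmAt at hu
  rw [Fintype.sum_eq_add i j hj.symm] at hu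
  · have h1 : (v + stp i + stp j, i) ∉ O := by
      rw [(pat_edge h hx i).1, add_assoc, al_of_one (by simp [stp_same, stp_ne hj.symm])]
      exact fun h => h.1 rfl
    have h2 : (v + stp i + stp j - stp i, i) ∈ O := by
      rw [(pat_edge h hx i).2]
      exact Or.inr ⟨j, hj, Or.inr (Or.inr (Or.inr (Or.inr (Or.inl (by
        rw [add_right_comm, add_sub_cancel_right])))))⟩
    have h3 : (v + stp i + stp j, j) ∉ O := by
      rw [(pat_edge h hx j).1, add_assoc, al_of_one (by simp [stp_same, stp_ne hj.symm])]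
      rintro ⟨_, h3 | h3⟩
      · exact stp_ne_zero j (add_eq_left.mp h3)
      · rw [sub_eq_add_neg] at h3
        exact neg_stp_ne (add_left_cancel h3).symm
    have h4 : (v + stp i + stp j - stp j, j) ∈ O := by
      rw [(pat_edge h hx j).2, add_sub_cancel_right]
      exact Or.inr ⟨j, hj, Or.inr (Or.inr (Or.inl rfl))⟩
    rw [if_neg h1, if_pos h2, if_neg h3, if_pos h4, zero_add, zero_add, add_sub_cancel_right] at hu
    have e1 : v + stp i + stp j - stp i = v + stp j := by abel
    rw [e1] at hu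
    exact hu
  · intro k ⟨hki, hkj⟩
    have h1 : (v + stp i + stp j, k) ∉ O := by
      rw [(pat_edge h hx k).1, add_assoc, al_of_one (by simp [stp_same, stp_ne hj.symm])]
      rintro ⟨_, h3 | h3⟩
      · exact stp_ne_zero j (add_eq_left.mp h3)
      · rw [sub_eq_add_neg] at h3
        exact neg_stp_ne (add_left_cancel h3).symm
    have h2 : (v + stp i + stp j - stp k, k) ∉ O := by
      rw [(pat_edge h hx k).2, add_assoc, add_sub_assoc,
        al_of_one (by simp [stp_same, stp_ne hj.symm, stp_ne hki.symm])]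
      rintro ⟨_, h3 | h3⟩
      · rw [add_sub_assoc, add_eq_left, sub_eq_zero, stp_inj] at h3
        exact hkj h3.symm
      · rw [sub_left_inj, add_eq_left] at h3
        exact stp_ne_zero j h3
    rw [if_neg h1, if_neg h2, add_zero]

lemma harm_m {O : Set (E d)} {i j : Fin d} {v : V d} {u : V d → ℝ} (h : Pat O i v) (hj : j ≠ i)
    (hu : HarmAt O u (v + stp i - stp j)) :
    (u (v - stp j) - u (v + stp i - stp j)) + (u (v + stp i) - u (v + stp i - stp j)) = 0 := by
  have hx : v + stp i - stp j ∈ TT i v := Or.inr (Or.inr ⟨j, hj, Or.inr rfl⟩)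
  unfold HarmAt at hu
  rw [Fintype.sum_eq_add i j hj.symm] at hu
  · have h1 : (v + stp i - stp j, i) ∉ O := by
      rw [(pat_edge h hx i).1, add_sub_assoc, al_of_one (by simp [stp_same, stp_ne hj.symm])]
      exact fun h => h.1 rfl
    have h2 : (v + stp i - stp j - stp i, i) ∈ O := by
      rw [(pat_edge h hx i).2]
      exact Or.inr ⟨j, hj, Or.inr (Or.inr (Or.inr (Or.inr (Or.inr (by
        rw [sub_right_comm, add_sub_cancel_right])))))⟩
    have h3 : (v + stp i - stp j, j) ∈ O := by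
      rw [(pat_edge h hx j).1]
      exact Or.inr ⟨j, hj, Or.inr (Or.inr (Or.inr (Or.inl rfl)))⟩
    have h4 : (v + stp i - stp j - stp j, j) ∉ O := by
      rw [(pat_edge h hx j).2, add_sub_assoc, add_sub_assoc,
        al_of_one (by simp [stp_same, stp_ne hj.symm])]
      rintro ⟨_, h3 | h3⟩
      · have := congrFun h3 j
        simp [stp_same, stp_ne hj] at this
      · rw [sub_left_inj, sub_eq_self] at h3
        exact stp_ne_zero j h3
    rw [if_neg h1, if_pos h2, if_pos h3, if_neg h4, zero_add, add_zero, sub_add_cancel] at hu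
    have e1 : v + stp i - stp j - stp i = v - stp j := by abel
    rw [e1] at hu
    exact hu
  · intro k ⟨hki, hkj⟩
    have h1 : (v + stp i - stp j, k) ∉ O := by
      rw [(pat_edge h hx k).1, add_sub_assoc, al_of_one (by simp [stp_same, stp_ne hj.symm])]
      rintro ⟨_, h3 | h3⟩
      · exact stp_ne_zero j (sub_eq_self.mp h3)
      · rw [sub_right_inj, stp_inj] at h3
        exact hkj h3.symm
    have h2 : (v + stp i - stp j - stp k, k) ∉ O := by
      rw [(pat_edge h hx k).2, add_sub_assoc, add_sub_assoc,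
        al_of_one (by simp [stp_same, stp_ne hj.symm, stp_ne hki.symm])]
      rintro ⟨_, h3 | h3⟩
      · have := congrFun h3 j
        simp [stp_same, stp_ne hj, stp_ne (Ne.symm hkj)] at this
      · rw [sub_left_inj, sub_eq_self] at h3
        exact stp_ne_zero j h3
    rw [if_neg h1, if_neg h2, add_zero]

theorem patz : S_PATZ := by
  intro d hd O i v u hP hu
  have hv := harm_v hP (hu v (Or.inl rfl))
  have hw := harm_w hP (hu _ (Or.inr (Or.inl rfl)))
  have hs : ∑ k ∈ univ.erase i, ((u (v + stp i + stp k) - u (v + stp i)) +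
      (u (v + stp i - stp k) - u (v + stp i))) = ∑ k ∈ univ.erase i,
      (((u (v + stp k) - u v) + (u (v - stp k) - u v)) / 2 + (u v - u (v + stp i))) := by
    refine sum_congr rfl fun k hk => ?_
    have hki := ne_of_mem_erase hk
    have h1 := harm_p hP hki (hu _ (Or.inr (Or.inr ⟨k, hki, Or.inl rfl⟩)))
    have h2 := harm_m hP hki (hu _ (Or.inr (Or.inr ⟨k, hki, Or.inr rfl⟩)))
    linarith
  rw [hs, sum_add_distrib, ← sum_div, sum_const, nsmul_eq_mul] at hw
  have hc : (0 : ℝ) ≤ ((univ.erase i).card : ℝ) := Nat.cast_nonneg _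
  set A := ∑ k ∈ univ.erase i, ((u (v + stp k) - u v) + (u (v - stp k) - u v)) with hA
  have hA' : A = u v - u (v + stp i) := by linarith
  rw [hA'] at hw
  have h3 : (3 / 2 + ((univ.erase i).card : ℝ)) * (u v - u (v + stp i)) = 0 := by linarith
  rcases mul_eq_zero.mp h3 with h4 | h4
  · linarith
  · linarith

/-- the central edge of the pattern lies on an open cycle of length four -/
lemma pat_cycle {O : Set (E d)} {i j : Fin d} {v : V d} (h : Pat O i v) (hj : j ≠ i) :
    (v, i) ∈ O ∧ (v, j) ∈ O ∧ (v + stp i, j) ∈ O ∧ (v + stp j, i) ∈ O := by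
  have hv : v ∈ TT i v := Or.inl rfl
  have hw : v + stp i ∈ TT i v := Or.inr (Or.inl rfl)
  have hx : v + stp i + stp j ∈ TT i v := Or.inr (Or.inr ⟨j, hj, Or.inl rfl⟩)
  refine ⟨(pat_edge h hv i).1.mpr (Or.inl rfl),
    (pat_edge h hv j).1.mpr (Or.inr ⟨j, hj, Or.inl rfl⟩),
    (pat_edge h hw j).1.mpr (Or.inr ⟨j, hj, Or.inr (Or.inr (Or.inl rfl))⟩), ?_⟩
  have h1 := (pat_edge h hx i).2
  have e1 : v + stp i + stp j - stp i = v + stp j := by abel
  rw [e1] at h1
  exact h1.mpr (Or.inr ⟨j, hj, Or.inr (Or.inr (Or.inr (Or.inr (Or.inl rfl))))⟩)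

/-- the ball of radius four around a pattern is connected -/
lemma pat_conn (hd : 2 ≤ d) {O : Set (E d)} {i : Fin d} {v : V d} (h : Pat O i v) {x y : V d}
    (hx : nm (x - v) ≤ 4) (hy : nm (y - v) ≤ 4) : (gr O).Reachable x y := by
  have hopen : ∀ (x : V d) (k : Fin d), nm (x - v) ≤ 4 → x ∉ TT i v → x + stp k ∉ TT i v →
      (gr O).Reachable x (x + stp k) := fun x k h1 h2 h3 =>
    (gr_adj_step ((h (x, k) h1).mpr (Or.inl ⟨h2, h3⟩))).reachable
  obtain ⟨j, hj⟩ : ∃ j : Fin d, j ≠ i := by
    have : Nontrivial (Fin d) := Fin.nontrivial_iff_two_le.mpr hd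
    exact exists_ne i
  -- reference point
  set z : V d := v + stp j + stp j with hz
  have hz2 : nm (z - v) = 2 := by
    have : z - v = (2 : ℤ) • stp j := by rw [hz, two_smul]; abel
    rw [this, nm_zsmul_stp]; rfl
  -- the annulus
  have hann : ∀ x, 1 < nm (x - v) → nm (x - v) ≤ 4 → (gr O).Reachable x z := by
    intro x h1 h2
    have := ann_conn d hd (gr O).ConnectedComponent (fun x => (gr O).connectedComponentMk x) v 1 4
      (fun x k h1 h2 h3 _ => by
        rw [SimpleGraph.ConnectedComponent.eq]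
        refine (hopen x k h2 (fun h => ?_) (fun h => ?_)).symm
        · have := nm_TT h; omega
        · have := nm_TT h; omega) x z h1 h2 (by omega) (by omega)
    rwa [SimpleGraph.ConnectedComponent.eq] at this
  -- vertices outside the pattern
  have hout : ∀ x, nm (x - v) ≤ 4 → x ∉ TT i v → (gr O).Reachable x z := by
    intro x h1 h2
    by_cases h3 : 1 < nm (x - v)
    · exact hann x h3 h1
    · have h4 : x - v ≠ 0 := fun h4 => h2 (Or.inl (sub_eq_zero.mp h4))
      obtain ⟨k, hk⟩ := Function.ne_iff.mp h4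
      have h5 := natAbs_le_nm (x - v) k
      simp only [Pi.zero_apply] at hk
      have h6 : (x - v) k = 1 ∨ (x - v) k = -1 := by omega
      rcases h6 with h6 | h6
      · have h7 : 1 < nm (x + stp k - v) := by
          have := natAbs_le_nm (x + stp k - v) k
          have e : (x + stp k - v) k = 2 := by
            have : (x + stp k - v) k = (x - v) k + (stp k : V d) k := by
              simp only [Pi.sub_apply, Pi.add_apply]; ring
            rw [this, h6, stp_same]; norm_num
          rw [e] at this; simp at this; omega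
        have h8 : nm (x + stp k - v) ≤ 4 := by
          have := nm_add_stp_le (x - v) k
          rw [sub_add_eq_add_sub] at this; omega
        refine (hopen x k h1 h2 fun h => ?_).trans (hann _ h7 h8)
        have := nm_TT h; omega
      · have h7 : 1 < nm (x - stp k - v) := by
          have := natAbs_le_nm (x - stp k - v) k
          have e : (x - stp k - v) k = -2 := by
            have : (x - stp k - v) k = (x - v) k - (stp k : V d) k := by
              simp only [Pi.sub_apply]; ring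
            rw [this, h6, stp_same]; norm_num
          rw [e] at this; simp at this; omega
        have h8 : nm (x - stp k - v) ≤ 4 := by
          have := nm_sub_stp_le (x - v) k
          rw [sub_right_comm] at this; omega
        have h9 := hopen (x - stp k) k h8 (fun h => by have := nm_TT h; omega)
          (by rw [sub_add_cancel]; exact h2)
        rw [sub_add_cancel] at h9
        exact h9.symm.trans (hann _ h7 h8)
  -- vertices of the pattern
  have hcyc := fun (k : Fin d) (hk : k ≠ i) => pat_cycle h hk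
  have hvz : (gr O).Reachable v z := by
    refine (gr_adj_step (hcyc j hj).2.1).reachable.trans (hout _ (by simp) ?_)
    rw [mem_TT]
    rintro (h1 | h1 | ⟨k, _, h1 | h1⟩)
    · exact stp_ne_zero j h1
    · exact hj (stp_inj.mp h1)
    · have := congrFun h1 i
      simp [stp_same, stp_ne hj.symm, stp_apply] at this
      split_ifs at this <;> omega
    · rename_i hk
      have := congrFun h1 i
      simp [stp_same, stp_ne hj.symm, stp_ne hk.symm] at this
  have hin : ∀ x, x ∈ TT i v → (gr O).Reachable x z := by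
    have hw : (gr O).Reachable (v + stp i) z :=
      (gr_adj_step (hcyc j hj).1).reachable.symm.trans hvz
    rintro x (rfl | rfl | ⟨k, hk, rfl | rfl⟩)
    · exact hvz
    · exact hw
    · exact (gr_adj_step (hcyc k hk).2.2.1).reachable.symm.trans hw
    · have hx : v + stp i - stp k ∈ TT i v := Or.inr (Or.inr ⟨k, hk, Or.inr rfl⟩)
      have h1 : (v + stp i - stp k, k) ∈ O := (pat_edge h hx k).1.mpr
        (Or.inr ⟨k, hk, Or.inr (Or.inr (Or.inr (Or.inl rfl)))⟩)
      have h2 := (gr_adj_step h1).reachable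
      rw [sub_add_cancel] at h2
      exact h2.trans hw
  have hall : ∀ x, nm (x - v) ≤ 4 → (gr O).Reachable x z := by
    intro x hx
    by_cases h1 : x ∈ TT i v
    · exact hin x h1
    · exact hout x hx h1
  exact (hall x hx).trans (hall y hy).symm

theorem patc : S_PATC := by
  intro d hd O i v hP x y hxy
  have h1 : Relation.ReflTransGen (gr (O ∪ {e | nm (e.1 - v) ≤ 4})).Adj x y :=
    (SimpleGraph.reachable_iff_reflTransGen _ _).mp hxy
  have key : ∀ (x : V d) (k : Fin d), (x, k) ∈ (O ∪ {e : E d | nm (e.1 - v) ≤ 4}) →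
      (gr O).Reachable x (x + stp k) := by
    rintro x k (h | h)
    · exact (gr_adj_step h).reachable
    · have h2 : nm (x - v) ≤ 4 := h
      by_cases h3 : nm (x + stp k - v) ≤ 4
      · exact pat_conn hd hP h2 h3
      · have h4 : nm (x + stp k - v) ≤ nm (x - v) + 1 := by
          have := nm_add_stp_le (x - v) k
          rwa [sub_add_eq_add_sub] at this
        refine (gr_adj_step ((hP (x, k) h2).mpr (Or.inl ⟨fun h5 => ?_, fun h5 => ?_⟩))).reachable
        · have h6 : nm (x - v) ≤ 1 := nm_TT h5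
          omega
        · have h6 : nm (x + stp k - v) ≤ 1 := nm_TT h5
          omega
  clear hxy
  induction h1 with
  | refl => exact SimpleGraph.Reachable.refl _
  | @tail a b _ hab ih =>
    refine ih.trans ?_
    obtain ⟨k, ⟨h2, h3⟩ | ⟨h2, h3⟩⟩ := hab
    · rw [h2]; exact key a k h3
    · rw [h2]; exact (key b k h3).symm

end Pool.Agent.TH991
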