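import Pool.Agent.TH991.Loc

/-!
# MP_b4265e_pr: Peierls bound, local events
-/

set_option autoImplicit false

open Finset MeasureTheory ProbabilityTheory Filter
open scoped Classical ENNReal Topology

namespace Pool.Agent.TH991

open Pool.Agent.W844.VG

variable {d : ℕ}

section perc

variable {Ω : Type} [MeasurableSpace Ω] {μ : Measure Ω} {X : E d → Ω → Bool} {p : ℝ}

lemma real_open (h : IsPerc μ X p) (e : E d) : μ.real (X e ⁻¹' {true}) = p := h.2.2.2 e

lemma real_closed (h : IsPerc μ X p) (e : E d) : μ.real (X e ⁻¹' {false}) = 1 - p := by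
  have := h.1
  have h1 : X e ⁻¹' {false} = (X e ⁻¹' {true})ᶜ := by
    ext ω; simp
  rw [h1, probReal_compl_eq_one_sub (h.2.1 e (MeasurableSet.singleton _)), real_open h]

lemma p_mem (h : IsPerc μ X p) (e : E d) : 0 ≤ p ∧ p ≤ 1 := by
  have := h.1
  rw [← real_open h e]
  exact ⟨measureReal_nonneg, measureReal_le_one⟩

lemma meas_closed (h : IsPerc μ X p) (e : E d) :
    μ (X e ⁻¹' {false}) = ENNReal.ofReal (1 - p) := by
  have := h.1
  rw [← real_closed h e, ofReal_measureReal]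

/-- the edges near a given one -/
noncomputable def nbe (g : E d) : Finset (E d) :=
  ((box d 1).image fun y => g.1 + y) ×ˢ univ

lemma mem_nbe {f g : E d} (h : nm (f.1 - g.1) ≤ 1) : f ∈ nbe g := by
  unfold nbe
  rw [mem_product]
  exact ⟨mem_image.mpr ⟨f.1 - g.1, mem_box.mpr h, by abel⟩, mem_univ _⟩

lemma card_nbe (g : E d) : (nbe g).card ≤ d * 3 ^ d := by
  unfold nbe
  rw [card_product, card_univ, Fintype.card_fin, mul_comm]
  refine Nat.mul_le_mul_left _ (card_image_le.trans ?_)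
  rw [card_box]

/-- the chains of edges starting at `e`, described up to time `m` -/
noncomputable def PP (e : E d) : ℕ → Finset (ℕ → E d)
  | 0 => {fun _ => e}
  | m + 1 => (PP e m).biUnion fun c => (nbe (c m)).image fun f => fun k => if k ≤ m then c k else f

lemma card_PP (e : E d) (m : ℕ) : (PP e m).card ≤ (d * 3 ^ d) ^ m := by
  induction m with
  | zero => simp [PP]
  | succ m ih =>
    unfold PP
    refine (card_biUnion_le_card_mul _ _ (d * 3 ^ d) fun c _ =>
      card_image_le.trans (card_nbe _)).trans ?_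
    rw [pow_succ]
    exact Nat.mul_le_mul_right _ ih

lemma exists_PP (e : E d) (m : ℕ) (c : ℕ → E d) (h0 : c 0 = e)
    (hc : ∀ k, k < m → nm ((c (k + 1)).1 - (c k).1) ≤ 1) : ∃ c' ∈ PP e m, ∀ k, k ≤ m → c' k = c k := by
  induction m with
  | zero =>
    refine ⟨fun _ => e, by simp [PP], fun k hk => ?_⟩
    have : k = 0 := by omega
    rw [this, h0]
  | succ m ih =>
    obtain ⟨c', h1, h2⟩ := ih fun k hk => hc k (by omega)
    refine ⟨fun k => if k ≤ m then c' k else c (m + 1), ?_, fun k hk => ?_⟩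
    · unfold PP
      rw [mem_biUnion]
      refine ⟨c', h1, mem_image.mpr ⟨c (m + 1), mem_nbe ?_, rfl⟩⟩
      rw [h2 m le_rfl]; exact hc m (by omega)
    · by_cases h3 : k ≤ m
      · simp only [h3, if_true]; exact h2 k h3
      · have : k = m + 1 := by omega
        simp [this]

lemma path_prob (h : IsPerc μ X p) (m : ℕ) (c : ℕ → E d)
    (hc : ∀ j k, j ≤ m → k ≤ m → c j = c k → j = k) :
    μ {ω | ∀ k, k ≤ m → c k ∉ opn X ω} = ENNReal.ofReal ((1 - p) ^ (m + 1)) := by
  have h1 : {ω | ∀ k, k ≤ m → c k ∉ opn X ω} =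
      ⋂ e ∈ (range (m + 1)).image c, X e ⁻¹' {false} := by
    ext ω
    simp only [Set.mem_ofPred_eq, Set.mem_iInter, mem_image, mem_range, Set.mem_preimage,
      Set.mem_singleton_iff]
    constructor
    · rintro h2 e ⟨k, hk, rfl⟩
      have := h2 k (by omega)
      simpa [opn] using this
    · intro h2 k hk
      have := h2 (c k) ⟨k, by omega, rfl⟩
      simp [opn, this]
  rw [h1, h.2.2.1.measure_inter_preimage_eq_mul _ fun _ _ => MeasurableSet.singleton _]
  rw [prod_congr rfl fun e _ => meas_closed h e, prod_const, card_image_of_injOn, card_range,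
    ENNReal.ofReal_pow]
  · have := (p_mem h (c 0)).2; linarith
  · intro j hj k hk hjk
    have hj' := mem_range.mp (mem_coe.mp hj)
    have hk' := mem_range.mp (mem_coe.mp hk)
    exact hc j k (by omega) (by omega) hjk

end perc

theorem pei : S_PEI := by
  intro d Ω _ μ X p h e m
  have h1 : {ω | Chain (opn X ω) e m} ⊆ ⋃ c ∈ (PP e m).filter
      (fun c => ∀ j k, j ≤ m → k ≤ m → c j = c k → j = k), {ω | ∀ k, k ≤ m → c k ∉ opn X ω} := by
    rintro ω ⟨c, h0, h1, h2, h3⟩
    obtain ⟨c', h4, h5⟩ := exists_PP e m c h0 h2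
    rw [Set.mem_iUnion₂]
    refine ⟨c', mem_filter.mpr ⟨h4, fun j k hj hk hjk => h3 j k hj hk ?_⟩, fun k hk => ?_⟩
    · rw [← h5 j hj, ← h5 k hk, hjk]
    · rw [h5 k hk]; exact h1 k hk
  refine (measure_mono h1).trans ((measure_biUnion_finset_le _ _).trans ?_)
  have h2 : ∑ c ∈ (PP e m).filter (fun c => ∀ j k, j ≤ m → k ≤ m → c j = c k → j = k),
      μ {ω | ∀ k, k ≤ m → c k ∉ opn X ω} = ∑ c ∈ (PP e m).filter
      (fun c => ∀ j k, j ≤ m → k ≤ m → c j = c k → j = k), ENNReal.ofReal ((1 - p) ^ (m + 1)) :=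
    sum_congr rfl fun c hc => path_prob h m c (mem_filter.mp hc).2
  rw [h2, sum_const, nsmul_eq_mul, ENNReal.ofReal_mul (by positivity)]
  refine mul_le_mul_left ?_ _
  have h3 : ((PP e m).filter (fun c => ∀ j k, j ≤ m → k ≤ m → c j = c k → j = k)).card ≤
      (d * 3 ^ d) ^ m := (card_filter_le _ _).trans (card_PP e m)
  calc (((PP e m).filter (fun c => ∀ j k, j ≤ m → k ≤ m → c j = c k → j = k)).card : ℝ≥0∞)
      ≤ (((d * 3 ^ d) ^ m : ℕ) : ℝ≥0∞) := by exact_mod_cast h3
    _ = ENNReal.ofReal (((d : ℝ) * 3 ^ d) ^ m) := by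
      rw [← ENNReal.ofReal_natCast]; push_cast; rfl

/-! ### local events -/

/-- `P` depends only on the edges in `F` -/
def DepOn (P : Set (E d) → Prop) (F : Finset (E d)) : Prop :=
  ∀ O O' : Set (E d), (∀ e ∈ F, (e ∈ O ↔ e ∈ O')) → P O → P O'

section perc

variable {Ω : Type} [MeasurableSpace Ω] {μ : Measure Ω} {X : E d → Ω → Bool} {p : ℝ}

omit [MeasurableSpace Ω] in
lemma dep_preimage {P : Set (E d) → Prop} {F : Finset (E d)} (hP : DepOn P F) :
    {ω | P (opn X ω)} = (fun ω (e : F) => X e ω) ⁻¹'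
      {b : F → Bool | P {e | ∃ h : e ∈ F, b ⟨e, h⟩ = true}} := by
  ext ω
  simp only [Set.mem_ofPred_eq, Set.mem_preimage]
  constructor
  · exact hP _ _ fun e he => by simp [opn, he]
  · exact hP _ _ fun e he => by simp [opn, he]

lemma meas_all (F : Finset (E d)) (T : Set (F → Bool)) : MeasurableSet T :=
  (Set.toFinite T).measurableSet

lemma dep_meas (h : IsPerc μ X p) {P : Set (E d) → Prop} {F : Finset (E d)} (hP : DepOn P F) :
    MeasurableSet {ω | P (opn X ω)} := by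
  rw [dep_preimage hP]
  have hm : Measurable (fun ω (e : F) => X e ω) := measurable_pi_lambda _ fun e => h.2.1 e
  exact hm (meas_all F _)

lemma dep_indep (h : IsPerc μ X p) {P Q : Set (E d) → Prop} {F G : Finset (E d)}
    (hP : DepOn P F) (hQ : DepOn Q G) (hFG : Disjoint F G) :
    μ.real ({ω | P (opn X ω)} ∩ {ω | Q (opn X ω)}) =
      μ.real {ω | P (opn X ω)} * μ.real {ω | Q (opn X ω)} := by
  have h1 := (h.2.2.1.indepFun_finset F G hFG h.2.1).measure_inter_preimage_eq_mul _ _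
    (meas_all F {b : F → Bool | P {e | ∃ h : e ∈ F, b ⟨e, h⟩ = true}})
    (meas_all G {b : G → Bool | Q {e | ∃ h : e ∈ G, b ⟨e, h⟩ = true}})
  rw [← dep_preimage hP, ← dep_preimage hQ] at h1
  unfold Measure.real
  rw [h1, ENNReal.toReal_mul]

end perc

/-! ### no long closed chains -/

lemma bad_bound (d n : ℕ) : ((2 * n + 1 : ℝ) ^ d * d) * (1 / 2) ^ lg d n ≤
    (d * 8 ^ d * 4) * (1 / ((n : ℝ) + 1) ^ 2) := by
  set L := Nat.log 2 (n + 2) with hL
  have h1 : (n : ℝ) + 2 ≤ 2 * 2 ^ L := by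
    have := Nat.lt_pow_succ_log_self (b := 2) (by norm_num) (n + 2)
    rw [← hL, pow_succ] at this
    have h2 : n + 2 ≤ 2 * 2 ^ L := by omega
    exact_mod_cast h2
  have h3 : (1 / 2 : ℝ) ^ lg d n = 1 / (2 ^ L) ^ (d + 2) := by
    unfold lg
    rw [← hL, one_div_pow, mul_comm, pow_mul]
  rw [h3]
  have h4 : (0 : ℝ) < 2 ^ L := by positivity
  have h5 : (2 * n + 1 : ℝ) ^ d ≤ (4 * 2 ^ L) ^ d := pow_le_pow_left₀ (by positivity) (by linarith) d
  have h6 : 1 / (2 ^ L : ℝ) ^ 2 ≤ 4 * (1 / ((n : ℝ) + 1) ^ 2) := by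
    rw [mul_one_div, div_le_div_iff₀ (by positivity) (by positivity)]
    have : (n : ℝ) + 1 ≤ 2 * 2 ^ L := by linarith
    nlinarith
  have h7 : (4 : ℝ) ^ d ≤ 8 ^ d := pow_le_pow_left₀ (by norm_num) (by norm_num) d
  calc (2 * n + 1 : ℝ) ^ d * d * (1 / (2 ^ L) ^ (d + 2))
      ≤ (4 * 2 ^ L) ^ d * d * (1 / (2 ^ L) ^ (d + 2)) := by
        refine mul_le_mul_of_nonneg_right ?_ (by positivity)
        exact mul_le_mul_of_nonneg_right h5 (by positivity)
    _ = d * 4 ^ d * (1 / (2 ^ L : ℝ) ^ 2) := by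
        rw [mul_pow, pow_add]; field_simp
    _ ≤ d * 8 ^ d * (4 * (1 / ((n : ℝ) + 1) ^ 2)) := by
        refine mul_le_mul (mul_le_mul_of_nonneg_left h7 (by positivity)) h6 (by positivity)
          (by positivity)
    _ = _ := by ring

theorem aegood : S_AEGOOD := by
  intro d Ω _ μ X p h hp
  have hμ := h.1
  rcases Nat.eq_zero_or_pos d with hd | hd
  · subst hd
    exact Eventually.of_forall fun ω => ⟨0, fun n _ e => e.2.elim0⟩
  set B : ℕ → Set Ω := fun n => {ω | ∃ e : E d, nm e.1 ≤ n ∧ Chain (opn X ω) e (lg d n)} with hB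
  have hp1 : p ≤ 1 ∧ 0 ≤ p := ⟨(p_mem h (0, ⟨0, hd⟩)).2, (p_mem h (0, ⟨0, hd⟩)).1⟩
  have hBn : ∀ n, μ (B n) ≤ ENNReal.ofReal ((d * 8 ^ d * 4) * (1 / ((n : ℝ) + 1) ^ 2)) := by
    intro n
    have h1 : B n ⊆ ⋃ e ∈ (box d n) ×ˢ (univ : Finset (Fin d)),
        {ω | Chain (opn X ω) e (lg d n)} := by
      rintro ω ⟨e, he1, he2⟩
      rw [Set.mem_iUnion₂]
      exact ⟨e, mem_product.mpr ⟨mem_box.mpr he1, mem_univ _⟩, he2⟩
    refine (measure_mono h1).trans ((measure_biUnion_finset_le _ _).trans ?_)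
    refine (sum_le_sum fun e _ => pei d Ω μ X p h e (lg d n)).trans ?_
    rw [sum_const, card_product, card_univ, Fintype.card_fin, card_box, nsmul_eq_mul,
      ← ENNReal.ofReal_natCast, ← ENNReal.ofReal_mul (by positivity)]
    refine ENNReal.ofReal_le_ofReal (le_trans ?_ (bad_bound d n))
    push_cast
    refine mul_le_mul_of_nonneg_left ?_ (by positivity)
    rw [pow_succ, ← mul_assoc, ← mul_pow]
    have h2 : ((d : ℝ) * 3 ^ d * (1 - p)) ^ lg d n ≤ (1 / 2) ^ lg d n :=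
      pow_le_pow_left₀ (mul_nonneg (by positivity) (by linarith)) hp _
    have h3 : 0 ≤ ((d : ℝ) * 3 ^ d * (1 - p)) ^ lg d n :=
      pow_nonneg (mul_nonneg (by positivity) (by linarith)) _
    nlinarith
  have hsum : ∑' n, μ (B n) ≠ ∞ := by
    have h1 : Summable fun n : ℕ => ((d : ℝ) * 8 ^ d * 4) * (1 / ((n : ℝ) + 1) ^ 2) := by
      refine Summable.mul_left _ ?_
      have := (summable_nat_add_iff (f := fun n : ℕ => 1 / (n : ℝ) ^ 2) 1).mpr
        (Real.summable_one_div_nat_pow.mpr (by norm_num))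
      simpa using this
    refine ne_top_of_le_ne_top ?_ (ENNReal.tsum_le_tsum hBn)
    exact h1.tsum_ofReal_ne_top
  filter_upwards [ae_eventually_notMem hsum] with ω hω
  obtain ⟨N0, hN0⟩ := eventually_atTop.mp hω
  exact ⟨N0, fun n hn e he hch => hN0 n hn ⟨e, he, hch⟩⟩

end Pool.Agent.TH991
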