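import Pool.Agent.TH991.Prob1
import Pool.Agent.TH991.Harm
import Pool.Agent.TH991.Patt

/-!
# MP_b4265e_pr: the pattern has positive density in the infinite cluster
-/

set_option autoImplicit false

open Finset MeasureTheory ProbabilityTheory Filter
open scoped Classical ENNReal Topology

namespace Pool.Agent.TH991

open Pool.Agent.W844.VG

variable {d : ℕ}

theorem cheb : S_CHEB := by
  intro d Ω _ μ _ A N r ρ hρ hA hlow hind
  set B := box d N with hB
  set n : ℝ := (2 * N + 1) ^ d with hn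
  have hncard : (B.card : ℝ) = n := by rw [hB, card_box, hn]; push_cast; rfl
  have hnpos : 0 < n := by positivity
  set f : V d → Ω → ℝ := fun v => (A v).indicator fun _ => (1 : ℝ) with hf
  have hfL : ∀ v, MemLp (f v) 2 μ := fun v =>
    memLp_indicator_const 2 (hA v) 1 (Or.inr (measure_ne_top _ _))
  have hfint : ∀ v, ∫ ω, f v ω ∂μ = μ.real (A v) := fun v => by
    rw [hf]; simp only
    rw [integral_indicator_const _ (hA v), smul_eq_mul, mul_one]
  set Z : Ω → ℝ := fun ω => ∑ v ∈ B, f v ω with hZ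
  have hZcount : ∀ ω, Z ω = ((B.filter fun v => ω ∈ A v).card : ℝ) := by
    intro ω
    simp only [hZ, hf, Set.indicator_apply, sum_boole]
  have hZL : MemLp Z 2 μ := memLp_finsetSum B fun v _ => hfL v
  have hZint : ρ * n ≤ ∫ ω, Z ω ∂μ := by
    rw [hZ]
    simp only
    rw [integral_finsetSum B fun v _ => (hfL v).integrable (by norm_num)]
    rw [sum_congr rfl fun v _ => hfint v, ← hncard, mul_comm, ← nsmul_eq_mul]
    exact card_nsmul_le_sum _ _ _ hlow
  -- covariances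
  have hcov : ∀ v ∈ B, ∀ w ∈ B, cov[f v, f w; μ] ≤ if nm (w - v) ≤ r then 1 else 0 := by
    intro v hv w hw
    rw [covariance_eq_sub (hfL v) (hfL w)]
    have h1 : ∫ ω, (f v * f w) ω ∂μ = μ.real (A v ∩ A w) := by
      have : f v * f w = (A v ∩ A w).indicator fun _ => (1 : ℝ) := by
        ext ω
        simp only [hf, Pi.mul_apply, Set.indicator_apply, Set.mem_inter_iff]
        by_cases h1 : ω ∈ A v <;> by_cases h2 : ω ∈ A w <;> simp [h1, h2]
      rw [this, integral_indicator_const _ ((hA v).inter (hA w)), smul_eq_mul, mul_one]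
    rw [h1, hfint, hfint]
    split_ifs with h
    · have h2 : μ.real (A v ∩ A w) ≤ 1 := measureReal_le_one
      have h3 : 0 ≤ μ.real (A v) * μ.real (A w) := mul_nonneg measureReal_nonneg measureReal_nonneg
      linarith
    · rw [hind v hv w hw (by rw [nm_sub_comm]; omega), sub_self]
  have hvar : Var[Z; μ] ≤ n * (2 * r + 1) ^ d := by
    rw [hZ, variance_fun_sum' fun v _ => hfL v]
    refine (sum_le_sum fun v hv => (sum_le_sum fun w hw => hcov v hv w hw)).trans ?_
    rw [← hncard, ← nsmul_eq_mul]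
    refine sum_le_card_nsmul _ _ _ fun v _ => ?_
    rw [sum_boole]
    have := card_ball_le (B.filter fun w => nm (w - v) ≤ r) v r fun x hx => (mem_filter.mp hx).2
    exact_mod_cast this
  have hc : 0 < ρ / 2 * n := by positivity
  have h1 := meas_ge_le_variance_div_sq hZL hc
  have h2 : μ.real {ω | ((B.filter fun v => ω ∈ A v).card : ℝ) ≤ ρ / 2 * n} ≤
      Var[Z; μ] / (ρ / 2 * n) ^ 2 := by
    have h3 : μ {ω | ((B.filter fun v => ω ∈ A v).card : ℝ) ≤ ρ / 2 * n} ≤
        ENNReal.ofReal (Var[Z; μ] / (ρ / 2 * n) ^ 2) := by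
      refine (measure_mono fun ω hω => ?_).trans h1
      have h4 : ((B.filter fun v => ω ∈ A v).card : ℝ) ≤ ρ / 2 * n := hω
      rw [← hZcount] at h4
      show ρ / 2 * n ≤ |Z ω - ∫ ω, Z ω ∂μ|
      rw [abs_sub_comm]
      refine le_trans ?_ (le_abs_self _)
      linarith
    exact ENNReal.toReal_le_of_le_ofReal (div_nonneg (variance_nonneg _ _) (by positivity)) h3
  refine h2.trans ?_
  rw [div_le_div_iff₀ (by positivity) (by positivity)]
  calc Var[Z; μ] * (ρ ^ 2 * n) ≤ (n * (2 * r + 1) ^ d) * (ρ ^ 2 * n) :=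
        mul_le_mul_of_nonneg_right hvar (by positivity)
    _ = 4 * (2 * r + 1) ^ d * (ρ / 2 * n) ^ 2 := by ring

section perc

variable {Ω : Type} [MeasurableSpace Ω] {μ : Measure Ω} {X : E d → Ω → Bool} {p : ℝ}

/-- uniform lower bound for the percolation probability -/
lemma inf_prob (h : IsPerc μ X p) (hd : 2 ≤ d) (hp : (d : ℝ) * 3 ^ d * (1 - p) ≤ 1 / 4)
    (v : V d) : 1 / 2 ≤ μ.real {ω | v ∈ InfV (opn X ω)} := by
  have hμ := h.1
  set i : Fin d := ⟨0, by omega⟩ with hi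
  have hp1 := p_mem h (v, i)
  set q : ℝ := (d : ℝ) * 3 ^ d * (1 - p) with hq
  have hq0 : 0 ≤ q := mul_nonneg (by positivity) (by linarith)
  have hpq : 1 - p ≤ 1 / 4 := by
    have h1 : (1 : ℝ) ≤ (d : ℝ) * 3 ^ d := by
      have h2 : (1 : ℝ) ≤ d := by
        have : 1 ≤ d := by omega
        exact_mod_cast this
      have h3 : (1 : ℝ) ≤ 3 ^ d := one_le_pow₀ (by norm_num)
      nlinarith
    have : 0 ≤ 1 - p := by linarith
    nlinarith
  have h1 : {ω | v ∉ InfV (opn X ω)} ⊆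
      ⋃ k : ℕ, {ω | Chain (opn X ω) (v + (k : ℤ) • stp i, i) k} := by
    intro ω hω
    obtain ⟨k, _, hk⟩ := near d hd (opn X ω) v 0 i fun x hx hx' => by
      have : x = v := by
        have := eq_zero_of_nm (Nat.le_zero.mp hx)
        exact sub_eq_zero.mp this
      rw [this] at hx'
      exact hω hx'
    exact Set.mem_iUnion.mpr ⟨k, hk⟩
  have h2 : μ {ω | v ∉ InfV (opn X ω)} ≤ ENNReal.ofReal (1 / 3) := by
    refine (measure_mono h1).trans ((measure_iUnion_le _).trans ?_)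
    have h3 : ∀ k : ℕ, μ {ω | Chain (opn X ω) (v + (k : ℤ) • stp i, i) k} ≤
        ENNReal.ofReal (1 / 4 * (1 / 4) ^ k) := by
      intro k
      refine (pei d Ω μ X p h _ k).trans (ENNReal.ofReal_le_ofReal ?_)
      have e1 : ((d : ℝ) * 3 ^ d) ^ k * (1 - p) ^ (k + 1) = (1 - p) * q ^ k := by
        rw [hq, mul_pow ((d : ℝ) * 3 ^ d) (1 - p)]; ring
      rw [e1]
      refine mul_le_mul hpq (pow_le_pow_left₀ hq0 hp k) (pow_nonneg hq0 k) (by norm_num)
    refine (ENNReal.tsum_le_tsum h3).trans ?_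
    have hs : Summable fun k : ℕ => (1 / 4 : ℝ) * (1 / 4) ^ k :=
      (summable_geometric_of_lt_one (by norm_num) (by norm_num)).mul_left _
    rw [← ENNReal.ofReal_tsum_of_nonneg (fun k => by positivity) hs]
    refine ENNReal.ofReal_le_ofReal ?_
    rw [tsum_mul_left, tsum_geometric_of_lt_one (by norm_num) (by norm_num)]
    norm_num
  have h3 : μ.real {ω | v ∉ InfV (opn X ω)} ≤ 1 / 3 :=
    ENNReal.toReal_le_of_le_ofReal (by norm_num) h2
  have h4 : (1 : ℝ) ≤ μ.real {ω | v ∈ InfV (opn X ω)} + μ.real {ω | v ∉ InfV (opn X ω)} := by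
    have : ({ω | v ∈ InfV (opn X ω)} ∪ {ω | v ∉ InfV (opn X ω)} : Set Ω) = Set.univ := by
      ext ω; simp only [Set.mem_union, Set.mem_ofPred_eq, Set.mem_univ, iff_true]; exact em _
    have h5 := measureReal_union_le (μ := μ) {ω | v ∈ InfV (opn X ω)} {ω | v ∉ InfV (opn X ω)}
    rw [this] at h5
    simpa using h5
  linarith

/-- ball of edges -/
noncomputable def be (v : V d) (r : ℕ) : Finset (E d) := (finite_edge_ball v r).toFinset

lemma mem_be {v : V d} {r : ℕ} {e : E d} : e ∈ be v r ↔ nm (e.1 - v) ≤ r := by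
  unfold be; rw [Set.Finite.mem_toFinset]; rfl

lemma card_be (v : V d) (r : ℕ) : (be v r).card ≤ (2 * r + 1) ^ d * d := by
  have h1 : be v r ⊆ ((be v r).image fun e => e.1) ×ˢ (univ : Finset (Fin d)) := fun e he =>
    mem_product.mpr ⟨mem_image_of_mem _ he, mem_univ _⟩
  refine (card_le_card h1).trans ?_
  rw [card_product, card_univ, Fintype.card_fin]
  refine Nat.mul_le_mul_right _ (card_ball_le _ v r fun x hx => ?_)
  obtain ⟨e, he, rfl⟩ := mem_image.mp hx
  exact mem_be.mp he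

/-- `v` is joined to distance `r` -/
def QQ (O : Set (E d)) (v : V d) (r : ℕ) : Prop := ∃ x, nm (x - v) = r ∧ JoinIn O v r v x

lemma joinIn_congr {O O' : Set (E d)} {c : V d} {r : ℕ} {x y : V d}
    (hO : ∀ e : E d, nm (e.1 - c) ≤ r → e ∈ O → e ∈ O') (h : JoinIn O c r x y) :
    JoinIn O' c r x y := by
  induction h with
  | refl => exact Relation.ReflTransGen.refl
  | tail _ h2 ih =>
    refine ih.tail ⟨?_, h2.2⟩
    obtain ⟨k, ⟨h3, h4⟩ | ⟨h3, h4⟩⟩ := h2.1
    · exact ⟨k, Or.inl ⟨h3, hO _ h2.2.1 h4⟩⟩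
    · exact ⟨k, Or.inr ⟨h3, hO _ h2.2.2 h4⟩⟩

lemma qq_of_inf {O : Set (E d)} {v : V d} (hv : v ∈ InfV O) (r : ℕ) : QQ O v r := by
  have key : ∀ y, Relation.ReflTransGen (gr O).Adj v y →
      QQ O v r ∨ (nm (y - v) ≤ r ∧ JoinIn O v r v y) := by
    intro y hy
    induction hy with
    | refl => exact Or.inr ⟨by simp, Relation.ReflTransGen.refl⟩
    | @tail a b _ hab ih =>
      rcases ih with ih | ⟨h1, h2⟩
      · exact Or.inl ih
      · by_cases h3 : nm (b - v) ≤ r
        · exact Or.inr ⟨h3, h2.tail ⟨hab, h1, h3⟩⟩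
        · left
          refine ⟨a, ?_, h2⟩
          have h4 := nm_adj hab
          have h5 := nm_tri b a v
          omega
  obtain ⟨y, hy1, hy2⟩ := Set.Infinite.exists_notMem_finite hv (finite_ball v r)
  have h1 : Relation.ReflTransGen (gr O).Adj v y :=
    (SimpleGraph.reachable_iff_reflTransGen _ _).mp hy1
  rcases key y h1 with h2 | h2
  · exact h2
  · exact absurd h2.1 hy2

lemma dep_pat (i : Fin d) (v : V d) : DepOn (fun O => Pat O i v) (be v 4) := by
  intro O O' h hP e he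
  rw [← h e (mem_be.mpr he)]
  exact hP e he

/-- the near edges -/
def nr (v : V d) : Set (E d) := {e | nm (e.1 - v) ≤ 4}

lemma dep_qq (v : V d) (r : ℕ) : DepOn (fun O => QQ (O ∪ nr v) v r) (be v r \ be v 4) := by
  rintro O O' h ⟨x, h1, h2⟩
  refine ⟨x, h1, joinIn_congr (fun e he hO => ?_) h2⟩
  by_cases h3 : e ∈ nr v
  · exact Or.inr h3
  · left
    refine (h e (mem_sdiff.mpr ⟨mem_be.mpr he, fun h4 => h3 (mem_be.mp h4)⟩)).mp ?_
    exact hO.resolve_right h3

lemma pat_prob (h : IsPerc μ X p) (i : Fin d) (v : V d) :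
    (min p (1 - p)) ^ (9 ^ d * d) ≤ μ.real {ω | Pat (opn X ω) i v} := by
  have hμ := h.1
  have hp := p_mem h (v, i)
  set S : Set (E d) := {e | (e.1 ∉ TT i v ∧ e.1 + stp e.2 ∉ TT i v) ∨ e ∈ AL i v} with hS
  have h1 : {ω | Pat (opn X ω) i v} = ⋂ e ∈ be v 4, X e ⁻¹' {decide (e ∈ S)} := by
    ext ω
    simp only [Set.mem_ofPred_eq, Set.mem_iInter, Set.mem_preimage, Set.mem_singleton_iff]
    constructor
    · intro hP e he
      have h2 := hP e (mem_be.mp he)
      by_cases h3 : e ∈ S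
      · have : e ∈ opn X ω := h2.mpr h3
        simp only [h3, decide_true]; exact this
      · have : e ∉ opn X ω := fun h4 => h3 (h2.mp h4)
        simp only [h3, decide_false]
        simpa [opn] using this
    · intro hP e he
      have h2 := hP e (mem_be.mpr he)
      show e ∈ opn X ω ↔ e ∈ S
      by_cases h3 : e ∈ S
      · simp only [h3, decide_true] at h2
        exact ⟨fun _ => h3, fun _ => h2⟩
      · simp only [h3, decide_false] at h2
        exact ⟨fun h4 => by simp [opn, h2] at h4, fun h4 => absurd h4 h3⟩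
  have h2 : μ.real {ω | Pat (opn X ω) i v} =
      ∏ e ∈ be v 4, μ.real (X e ⁻¹' {decide (e ∈ S)}) := by
    unfold Measure.real
    rw [h1, h.2.2.1.measure_inter_preimage_eq_mul _ fun _ _ => MeasurableSet.singleton _,
      ENNReal.toReal_prod]
  rw [h2]
  have hmin0 : 0 ≤ min p (1 - p) := le_min hp.1 (by linarith)
  have hmin1 : min p (1 - p) ≤ 1 := (min_le_left _ _).trans hp.2
  calc (min p (1 - p)) ^ (9 ^ d * d) ≤ (min p (1 - p)) ^ (be v 4).card :=
        pow_le_pow_of_le_one hmin0 hmin1 (card_be v 4)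
    _ = ∏ e ∈ be v 4, min p (1 - p) := by rw [prod_const]
    _ ≤ _ := by
      refine prod_le_prod (fun _ _ => hmin0) fun e _ => ?_
      by_cases h3 : e ∈ S
      · simp only [h3, decide_true]
        rw [real_open h]; exact min_le_left _ _
      · simp only [h3, decide_false]
        rw [real_closed h]; exact min_le_right _ _

/-- the local events -/
def LA (X : E d → Ω → Bool) (i : Fin d) (r : ℕ) (v : V d) : Set Ω :=
  {ω | Pat (opn X ω) i v ∧ QQ (opn X ω ∪ nr v) v r}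

lemma dep_la (i : Fin d) (r : ℕ) (v : V d) :
    DepOn (fun O => Pat O i v ∧ QQ (O ∪ nr v) v r) (be v (max r 4)) := by
  rintro O O' h ⟨h1, h2⟩
  refine ⟨dep_pat i v O O' (fun e he => h e ?_) h1, dep_qq v r O O' (fun e he => h e ?_) h2⟩
  · rw [mem_be] at he ⊢; omega
  · have he' := mem_be.mp (mem_sdiff.mp he).1
    rw [mem_be]; omega

lemma la_prob (h : IsPerc μ X p) (hd : 2 ≤ d) (hp : (d : ℝ) * 3 ^ d * (1 - p) ≤ 1 / 4)
    (i : Fin d) (r : ℕ) (v : V d) :
    (min p (1 - p)) ^ (9 ^ d * d) / 2 ≤ μ.real (LA X i r v) := by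
  have hμ := h.1
  have h1 : LA X i r v = {ω | Pat (opn X ω) i v} ∩ {ω | QQ (opn X ω ∪ nr v) v r} := rfl
  rw [h1, dep_indep (P := fun O => Pat O i v) (Q := fun O => QQ (O ∪ nr v) v r) h (dep_pat i v)
    (dep_qq v r) (disjoint_sdiff)]
  have h2 := pat_prob h i v
  have h3 : 1 / 2 ≤ μ.real {ω | QQ (opn X ω ∪ nr v) v r} := by
    refine (inf_prob h hd hp v).trans (measureReal_mono fun ω hω => ?_)
    obtain ⟨x, h4, h5⟩ := qq_of_inf hω r
    exact ⟨x, h4, joinIn_congr (fun e _ he => Or.inl he) h5⟩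
  have hp' := p_mem h (v, i)
  have h4 : 0 ≤ (min p (1 - p)) ^ (9 ^ d * d) := pow_nonneg (le_min hp'.1 (by linarith)) _
  calc (min p (1 - p)) ^ (9 ^ d * d) / 2 = (min p (1 - p)) ^ (9 ^ d * d) * (1 / 2) := by ring
    _ ≤ _ := mul_le_mul h2 h3 (by norm_num) measureReal_nonneg

end perc

/-- the local events imply membership in the infinite cluster -/
lemma la_inf (hd : 2 ≤ d) (d' : ℕ) (hd' : d' = d) : ∃ K : ℕ, ∀ (O : Set (E d)), ∀ N0 : ℕ,
    (∀ n, N0 ≤ n → ∀ e : E d, nm e.1 ≤ n → ¬ Chain O e (lg d n)) → ∀ N, N0 ≤ N →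
    ∀ (i : Fin d) (v : V d), nm v ≤ N → Pat O i v →
      QQ (O ∪ nr v) v ((d' + 2) * (Nat.log 2 (N + 3) + 1) + K) → v ∈ InfV O := by
  subst hd'
  obtain ⟨K, hK⟩ := log_lin (d' + 2)
  refine ⟨K, fun O N0 hgood N hN i v hv hP hQ => ?_⟩
  by_contra hinf
  obtain ⟨x, hx1, hx2⟩ := hQ
  have hreach : (gr O).Reachable v x := patc d' hd O i v hP v x hx2.reachable
  obtain ⟨e, l, he1, he2⟩ := reach_chain hd hinf hreach hx1.ge
  have h1 : nm e.1 ≤ N + l + 1 := by
    have := nm_le_add e.1 v; omega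
  refine hgood (N + l + 1) (by omega) e h1 (he2.mono ?_ le_rfl)
  unfold lg
  have h2 : Nat.log 2 (N + l + 1 + 2) ≤ Nat.log 2 (N + 3) + Nat.log 2 (l + 2) + 1 := by
    refine (Nat.log_mono_right ?_).trans (log_mul_le (N + 3) (l + 2) (by omega) (by omega))
    nlinarith [Nat.zero_le (N * l)]
  have h3 := hK l
  have h4 : (d' + 2) * Nat.log 2 (N + l + 1 + 2) ≤
      (d' + 2) * (Nat.log 2 (N + 3) + Nat.log 2 (l + 2) + 1) := Nat.mul_le_mul_left _ h2
  nlinarith [Nat.zero_le ((d' + 2) * Nat.log 2 (l + 2))]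

lemma sum_bound (hd : 3 ≤ d) (K : ℕ) : ∃ C : ℝ, 0 ≤ C ∧ ∀ N : ℕ,
    ((2 * ((2 * max ((d + 2) * (Nat.log 2 (N + 3) + 1) + K) 4 : ℕ) : ℝ) + 1) ^ d) /
      (2 * N + 1) ^ d ≤ C * (1 / ((N : ℝ) + 1) ^ 2) := by
  obtain ⟨C1, _, hC1⟩ := pow_le_two_pow d
  set A : ℕ := 4 * (d + 2 + K + 4) + 1 with hA
  refine ⟨A ^ d * C1 * 3, by positivity, fun N => ?_⟩
  set J := Nat.log 2 (N + 3) with hJ
  have h1 : 2 * (2 * max ((d + 2) * (J + 1) + K) 4) + 1 ≤ A * (J + 1) := by
    have : max ((d + 2) * (J + 1) + K) 4 ≤ (d + 2 + K + 4) * (J + 1) := by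
      refine max_le ?_ ?_
      · nlinarith [Nat.zero_le (K * J), Nat.zero_le J]
      · nlinarith [Nat.zero_le (K * J), Nat.zero_le J, Nat.zero_le (d * J), Nat.zero_le d]
    rw [hA]
    nlinarith [Nat.zero_le J]
  have h2 : (2 * (2 * max ((d + 2) * (J + 1) + K) 4) + 1) ^ d ≤ A ^ d * C1 * (3 * (N + 1)) := by
    calc (2 * (2 * max ((d + 2) * (J + 1) + K) 4) + 1) ^ d ≤ (A * (J + 1)) ^ d :=
          Nat.pow_le_pow_left h1 d
      _ = A ^ d * (J + 1) ^ d := mul_pow _ _ _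
      _ ≤ A ^ d * (C1 * 2 ^ J) := Nat.mul_le_mul_left _ (hC1 J)
      _ ≤ A ^ d * (C1 * (3 * (N + 1))) := by
          refine Nat.mul_le_mul_left _ (Nat.mul_le_mul_left _ ?_)
          have := Nat.pow_log_le_self 2 (x := N + 3) (by omega)
          rw [← hJ] at this; omega
      _ = _ := by ring
  have h3 : ((N : ℝ) + 1) ^ 3 ≤ (2 * (N : ℝ) + 1) ^ d := by
    calc ((N : ℝ) + 1) ^ 3 ≤ (2 * (N : ℝ) + 1) ^ 3 := by
          refine pow_le_pow_left₀ (by positivity) ?_ 3
          have : (0 : ℝ) ≤ N := Nat.cast_nonneg N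
          linarith
      _ ≤ (2 * (N : ℝ) + 1) ^ d := by
          refine pow_le_pow_right₀ ?_ hd
          have : (0 : ℝ) ≤ N := Nat.cast_nonneg N
          linarith
  have h4 : ((2 * ((2 * max ((d + 2) * (J + 1) + K) 4 : ℕ) : ℝ) + 1) ^ d) ≤
      A ^ d * C1 * (3 * (N + 1)) := by exact_mod_cast h2
  rw [div_le_iff₀ (by positivity)]
  refine h4.trans ?_
  have hN : (0 : ℝ) < (N : ℝ) + 1 := by positivity
  have h5 : (A : ℝ) ^ d * C1 * (3 * (N + 1)) =
      A ^ d * C1 * 3 * (1 / ((N : ℝ) + 1) ^ 2) * ((N : ℝ) + 1) ^ 3 := by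
    field_simp
  rw [h5]
  exact mul_le_mul_of_nonneg_left h3 (by positivity)

theorem lln : S_LLN := by
  intro d Ω _ μ X p i hd h hp1 hp
  have hμ := h.1
  have hp0 : 0 < p := by
    have h1 : (1 : ℝ) ≤ (d : ℝ) * 3 ^ d := by
      have h2 : (1 : ℝ) ≤ d := by
        have : 1 ≤ d := by omega
        exact_mod_cast this
      have h3 : (1 : ℝ) ≤ 3 ^ d := one_le_pow₀ (by norm_num)
      nlinarith
    nlinarith
  obtain ⟨K, hK⟩ := la_inf (d := d) (by omega) d rfl
  set ρ : ℝ := (min p (1 - p)) ^ (9 ^ d * d) / 2 with hρ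
  have hρpos : 0 < ρ := by
    have : 0 < min p (1 - p) := lt_min hp0 (by linarith)
    positivity
  set rad : ℕ → ℕ := fun N => (d + 2) * (Nat.log 2 (N + 3) + 1) + K with hrad
  set B : ℕ → Set Ω := fun N => {ω | (((box d N).filter fun v => ω ∈ LA X i (rad N) v).card : ℝ) ≤
    ρ / 2 * (2 * N + 1) ^ d} with hB
  obtain ⟨C, hC0, hC⟩ := sum_bound hd K
  have hBN : ∀ N, μ (B N) ≤ ENNReal.ofReal ((4 / ρ ^ 2 * C) * (1 / ((N : ℝ) + 1) ^ 2)) := by
    intro N
    have h1 := cheb d Ω μ (fun v => LA X i (rad N) v) N (2 * max (rad N) 4) ρ hρpos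
      (fun v => dep_meas h (dep_la i (rad N) v)) (fun v _ => la_prob h (by omega) hp i (rad N) v)
      (fun v _ w _ hvw => by
        refine dep_indep h (dep_la i (rad N) v) (dep_la i (rad N) w) ?_
        rw [disjoint_left]
        intro e he he'
        rw [mem_be] at he he'
        have h2 := nm_tri v e.1 w
        rw [nm_sub_comm v e.1] at h2
        omega)
    have h2 : μ.real (B N) ≤ (4 / ρ ^ 2 * C) * (1 / ((N : ℝ) + 1) ^ 2) := by
      refine h1.trans ?_
      have h3 := hC N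
      calc 4 * (2 * ((2 * max (rad N) 4 : ℕ) : ℝ) + 1) ^ d / (ρ ^ 2 * (2 * N + 1) ^ d)
          = 4 / ρ ^ 2 * ((2 * ((2 * max (rad N) 4 : ℕ) : ℝ) + 1) ^ d / (2 * N + 1) ^ d) := by
            field_simp
        _ ≤ 4 / ρ ^ 2 * (C * (1 / ((N : ℝ) + 1) ^ 2)) :=
            mul_le_mul_of_nonneg_left h3 (by positivity)
        _ = _ := by ring
    rw [← ofReal_measureReal (measure_ne_top μ (B N))]
    exact ENNReal.ofReal_le_ofReal h2
  have hsum : ∑' n, μ (B n) ≠ ∞ := by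
    have h1 : Summable fun n : ℕ => (4 / ρ ^ 2 * C) * (1 / ((n : ℝ) + 1) ^ 2) := by
      refine Summable.mul_left _ ?_
      have := (summable_nat_add_iff (f := fun n : ℕ => 1 / (n : ℝ) ^ 2) 1).mpr
        (Real.summable_one_div_nat_pow.mpr (by norm_num))
      simpa using this
    exact ne_top_of_le_ne_top h1.tsum_ofReal_ne_top (ENNReal.tsum_le_tsum hBN)
  refine ⟨ρ / 2, by positivity, ?_⟩
  filter_upwards [ae_eventually_notMem hsum, aegood d Ω μ X p h (by linarith)] with ω hω hgood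
  obtain ⟨N0, hN0⟩ := hgood
  filter_upwards [hω, eventually_ge_atTop N0] with N hN hNN0
  have h1 : ρ / 2 * (2 * N + 1) ^ d <
      (((box d N).filter fun v => ω ∈ LA X i (rad N) v).card : ℝ) := by
    have h2 : ¬ (((box d N).filter fun v => ω ∈ LA X i (rad N) v).card : ℝ) ≤
      ρ / 2 * (2 * N + 1) ^ d := hN
    exact not_le.mp h2
  refine h1.le.trans ?_
  have h2 : ((box d N).filter fun v => ω ∈ LA X i (rad N) v) ⊆
      (box d N).filter fun v => Pat (opn X ω) i v ∧ v ∈ InfV (opn X ω) := by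
    intro v hv
    obtain ⟨hv1, hv2⟩ := mem_filter.mp hv
    exact mem_filter.mpr ⟨hv1, hv2.1,
      hK (opn X ω) N0 hN0 N hNN0 i v (mem_box.mp hv1) hv2.1 hv2.2⟩
  exact_mod_cast card_le_card h2

end Pool.Agent.TH991
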