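import Pool.Agent.TH991.Harm
import Pool.Agent.TH991.Patt

/-!
# MP_b4265e_pr: no single site separates a good pattern from infinity
-/

set_option autoImplicit false

open Finset
open scoped Classical

namespace Pool.Agent.TH991

open Pool.Agent.W844.VG

variable {d : ℕ}

/-- long chains with few exceptional edges contain long chains without them -/
lemma chain_split {O O' : Set (E d)} {e : E d} {M n L : ℕ} (X : Finset (E d)) (hX : X.card ≤ n)
    (hc : Chain O' e M) (hO : ∀ f, f ∉ O' → f ∈ X ∨ f ∉ O) (hL : (n + 1) * (L + 1) ≤ M + 1) :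
    ∃ e' : E d, nm (e'.1 - e.1) ≤ M ∧ Chain O e' L := by
  obtain ⟨c, h0, h1, h2, h3⟩ := hc
  -- one of the blocks is free
  obtain ⟨t, ht, htX⟩ : ∃ t, t < n + 1 ∧ ∀ k, k ≤ L → c (t * (L + 1) + k) ∉ X := by
    by_contra hcon
    push Not at hcon
    choose! k hk1 hk2 using hcon
    have hinj : (range (n + 1)).card ≤ X.card := by
      refine card_le_card_of_injOn (fun t => c (t * (L + 1) + k t)) (fun t ht => ?_) ?_
      · exact hk2 t (mem_range.mp (mem_coe.mp ht))
      · intro t ht s hs hts
        have ht' := mem_range.mp (mem_coe.mp ht)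
        have hs' := mem_range.mp (mem_coe.mp hs)
        have a1 := hk1 t ht'
        have a2 := hk1 s hs'
        have b1 : t * (L + 1) + k t ≤ M := by nlinarith
        have b2 : s * (L + 1) + k s ≤ M := by nlinarith
        have h4 := h3 _ _ b1 b2 hts
        have c1 : (t * (L + 1) + k t) / (L + 1) = t := by
          rw [Nat.add_div_of_dvd_right (dvd_mul_left _ _), Nat.mul_div_cancel _ (by omega),
            Nat.div_eq_of_lt (by omega), add_zero]
        have c2 : (s * (L + 1) + k s) / (L + 1) = s := by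
          rw [Nat.add_div_of_dvd_right (dvd_mul_left _ _), Nat.mul_div_cancel _ (by omega),
            Nat.div_eq_of_lt (by omega), add_zero]
        rw [← c1, ← c2, h4]
    rw [card_range] at hinj
    omega
  have hbd : ∀ k, k ≤ L → t * (L + 1) + k ≤ M := fun k hk => by nlinarith
  have hdist : ∀ k, k ≤ M → nm ((c k).1 - e.1) ≤ k := by
    intro k
    induction k with
    | zero => intro _; rw [h0]; simp
    | succ k ih =>
      intro hk
      have h4 := ih (by omega)
      have h5 := h2 k (by omega)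
      have h6 := nm_tri (c (k + 1)).1 (c k).1 e.1
      omega
  refine ⟨c (t * (L + 1)), ?_, fun k => c (t * (L + 1) + k), by simp, fun k hk => ?_,
    fun k hk => ?_, fun j k hj hk hjk => ?_⟩
  · have h4 := hbd 0 (by omega)
    exact (hdist _ (by simpa using h4)).trans (by simpa using h4)
  · exact (hO _ (h1 _ (hbd k hk))).resolve_left (htX k hk)
  · have := h2 (t * (L + 1) + k) (by have := hbd (k + 1) (by omega); omega)
    exact this
  · have := h3 _ _ (hbd j hj) (hbd k hk) hjk
    omega

/-- removal of the edges at a site -/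
def del (O : Set (E d)) (z : V d) : Set (E d) := {e ∈ O | e.1 ≠ z ∧ e.1 + stp e.2 ≠ z}

lemma del_subset (O : Set (E d)) (z : V d) : del O z ⊆ O := fun _ h => h.1

lemma del_adj {O : Set (E d)} {z x y : V d} (h : (gr O).Adj x y) (hx : x ≠ z) (hy : y ≠ z) :
    (gr (del O z)).Adj x y := by
  obtain ⟨k, ⟨h1, h2⟩ | ⟨h1, h2⟩⟩ := h
  · exact ⟨k, Or.inl ⟨h1, h2, hx, fun h => hy (h1.trans h)⟩⟩
  · exact ⟨k, Or.inr ⟨h1, h2, hy, fun h => hx (h1.trans h)⟩⟩

/-- the edges at `z` -/
noncomputable def inc (z : V d) : Finset (E d) :=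
  (univ : Finset (Fin d)).image (fun k => (z, k)) ∪ univ.image fun k => (z - stp k, k)

lemma mem_inc {z : V d} {e : E d} (h : ¬ (e.1 ≠ z ∧ e.1 + stp e.2 ≠ z)) : e ∈ inc z := by
  unfold inc
  rw [mem_union, mem_image, mem_image]
  by_cases h1 : e.1 = z
  · exact Or.inl ⟨e.2, mem_univ _, by rw [← h1]⟩
  · have h2 : e.1 + stp e.2 = z := by
      by_contra h2; exact h ⟨h1, h2⟩
    exact Or.inr ⟨e.2, mem_univ _, by rw [← h2]; simp⟩

lemma card_inc (z : V d) : (inc z).card ≤ 2 * d := by
  unfold inc
  refine (card_union_le _ _).trans ?_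
  have h1 : (image (fun k => (z, k)) (univ : Finset (Fin d))).card ≤ d := by
    refine card_image_le.trans ?_; simp
  have h2 : (image (fun k => (z - stp k, k)) (univ : Finset (Fin d))).card ≤ d := by
    refine card_image_le.trans ?_; simp
  omega

/-- the pattern with radius `R` -/
def PatR (O : Set (E d)) (i : Fin d) (v : V d) (R : ℕ) : Prop :=
  ∀ e : E d, nm (e.1 - v) ≤ R →
    (e ∈ O ↔ ((e.1 ∉ TT i v ∧ e.1 + stp e.2 ∉ TT i v) ∨ e ∈ AL i v))

lemma PatR.pat {O : Set (E d)} {i : Fin d} {v : V d} {R : ℕ} (h : PatR O i v R) (hR : 4 ≤ R) :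
    Pat O i v := fun e he => h e (he.trans hR)

/-- closed edges of the pattern are near `v` -/
lemma PatR.near {O : Set (E d)} {i : Fin d} {v : V d} {R : ℕ} (h : PatR O i v R) {e : E d}
    (he : nm (e.1 - v) ≤ R) (heO : e ∉ O) : nm (e.1 - v) ≤ 2 := by
  rw [h e he] at heO
  by_contra hcon
  apply heO
  left
  refine ⟨fun h1 => ?_, fun h1 => ?_⟩
  · have := nm_TT h1; omega
  · have h2 := nm_TT h1
    have h3 := le_nm_add_stp (e.1 - v) e.2
    rw [sub_add_eq_add_sub] at h3
    omega

lemma zsmul_notMem {i j : Fin d} (hj : j ≠ i) {v : V d} {k : ℤ} (hk : k ≠ 0) :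
    v + k • stp j ∉ TT i v := by
  rw [mem_TT]
  rintro (h | h | ⟨l, hl, h | h⟩)
  · have := congrFun h j
    simp [stp_same] at this
    exact hk this
  · have := congrFun h i
    simp [stp_same, stp_ne hj.symm] at this
  · have := congrFun h i
    simp [stp_same, stp_ne hj.symm, stp_ne hl.symm] at this
  · have := congrFun h i
    simp [stp_same, stp_ne hj.symm, stp_ne hl.symm] at this

/-- the two rays from the pattern -/
lemma ray_up {O : Set (E d)} {i j : Fin d} {v z : V d} {R : ℕ} (h : PatR O i v R) (hj : j ≠ i)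
    (hz : z j ≤ v j) : ∀ n : ℕ, 1 ≤ n → n ≤ R →
      (gr (del O z)).Reachable (v + (1 : ℤ) • stp j) (v + (n : ℤ) • stp j) := by
  have hne : ∀ m : ℕ, 1 ≤ m → v + (m : ℤ) • stp j ≠ z := by
    intro m hm h1
    have := congrFun h1 j
    simp [stp_same] at this
    omega
  intro n hn
  induction n, hn using Nat.le_induction with
  | base => intro _; exact SimpleGraph.Reachable.refl _
  | succ n hn ih =>
    intro hnR
    refine (ih (by omega)).trans ?_
    have e1 : v + ((n + 1 : ℕ) : ℤ) • stp j = v + (n : ℤ) • stp j + stp j := by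
      push_cast; rw [add_smul, one_smul, add_assoc]
    have hopen : (v + (n : ℤ) • stp j, j) ∈ O := by
      rw [h _ (by simp only [add_sub_cancel_left, nm_zsmul_stp]; omega)]
      left
      refine ⟨zsmul_notMem hj (by omega), ?_⟩
      simp only
      rw [← e1]
      exact zsmul_notMem hj (by omega)
    refine (del_adj (z := z) (gr_adj_step hopen) (hne n hn) ?_).reachable.trans ?_
    · rw [← e1]; exact hne _ (by omega)
    · rw [e1]

lemma ray_down {O : Set (E d)} {i j : Fin d} {v z : V d} {R : ℕ} (h : PatR O i v R) (hj : j ≠ i)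
    (hz : v j ≤ z j) : ∀ n : ℕ, 1 ≤ n → n ≤ R →
      (gr (del O z)).Reachable (v + (-1 : ℤ) • stp j) (v + (-(n : ℤ)) • stp j) := by
  have hne : ∀ m : ℕ, 1 ≤ m → v + (-(m : ℤ)) • stp j ≠ z := by
    intro m hm h1
    have := congrFun h1 j
    simp [stp_same] at this
    omega
  intro n hn
  induction n, hn using Nat.le_induction with
  | base => intro _; exact SimpleGraph.Reachable.refl _
  | succ n hn ih =>
    intro hnR
    refine (ih (by omega)).trans ?_
    have e1 : v + (-((n + 1 : ℕ) : ℤ)) • stp j + stp j = v + (-(n : ℤ)) • stp j := by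
      have : (-((n : ℕ) : ℤ)) = -((n + 1 : ℕ) : ℤ) + 1 := by push_cast; ring
      rw [this, add_smul _ (1 : ℤ), one_smul, add_assoc]
    have hopen : (v + (-((n + 1 : ℕ) : ℤ)) • stp j, j) ∈ O := by
      rw [h _ (by simp only [add_sub_cancel_left, nm_zsmul_stp]; omega)]
      left
      refine ⟨zsmul_notMem hj (by omega), ?_⟩
      simp only
      rw [e1]
      exact zsmul_notMem hj (by omega)
    have h2 := gr_adj_step hopen
    rw [e1] at h2
    exact (del_adj (z := z) h2.symm (hne n hn) (hne (n + 1) (by omega))).reachable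

/-- from both ends of the central edge one can reach distance `R`, avoiding a given site -/
lemma ray_reach (hd : 2 ≤ d) {O : Set (E d)} {i : Fin d} {v z x : V d} {R : ℕ}
    (h : PatR O i v R) (hR : 4 ≤ R) (hx : x = v ∨ x = v + stp i) (hz : z ≠ x) :
    ∃ y, R ≤ nm (y - x) ∧ (gr (del O z)).Reachable x y := by
  obtain ⟨j, hj⟩ : ∃ j : Fin d, j ≠ i := by
    have : Nontrivial (Fin d) := Fin.nontrivial_iff_two_le.mpr hd
    exact exists_ne i
  have hP := h.pat hR
  have hw : v + stp i ∈ TT i v := Or.inr (Or.inl rfl)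
  have hcyc := pat_cycle hP hj
  -- the other edges of the cycle below
  have hm1 : (v - stp j, j) ∈ O :=
    (pat_edge hP (Or.inl rfl) j).2.mpr (Or.inr ⟨j, hj, Or.inr (Or.inl rfl)⟩)
  have hm2 : (v + stp i - stp j, j) ∈ O :=
    (pat_edge hP hw j).2.mpr (Or.inr ⟨j, hj, Or.inr (Or.inr (Or.inr (Or.inl rfl)))⟩)
  have hm3 : (v - stp j, i) ∈ O := by
    have hx : v + stp i - stp j ∈ TT i v := Or.inr (Or.inr ⟨j, hj, Or.inr rfl⟩)
    have h1 := (pat_edge hP hx i).2
    have e1 : v + stp i - stp j - stp i = v - stp j := by abel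
    rw [e1] at h1
    exact h1.mpr (Or.inr ⟨j, hj, Or.inr (Or.inr (Or.inr (Or.inr (Or.inr rfl))))⟩)
  have hvj : ∀ t : ℤ, (v + t • stp j) j = v j + t := fun t => by simp [stp_same]
  have hnm : ∀ t : ℤ, t.natAbs ≤ nm (v + t • stp j - x) := by
    intro t
    refine le_trans ?_ (natAbs_le_nm _ j)
    rcases hx with rfl | rfl
    · simp [stp_same]
    · simp [stp_same, stp_ne hj]
  rcases lt_or_ge (v j) (z j) with hzj | hzj
  · -- go down
    refine ⟨v + (-(R : ℤ)) • stp j, by simpa using hnm (-(R : ℤ)), ?_⟩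
    refine SimpleGraph.Reachable.trans ?_ (ray_down h hj hzj.le R (by omega) le_rfl)
    have e1 : v + (-1 : ℤ) • stp j = v - stp j := by rw [neg_smul, one_smul, sub_eq_add_neg]
    rw [e1]
    have hz1 : v - stp j ≠ z := by
      intro h1; rw [← h1] at hzj; simp [stp_same] at hzj; omega
    rcases hx with rfl | rfl
    · have h2 := gr_adj_step hm1
      rw [sub_add_cancel] at h2
      exact (del_adj h2.symm hz.symm hz1).reachable
    · have hz2 : v + stp i - stp j ≠ z := by
        intro h1; rw [← h1] at hzj; simp [stp_same, stp_ne hj] at hzj; omega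
      have h2 := gr_adj_step hm2
      rw [sub_add_cancel] at h2
      have h3 := gr_adj_step hm3
      have e2 : v - stp j + stp i = v + stp i - stp j := by abel
      rw [e2] at h3
      exact (del_adj h2.symm hz.symm hz2).reachable.trans (del_adj h3.symm hz2 hz1).reachable
  · -- go up
    refine ⟨v + (R : ℤ) • stp j, by simpa using hnm (R : ℤ), ?_⟩
    refine SimpleGraph.Reachable.trans ?_ (ray_up h hj hzj R (by omega) le_rfl)
    rw [one_smul]
    have hz1 : v + stp j ≠ z := by
      intro h1; rw [← h1] at hzj; simp [stp_same] at hzj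
    rcases hx with rfl | rfl
    · exact (del_adj (gr_adj_step hcyc.2.1) hz.symm hz1).reachable
    · have hz2 : v + stp i + stp j ≠ z := by
        intro h1; rw [← h1] at hzj; simp [stp_same, stp_ne hj] at hzj
      have h3 := gr_adj_step hcyc.2.2.2
      have e2 : v + stp j + stp i = v + stp i + stp j := by abel
      rw [e2] at h3
      exact (del_adj (gr_adj_step hcyc.2.2.1) hz.symm hz2).reachable.trans
        (del_adj h3.symm hz2 hz1).reachable

/-- number of exceptional edges -/
def nex (d : ℕ) : ℕ := 2 * d + 5 ^ d * d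

/-- no long chain near `v` -/
def FF (O : Set (E d)) (v : V d) (R l : ℕ) : Prop :=
  ∀ e : E d, nm (e.1 - v) ≤ 2 * l + R + 2 → ¬ Chain O e ((R + l + 1) / (nex d + 1) - 1)

/-- the deterministic statement -/
theorem nonsep (hd : 2 ≤ d) {O : Set (E d)} {i : Fin d} {v z x : V d} {R : ℕ}
    (h : PatR O i v R) (hR : 4 ≤ R) (hRn : nex d ≤ R) (hF : ∀ l, FF (O ∪ {e | nm (e.1 - v) ≤ R}) v R l)
    (hx : x = v ∨ x = v + stp i) (hz : z ≠ x) : x ∈ InfV (del O z) := by
  by_contra hinf
  obtain ⟨y, hy1, hy2⟩ := ray_reach hd h hR hx hz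
  obtain ⟨e, l, he1, he2⟩ := reach_chain hd hinf hy2 hy1
  -- exceptional edges
  have hfin := finite_edge_ball v 2
  set X : Finset (E d) := inc z ∪ hfin.toFinset with hX
  have hXcard : X.card ≤ nex d := by
    rw [hX]
    refine (card_union_le _ _).trans (add_le_add (card_inc z) ?_)
    have h1 : hfin.toFinset ⊆ (hfin.toFinset.image fun e => e.1) ×ˢ (univ : Finset (Fin d)) :=
      fun e he => mem_product.mpr ⟨mem_image_of_mem _ he, mem_univ _⟩
    refine (card_le_card h1).trans ?_
    rw [card_product, card_univ, Fintype.card_fin]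
    refine Nat.mul_le_mul_right _ ((card_ball_le _ v 2 fun x hx => ?_).trans (by norm_num))
    obtain ⟨e, he, rfl⟩ := mem_image.mp hx
    exact hfin.mem_toFinset.mp he
  set L := (R + l + 1) / (nex d + 1) - 1 with hL
  have hL1 : 1 ≤ (R + l + 1) / (nex d + 1) := by
    rw [Nat.le_div_iff_mul_le (by omega)]; omega
  have hL2 : (nex d + 1) * (L + 1) ≤ R + l + 1 := by
    have : L + 1 = (R + l + 1) / (nex d + 1) := by omega
    rw [this]; exact Nat.mul_div_le _ _
  have hXO : ∀ f, f ∉ del O z → f ∈ X ∨ f ∉ O ∪ {e | nm (e.1 - v) ≤ R} := by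
    intro f hf
    by_cases h1 : f ∈ X
    · exact Or.inl h1
    · right
      rw [hX, mem_union, not_or] at h1
      have h2 : f ∉ O := by
        intro h2
        apply hf
        refine ⟨h2, ?_⟩
        by_contra h3
        exact h1.1 (mem_inc h3)
      rintro (h3 | h3)
      · exact h2 h3
      · exact h1.2 (hfin.mem_toFinset.mpr (h.near h3 h2))
  obtain ⟨e', he3, he4⟩ := chain_split X hXcard he2 hXO hL2
  refine hF l e' ?_ he4
  have h1 := nm_tri e'.1 e.1 v
  have h2 := nm_tri e.1 x v
  have h3 : nm (x - v) ≤ 1 := by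
    rcases hx with rfl | rfl
    · simp
    · simp
  omega

end Pool.Agent.TH991
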