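import Pool.Agent.TH991.Prob2
import Pool.Agent.TH991.Split

/-!
# MP_b4265e_pr: non-separable patterns have positive density in the infinite cluster
-/

set_option autoImplicit false

open Finset MeasureTheory ProbabilityTheory Filter
open scoped Classical ENNReal Topology

namespace Pool.Agent.TH991

open Pool.Agent.W844.VG

variable {d : ℕ}

lemma gg_bound (d : ℕ) : ∃ C : ℝ, 0 ≤ C ∧ ∀ k : ℕ,
    (4 * (k : ℝ) + 5) ^ d * d * (1 / 4) ^ ((k + 1) / (nex d + 1) - 1) ≤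
      C * (1 / ((k : ℝ) + 1) ^ 2) := by
  obtain ⟨C1, _, hC1⟩ := pow_le_two_pow (d + 2)
  set n := nex d with hn
  refine ⟨5 ^ d * d * 4 * C1 * (n + 1) ^ (d + 2), by positivity, fun k => ?_⟩
  set J := (k + 1) / (n + 1) with hJ
  have h1 : (1 / 4 : ℝ) ^ (J - 1) ≤ 4 * (1 / 2) ^ J := by
    rcases Nat.eq_zero_or_pos J with h | h
    · rw [h]; norm_num
    · obtain ⟨J', hJ'⟩ : ∃ J', J = J' + 1 := ⟨J - 1, by omega⟩
      rw [hJ', Nat.add_sub_cancel, pow_succ]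
      have h2 : (1 / 4 : ℝ) ^ J' ≤ (1 / 2) ^ J' := pow_le_pow_left₀ (by norm_num) (by norm_num) _
      have h3 : (0 : ℝ) ≤ (1 / 2) ^ J' := by positivity
      linarith
  have h2 : (k : ℝ) + 1 ≤ (J + 1) * (n + 1) := by
    have : k + 1 < (J + 1) * (n + 1) := by
      rw [hJ]
      have := Nat.lt_div_mul_add (a := k + 1) (b := n + 1) (by omega)
      linarith
    exact_mod_cast this.le
  have h3 : (1 / 2 : ℝ) ^ J ≤ C1 / ((J : ℝ) + 1) ^ (d + 2) := by
    rw [le_div_iff₀ (by positivity), one_div_pow]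
    have : ((J : ℝ) + 1) ^ (d + 2) ≤ C1 * 2 ^ J := by exact_mod_cast hC1 J
    rw [one_div, inv_mul_le_iff₀ (by positivity)]
    linarith
  have h4 : (C1 : ℝ) / ((J : ℝ) + 1) ^ (d + 2) ≤ C1 * (n + 1) ^ (d + 2) / ((k : ℝ) + 1) ^ (d + 2) := by
    rw [div_le_div_iff₀ (by positivity) (by positivity)]
    have h5 : ((k : ℝ) + 1) ^ (d + 2) ≤ ((J + 1) * (n + 1)) ^ (d + 2) :=
      pow_le_pow_left₀ (by positivity) h2 _
    rw [mul_pow] at h5
    calc (C1 : ℝ) * ((k : ℝ) + 1) ^ (d + 2) ≤ C1 * ((J + 1) ^ (d + 2) * (n + 1) ^ (d + 2)) :=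
          mul_le_mul_of_nonneg_left h5 (by positivity)
      _ = _ := by ring
  have h5 : (4 * (k : ℝ) + 5) ^ d ≤ 5 ^ d * ((k : ℝ) + 1) ^ d := by
    rw [← mul_pow]
    refine pow_le_pow_left₀ (by positivity) ?_ _
    have : (0 : ℝ) ≤ k := Nat.cast_nonneg k
    linarith
  have hk : (0 : ℝ) < (k : ℝ) + 1 := by positivity
  calc (4 * (k : ℝ) + 5) ^ d * d * (1 / 4) ^ (J - 1)
      ≤ (5 ^ d * ((k : ℝ) + 1) ^ d) * d * (4 * (C1 * (n + 1) ^ (d + 2) / ((k : ℝ) + 1) ^ (d + 2))) := by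
        refine mul_le_mul (mul_le_mul_of_nonneg_right h5 (by positivity)) ?_ (by positivity)
          (by positivity)
        exact h1.trans (mul_le_mul_of_nonneg_left (h3.trans h4) (by norm_num))
    _ = 5 ^ d * d * 4 * C1 * (n + 1) ^ (d + 2) * (1 / ((k : ℝ) + 1) ^ 2) := by
        rw [pow_add ((k : ℝ) + 1) d 2]; field_simp

lemma exists_R (d : ℕ) : ∃ R : ℕ, 4 ≤ R ∧ nex d ≤ R ∧ ∃ g : ℕ → ℝ, (∀ l, 0 ≤ g l) ∧ Summable g ∧
    ∑' l, g l ≤ 1 / 2 ∧ ∀ l : ℕ, (4 * ((R + l : ℕ) : ℝ) + 5) ^ d * d *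
      (1 / 4) ^ ((R + l + 1) / (nex d + 1) - 1) ≤ g l := by
  obtain ⟨C, hC0, hC⟩ := gg_bound d
  set f : ℕ → ℝ := fun k => C * (1 / ((k : ℝ) + 1) ^ 2) with hf
  have hfs : Summable f := by
    refine Summable.mul_left _ ?_
    have := (summable_nat_add_iff (f := fun n : ℕ => 1 / (n : ℝ) ^ 2) 1).mpr
      (Real.summable_one_div_nat_pow.mpr (by norm_num))
    simpa using this
  have h1 := tendsto_sum_nat_add f
  have h2 : ∀ᶠ i in atTop, ∑' k, f (k + i) < 1 / 2 := h1.eventually (gt_mem_nhds (by norm_num))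
  obtain ⟨R, hR1, hR2⟩ := (h2.and (eventually_ge_atTop (max 4 (nex d)))).exists
  refine ⟨R, (le_max_left _ _).trans hR2, (le_max_right _ _).trans hR2, fun l => f (l + R),
    fun l => by simp only [hf]; positivity, (summable_nat_add_iff R).mpr hfs, hR1.le, fun l => ?_⟩
  have h3 := hC (R + l)
  show _ ≤ f (l + R)
  rw [add_comm l R]
  exact h3

lemma big_l (A B : ℕ) : ∃ K : ℕ, ∀ N l : ℕ, 2 * A * Nat.log 2 (N + 3) + K ≤ l →
    A * Nat.log 2 (N + 2 * l + B) + B ≤ l := by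
  obtain ⟨K1, hK1⟩ := log_lin (2 * A)
  refine ⟨B + K1 + 2 * A + 2 * B + 1, fun N l hl => ?_⟩
  rcases Nat.eq_zero_or_pos l with h | h
  · omega
  have h1 : Nat.log 2 (N + 2 * l + B) ≤ Nat.log 2 (N + 3) + Nat.log 2 (2 * l + B + 2) + 1 := by
    refine (Nat.log_mono_right ?_).trans (log_mul_le (N + 3) (2 * l + B + 2) (by omega) (by omega))
    nlinarith [Nat.zero_le (N * l), Nat.zero_le (N * B)]
  have h2 := hK1 (2 * l + B)
  have h3 : A * Nat.log 2 (N + 2 * l + B) ≤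
      A * (Nat.log 2 (N + 3) + Nat.log 2 (2 * l + B + 2) + 1) := Nat.mul_le_mul_left _ h1
  have h4 : A * (Nat.log 2 (N + 3) + Nat.log 2 (2 * l + B + 2) + 1) =
      A * Nat.log 2 (N + 3) + A * Nat.log 2 (2 * l + B + 2) + A := by ring
  have h5 : 2 * (2 * A * Nat.log 2 (2 * l + B + 2)) = 4 * (A * Nat.log 2 (2 * l + B + 2)) := by ring
  have h6 : 2 * A * Nat.log 2 (N + 3) = 2 * (A * Nat.log 2 (N + 3)) := by ring
  omega

lemma chain_congr {O O' : Set (E d)} {e : E d} {m : ℕ}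
    (hO : ∀ f : E d, nm (f.1 - e.1) ≤ m → f ∉ O → f ∉ O') (h : Chain O e m) : Chain O' e m := by
  obtain ⟨c, h0, h1, h2, h3⟩ := h
  have hdist : ∀ k, k ≤ m → nm ((c k).1 - e.1) ≤ k := by
    intro k
    induction k with
    | zero => intro _; rw [h0]; simp
    | succ k ih =>
      intro hk
      have h4 := ih (by omega)
      have h5 := h2 k (by omega)
      have h6 := nm_tri (c (k + 1)).1 (c k).1 e.1
      omega
  exact ⟨c, h0, fun k hk => hO _ ((hdist k hk).trans hk) (h1 k hk), h2, h3⟩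

/-- the ball of edges as a set -/
def bs (v : V d) (R : ℕ) : Set (E d) := {e | nm (e.1 - v) ≤ R}

lemma dep_patR (i : Fin d) (v : V d) (R : ℕ) : DepOn (fun O => PatR O i v R) (be v R) := by
  intro O O' h hP e he
  rw [← h e (mem_be.mpr he)]
  exact hP e he

lemma dep_ff (v : V d) (R r : ℕ) : DepOn (fun O => ∀ l, l ≤ r → FF (O ∪ bs v R) v R l)
    (be v (3 * r + 2 * R + 3) \ be v R) := by
  intro O O' h hO l hl e he hc
  refine hO l hl e he (chain_congr (fun f hf hf' => ?_) hc)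
  rintro (h1 | h1)
  · apply hf'
    by_cases h2 : f ∈ bs v R
    · exact Or.inr h2
    · left
      refine (h f (mem_sdiff.mpr ⟨mem_be.mpr ?_, fun h4 => h2 (mem_be.mp h4)⟩)).mp h1
      have h3 := nm_tri f.1 e.1 v
      have h4 : (R + l + 1) / (nex d + 1) ≤ R + l + 1 := Nat.div_le_self _ _
      omega
  · exact hf' (Or.inr h1)

section perc

variable {Ω : Type} [MeasurableSpace Ω] {μ : Measure Ω} {X : E d → Ω → Bool} {p : ℝ}

lemma ff_prob (h : IsPerc μ X p) (hd : 1 ≤ d) (hp : (d : ℝ) * 3 ^ d * (1 - p) ≤ 1 / 4)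
    (v : V d) (R l : ℕ) : μ {ω | ¬ FF (opn X ω) v R l} ≤
      ENNReal.ofReal ((4 * ((R + l : ℕ) : ℝ) + 5) ^ d * d *
      (1 / 4) ^ ((R + l + 1) / (nex d + 1) - 1)) := by
  have hμ := h.1
  have hp1 := p_mem h (v, ⟨0, by omega⟩)
  set m := (R + l + 1) / (nex d + 1) - 1 with hm
  have h1 : {ω | ¬ FF (opn X ω) v R l} ⊆ ⋃ e ∈ be v (2 * l + R + 2), {ω | Chain (opn X ω) e m} := by
    intro ω hω
    have hω' : ¬ FF (opn X ω) v R l := hω
    unfold FF at hω'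
    push Not at hω'
    obtain ⟨e, he1, he2⟩ := hω'
    rw [Set.mem_iUnion₂]
    exact ⟨e, mem_be.mpr he1, he2⟩
  refine (measure_mono h1).trans ((measure_biUnion_finset_le _ _).trans ?_)
  refine (sum_le_sum fun e _ => pei d Ω μ X p h e m).trans ?_
  rw [sum_const, nsmul_eq_mul, ← ENNReal.ofReal_natCast, ← ENNReal.ofReal_mul (by positivity)]
  refine ENNReal.ofReal_le_ofReal ?_
  have h2 : ((be v (2 * l + R + 2)).card : ℝ) ≤ (4 * ((R + l : ℕ) : ℝ) + 5) ^ d * d := by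
    have h3 : (be v (2 * l + R + 2)).card ≤ (4 * (R + l) + 5) ^ d * d := by
      refine (card_be v _).trans (Nat.mul_le_mul_right _ (Nat.pow_le_pow_left (by omega) d))
    exact_mod_cast h3
  have h3 : ((d : ℝ) * 3 ^ d) ^ m * (1 - p) ^ (m + 1) ≤ (1 / 4) ^ m := by
    rw [pow_succ, ← mul_assoc, ← mul_pow]
    have h4 : ((d : ℝ) * 3 ^ d * (1 - p)) ^ m ≤ (1 / 4) ^ m :=
      pow_le_pow_left₀ (mul_nonneg (by positivity) (by linarith)) hp _
    have h5 : 0 ≤ ((d : ℝ) * 3 ^ d * (1 - p)) ^ m :=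
      pow_nonneg (mul_nonneg (by positivity) (by linarith)) _
    nlinarith
  exact mul_le_mul h2 h3 (mul_nonneg (by positivity) (pow_nonneg (by linarith) _)) (by positivity)

lemma ff_all_prob (h : IsPerc μ X p) (hd : 1 ≤ d) (hp : (d : ℝ) * 3 ^ d * (1 - p) ≤ 1 / 4)
    (v : V d) (R : ℕ) (g : ℕ → ℝ) (hg0 : ∀ l, 0 ≤ g l) (hg1 : Summable g) (hg2 : ∑' l, g l ≤ 1 / 2)
    (hg3 : ∀ l : ℕ, (4 * ((R + l : ℕ) : ℝ) + 5) ^ d * d *
      (1 / 4) ^ ((R + l + 1) / (nex d + 1) - 1) ≤ g l) :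
    1 / 2 ≤ μ.real {ω | ∀ l, FF (opn X ω) v R l} := by
  have hμ := h.1
  have h1 : {ω | ¬ ∀ l, FF (opn X ω) v R l} ⊆ ⋃ l, {ω | ¬ FF (opn X ω) v R l} := by
    intro ω hω
    have hω' : ¬ ∀ l, FF (opn X ω) v R l := hω
    push Not at hω'
    obtain ⟨l, hl⟩ := hω'
    exact Set.mem_iUnion.mpr ⟨l, hl⟩
  have h2 : μ {ω | ¬ ∀ l, FF (opn X ω) v R l} ≤ ENNReal.ofReal (1 / 2) := by
    refine (measure_mono h1).trans ((measure_iUnion_le _).trans ?_)
    refine (ENNReal.tsum_le_tsum fun l => (ff_prob h hd hp v R l).trans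
      (ENNReal.ofReal_le_ofReal (hg3 l))).trans ?_
    rw [← ENNReal.ofReal_tsum_of_nonneg hg0 hg1]
    exact ENNReal.ofReal_le_ofReal hg2
  have h3 : μ.real {ω | ¬ ∀ l, FF (opn X ω) v R l} ≤ 1 / 2 :=
    ENNReal.toReal_le_of_le_ofReal (by norm_num) h2
  have h4 : (1 : ℝ) ≤ μ.real {ω | ∀ l, FF (opn X ω) v R l} +
      μ.real {ω | ¬ ∀ l, FF (opn X ω) v R l} := by
    have : ({ω | ∀ l, FF (opn X ω) v R l} ∪ {ω | ¬ ∀ l, FF (opn X ω) v R l} : Set Ω) =
        Set.univ := by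
      ext ω; simp only [Set.mem_union, Set.mem_ofPred_eq, Set.mem_univ, iff_true]; exact em _
    have h5 := measureReal_union_le (μ := μ) {ω | ∀ l, FF (opn X ω) v R l}
      {ω | ¬ ∀ l, FF (opn X ω) v R l}
    rw [this] at h5
    simpa using h5
  linarith

lemma patR_prob (h : IsPerc μ X p) (i : Fin d) (v : V d) (R : ℕ) :
    (min p (1 - p)) ^ ((2 * R + 1) ^ d * d) ≤ μ.real {ω | PatR (opn X ω) i v R} := by
  have hμ := h.1
  have hp := p_mem h (v, i)
  set S : Set (E d) := {e | (e.1 ∉ TT i v ∧ e.1 + stp e.2 ∉ TT i v) ∨ e ∈ AL i v} with hS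
  have h1 : {ω | PatR (opn X ω) i v R} = ⋂ e ∈ be v R, X e ⁻¹' {decide (e ∈ S)} := by
    ext ω
    simp only [Set.mem_ofPred_eq, Set.mem_iInter, Set.mem_preimage, Set.mem_singleton_iff]
    constructor
    · intro hP e he
      have h2 := hP e (mem_be.mp he)
      by_cases h3 : e ∈ S
      · have : e ∈ opn X ω := h2.mpr h3
        simp only [h3, decide_true]; exact this
      · have : e ∉ opn X ω := fun h4 => h3 (h2.mp h4)
        simp only [h3, decide_false]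
        simpa [opn] using this
    · intro hP e he
      have h2 := hP e (mem_be.mpr he)
      show e ∈ opn X ω ↔ e ∈ S
      by_cases h3 : e ∈ S
      · simp only [h3, decide_true] at h2
        exact ⟨fun _ => h3, fun _ => h2⟩
      · simp only [h3, decide_false] at h2
        exact ⟨fun h4 => by simp [opn, h2] at h4, fun h4 => absurd h4 h3⟩
  have h2 : μ.real {ω | PatR (opn X ω) i v R} =
      ∏ e ∈ be v R, μ.real (X e ⁻¹' {decide (e ∈ S)}) := by
    unfold Measure.real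
    rw [h1, h.2.2.1.measure_inter_preimage_eq_mul _ fun _ _ => MeasurableSet.singleton _,
      ENNReal.toReal_prod]
  rw [h2]
  have hmin0 : 0 ≤ min p (1 - p) := le_min hp.1 (by linarith)
  have hmin1 : min p (1 - p) ≤ 1 := (min_le_left _ _).trans hp.2
  calc (min p (1 - p)) ^ ((2 * R + 1) ^ d * d) ≤ (min p (1 - p)) ^ (be v R).card :=
        pow_le_pow_of_le_one hmin0 hmin1 (card_be v R)
    _ = ∏ e ∈ be v R, min p (1 - p) := by rw [prod_const]
    _ ≤ _ := by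
      refine prod_le_prod (fun _ _ => hmin0) fun e _ => ?_
      by_cases h3 : e ∈ S
      · simp only [h3, decide_true]
        rw [real_open h]; exact min_le_left _ _
      · simp only [h3, decide_false]
        rw [real_closed h]; exact min_le_right _ _

/-- the local events -/
def LB (X : E d → Ω → Bool) (i : Fin d) (R r : ℕ) (v : V d) : Set Ω :=
  {ω | PatR (opn X ω) i v R ∧ ∀ l, l ≤ r → FF (opn X ω ∪ bs v R) v R l}

lemma dep_lb (i : Fin d) (R r : ℕ) (v : V d) :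
    DepOn (fun O => PatR O i v R ∧ ∀ l, l ≤ r → FF (O ∪ bs v R) v R l)
      (be v (3 * r + 2 * R + 3)) := by
  rintro O O' h ⟨h1, h2⟩
  refine ⟨dep_patR i v R O O' (fun e he => h e ?_) h1, dep_ff v R r O O' (fun e he => h e ?_) h2⟩
  · rw [mem_be] at he ⊢; omega
  · exact (mem_sdiff.mp he).1

lemma lb_prob (h : IsPerc μ X p) (hd : 1 ≤ d) (hp : (d : ℝ) * 3 ^ d * (1 - p) ≤ 1 / 4)
    (i : Fin d) (R r : ℕ) (v : V d)
    (g : ℕ → ℝ) (hg0 : ∀ l, 0 ≤ g l) (hg1 : Summable g) (hg2 : ∑' l, g l ≤ 1 / 2)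
    (hg3 : ∀ l : ℕ, (4 * ((R + l : ℕ) : ℝ) + 5) ^ d * d *
      (1 / 4) ^ ((R + l + 1) / (nex d + 1) - 1) ≤ g l) :
    (min p (1 - p)) ^ ((2 * R + 1) ^ d * d) / 2 ≤ μ.real (LB X i R r v) := by
  have hμ := h.1
  have h1 : LB X i R r v = {ω | PatR (opn X ω) i v R} ∩
      {ω | ∀ l, l ≤ r → FF (opn X ω ∪ bs v R) v R l} := rfl
  rw [h1, dep_indep (P := fun O => PatR O i v R)
    (Q := fun O => ∀ l, l ≤ r → FF (O ∪ bs v R) v R l) h (dep_patR i v R)
    (dep_ff v R r) (disjoint_sdiff)]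
  have h2 := patR_prob h i v R
  have h3 : 1 / 2 ≤ μ.real {ω | ∀ l, l ≤ r → FF (opn X ω ∪ bs v R) v R l} := by
    refine (ff_all_prob h hd hp v R g hg0 hg1 hg2 hg3).trans (measureReal_mono fun ω hω => ?_)
    intro l _ e he hc
    exact hω l e he (hc.mono le_rfl Set.subset_union_left)
  have hp' := p_mem h (v, i)
  have h4 : 0 ≤ (min p (1 - p)) ^ ((2 * R + 1) ^ d * d) := pow_nonneg (le_min hp'.1 (by linarith)) _
  calc (min p (1 - p)) ^ ((2 * R + 1) ^ d * d) / 2 =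
      (min p (1 - p)) ^ ((2 * R + 1) ^ d * d) * (1 / 2) := by ring
    _ ≤ _ := mul_le_mul h2 h3 (by norm_num) measureReal_nonneg

end perc

/-- the local events imply the global property -/
lemma lb_inf (hd : 2 ≤ d) (R : ℕ) (hR : 4 ≤ R) (hRn : nex d ≤ R) : ∃ A K : ℕ,
    ∀ (O : Set (E d)), ∀ N0 : ℕ,
    (∀ n, N0 ≤ n → ∀ e : E d, nm e.1 ≤ n → ¬ Chain O e (lg d n)) → ∀ N, N0 ≤ N →
    ∀ (i : Fin d) (v : V d), nm v ≤ N → PatR O i v R →
      (∀ l, l ≤ A * Nat.log 2 (N + 3) + K → FF (O ∪ bs v R) v R l) →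
      ∀ x, (x = v ∨ x = v + stp i) → ∀ z, z ≠ x → x ∈ InfV (del O z) := by
  obtain ⟨K, hK⟩ := big_l ((nex d + 1) * (d + 2)) (R + 4 + (nex d + 1))
  refine ⟨2 * ((nex d + 1) * (d + 2)), K, fun O N0 hgood N hN i v hv hP hF x hx z hz => ?_⟩
  refine nonsep hd hP hR hRn (fun l => ?_) hx hz
  by_cases hl : l ≤ 2 * ((nex d + 1) * (d + 2)) * Nat.log 2 (N + 3) + K
  · exact hF l hl
  · intro e he hc
    have h1 := hK N l (by omega)
    have h2 : nm e.1 ≤ N + 2 * l + R + 2 := by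
      have := nm_le_add e.1 v; omega
    refine hgood (N + 2 * l + R + 2) (by omega) e h2 ((hc.mono ?_ Set.subset_union_left))
    unfold lg
    have h3 : (nex d + 1) * ((d + 2) * Nat.log 2 (N + 2 * l + R + 2 + 2) + 1) ≤ R + l + 1 := by
      have h4 : Nat.log 2 (N + 2 * l + R + 2 + 2) ≤
          Nat.log 2 (N + 2 * l + (R + 4 + (nex d + 1))) := Nat.log_mono_right (by omega)
      have h5 : (nex d + 1) * (d + 2) * Nat.log 2 (N + 2 * l + R + 2 + 2) ≤
          (nex d + 1) * (d + 2) * Nat.log 2 (N + 2 * l + (R + 4 + (nex d + 1))) :=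
        Nat.mul_le_mul_left _ h4
      have h6 : (nex d + 1) * ((d + 2) * Nat.log 2 (N + 2 * l + R + 2 + 2) + 1) =
          (nex d + 1) * (d + 2) * Nat.log 2 (N + 2 * l + R + 2 + 2) + (nex d + 1) := by ring
      omega
    have h4 : (d + 2) * Nat.log 2 (N + 2 * l + R + 2 + 2) + 1 ≤ (R + l + 1) / (nex d + 1) := by
      rw [Nat.le_div_iff_mul_le (by omega), mul_comm]; exact h3
    omega

lemma sum_bound2 (hd : 3 ≤ d) (A : ℕ) : ∃ C : ℝ, 0 ≤ C ∧ ∀ N r : ℕ,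
    2 * r + 1 ≤ A * (Nat.log 2 (N + 3) + 1) →
    (2 * (r : ℝ) + 1) ^ d / (2 * N + 1) ^ d ≤ C * (1 / ((N : ℝ) + 1) ^ 2) := by
  obtain ⟨C1, _, hC1⟩ := pow_le_two_pow d
  refine ⟨A ^ d * C1 * 3, by positivity, fun N r h1 => ?_⟩
  set J := Nat.log 2 (N + 3) with hJ
  have h2 : (2 * r + 1) ^ d ≤ A ^ d * C1 * (3 * (N + 1)) := by
    calc (2 * r + 1) ^ d ≤ (A * (J + 1)) ^ d :=
          Nat.pow_le_pow_left h1 d
      _ = A ^ d * (J + 1) ^ d := mul_pow _ _ _
      _ ≤ A ^ d * (C1 * 2 ^ J) := Nat.mul_le_mul_left _ (hC1 J)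
      _ ≤ A ^ d * (C1 * (3 * (N + 1))) := by
          refine Nat.mul_le_mul_left _ (Nat.mul_le_mul_left _ ?_)
          have := Nat.pow_log_le_self 2 (x := N + 3) (by omega)
          rw [← hJ] at this; omega
      _ = _ := by ring
  have h3 : ((N : ℝ) + 1) ^ 3 ≤ (2 * (N : ℝ) + 1) ^ d := by
    calc ((N : ℝ) + 1) ^ 3 ≤ (2 * (N : ℝ) + 1) ^ 3 := by
          refine pow_le_pow_left₀ (by positivity) ?_ 3
          have : (0 : ℝ) ≤ N := Nat.cast_nonneg N
          linarith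
      _ ≤ (2 * (N : ℝ) + 1) ^ d := by
          refine pow_le_pow_right₀ ?_ hd
          have : (0 : ℝ) ≤ N := Nat.cast_nonneg N
          linarith
  have h4 : (2 * (r : ℝ) + 1) ^ d ≤ A ^ d * C1 * (3 * (N + 1)) := by exact_mod_cast h2
  rw [div_le_iff₀ (by positivity)]
  refine h4.trans ?_
  have hN : (0 : ℝ) < (N : ℝ) + 1 := by positivity
  have h5 : (A : ℝ) ^ d * C1 * (3 * (N + 1)) =
      A ^ d * C1 * 3 * (1 / ((N : ℝ) + 1) ^ 2) * ((N : ℝ) + 1) ^ 3 := by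
    field_simp
  rw [h5]
  exact mul_le_mul_of_nonneg_left h3 (by positivity)

/-- the pattern, with both ends of its central edge not separated from infinity by any site, has
positive density -/
theorem lln2 (d : ℕ) (Ω : Type) [MeasurableSpace Ω] (μ : Measure Ω)
    (X : E d → Ω → Bool) (p : ℝ) (i : Fin d) (hd : 3 ≤ d) (h : IsPerc μ X p) (hp1 : p < 1)
    (hp : (d : ℝ) * 3 ^ d * (1 - p) ≤ 1 / 4) :
    ∃ c : ℝ, 0 < c ∧ ∀ᵐ ω ∂μ, ∀ᶠ N : ℕ in Filter.atTop, c * (2 * N + 1) ^ d ≤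
      (((box d N).filter fun v => Pat (opn X ω) i v ∧ ∀ x, (x = v ∨ x = v + stp i) →
        ∀ z, z ≠ x → x ∈ InfV (del (opn X ω) z)).card : ℝ) := by
  have hμ := h.1
  have hp0 : 0 < p := by
    have h1 : (1 : ℝ) ≤ (d : ℝ) * 3 ^ d := by
      have h2 : (1 : ℝ) ≤ d := by
        have : 1 ≤ d := by omega
        exact_mod_cast this
      have h3 : (1 : ℝ) ≤ 3 ^ d := one_le_pow₀ (by norm_num)
      nlinarith
    nlinarith
  obtain ⟨R, hR4, hRn, g, hg0, hg1, hg2, hg3⟩ := exists_R d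
  obtain ⟨A, K, hK⟩ := lb_inf (d := d) (by omega) R hR4 hRn
  set ρ : ℝ := (min p (1 - p)) ^ ((2 * R + 1) ^ d * d) / 2 with hρ
  have hρpos : 0 < ρ := by
    have : 0 < min p (1 - p) := lt_min hp0 (by linarith)
    positivity
  set rad : ℕ → ℕ := fun N => A * Nat.log 2 (N + 3) + K with hrad
  set B : ℕ → Set Ω := fun N => {ω | (((box d N).filter fun v => ω ∈ LB X i R (rad N) v).card : ℝ) ≤
    ρ / 2 * (2 * N + 1) ^ d} with hB
  obtain ⟨C, hC0, hC⟩ := sum_bound2 hd (2 * (2 * (3 * (A + K) + 2 * R + 3)) + 1)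
  have hBN : ∀ N, μ (B N) ≤ ENNReal.ofReal ((4 / ρ ^ 2 * C) * (1 / ((N : ℝ) + 1) ^ 2)) := by
    intro N
    have h1 := cheb d Ω μ (fun v => LB X i R (rad N) v) N (2 * (3 * rad N + 2 * R + 3)) ρ hρpos
      (fun v => dep_meas h (dep_lb i R (rad N) v))
      (fun v _ => lb_prob h (by omega) hp i R (rad N) v g hg0 hg1 hg2 hg3)
      (fun v _ w _ hvw => by
        refine dep_indep h (dep_lb i R (rad N) v) (dep_lb i R (rad N) w) ?_
        rw [disjoint_left]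
        intro e he he'
        rw [mem_be] at he he'
        have h2 := nm_tri v e.1 w
        rw [nm_sub_comm v e.1] at h2
        omega)
    have h2 : μ.real (B N) ≤ (4 / ρ ^ 2 * C) * (1 / ((N : ℝ) + 1) ^ 2) := by
      refine h1.trans ?_
      have h3 := hC N (2 * (3 * rad N + 2 * R + 3)) (by
        simp only [hrad]
        have h5 : A * Nat.log 2 (N + 3) + K ≤ (A + K) * (Nat.log 2 (N + 3) + 1) := by
          nlinarith [Nat.zero_le (K * Nat.log 2 (N + 3)), Nat.zero_le A]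
        have h6 : 2 * R + 3 ≤ (2 * R + 3) * (Nat.log 2 (N + 3) + 1) := by
          nlinarith [Nat.zero_le (R * Nat.log 2 (N + 3)), Nat.zero_le (Nat.log 2 (N + 3))]
        calc 2 * (2 * (3 * (A * Nat.log 2 (N + 3) + K) + 2 * R + 3)) + 1
            ≤ 2 * (2 * (3 * ((A + K) * (Nat.log 2 (N + 3) + 1)) +
              (2 * R + 3) * (Nat.log 2 (N + 3) + 1))) + (Nat.log 2 (N + 3) + 1) := by omega
          _ = _ := by ring)
      calc 4 * (2 * ((2 * (3 * rad N + 2 * R + 3) : ℕ) : ℝ) + 1) ^ d / (ρ ^ 2 * (2 * N + 1) ^ d)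
          = 4 / ρ ^ 2 * ((2 * ((2 * (3 * rad N + 2 * R + 3) : ℕ) : ℝ) + 1) ^ d /
              (2 * N + 1) ^ d) := by
            field_simp
        _ ≤ 4 / ρ ^ 2 * (C * (1 / ((N : ℝ) + 1) ^ 2)) :=
            mul_le_mul_of_nonneg_left h3 (by positivity)
        _ = _ := by ring
    rw [← ofReal_measureReal (measure_ne_top μ (B N))]
    exact ENNReal.ofReal_le_ofReal h2
  have hsum : ∑' n, μ (B n) ≠ ∞ := by
    have h1 : Summable fun n : ℕ => (4 / ρ ^ 2 * C) * (1 / ((n : ℝ) + 1) ^ 2) := by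
      refine Summable.mul_left _ ?_
      have := (summable_nat_add_iff (f := fun n : ℕ => 1 / (n : ℝ) ^ 2) 1).mpr
        (Real.summable_one_div_nat_pow.mpr (by norm_num))
      simpa using this
    exact ne_top_of_le_ne_top h1.tsum_ofReal_ne_top (ENNReal.tsum_le_tsum hBN)
  refine ⟨ρ / 2, by positivity, ?_⟩
  filter_upwards [ae_eventually_notMem hsum, aegood d Ω μ X p h (by linarith)] with ω hω hgood
  obtain ⟨N0, hN0⟩ := hgood
  filter_upwards [hω, eventually_ge_atTop N0] with N hN hNN0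
  have h1 : ρ / 2 * (2 * N + 1) ^ d <
      (((box d N).filter fun v => ω ∈ LB X i R (rad N) v).card : ℝ) := by
    have h2 : ¬ (((box d N).filter fun v => ω ∈ LB X i R (rad N) v).card : ℝ) ≤
      ρ / 2 * (2 * N + 1) ^ d := hN
    exact not_le.mp h2
  refine h1.le.trans ?_
  have h2 : ((box d N).filter fun v => ω ∈ LB X i R (rad N) v) ⊆
      (box d N).filter fun v => Pat (opn X ω) i v ∧ ∀ x, (x = v ∨ x = v + stp i) →
        ∀ z, z ≠ x → x ∈ InfV (del (opn X ω) z) := by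
    intro v hv
    obtain ⟨hv1, hv2⟩ := mem_filter.mp hv
    exact mem_filter.mpr ⟨hv1, hv2.1.pat hR4,
      hK (opn X ω) N0 hN0 N hNN0 i v (mem_box.mp hv1) hv2.1 hv2.2⟩
  exact_mod_cast card_le_card h2

end Pool.Agent.TH991
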